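import Pool.Agent.helper63.Diag.Turing

/-!
# A total function with a `Σ⁰₁(X)` graph is Turing reducible to `X`
-/

namespace Pool.Agent.helper63.Diag

open Encodable

variable {X : ℕ → ℕ}

/-- total functions `ℕ → ℕ` recursive in `X` -/
def RI (X f : ℕ → ℕ) : Prop :=
  Nat.RecursiveIn {fun n => Part.some (X n)} (fun n => Part.some (f n))

theorem RI.prim {f : ℕ → ℕ} (h : Primrec f) : RI X f :=
  Nat.Partrec.recursiveIn (Partrec.nat_iff.1 h.to_comp.partrec)

theorem RI.comp {f g : ℕ → ℕ} (hf : RI X f) (hg : RI X g) : RI X (fun n => f (g n)) :=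
  (Nat.RecursiveIn.comp hf hg).of_eq (fun n => by simp)

theorem RI.pair {f g : ℕ → ℕ} (hf : RI X f) (hg : RI X g) :
    RI X (fun n => Nat.pair (f n) (g n)) :=
  (Nat.RecursiveIn.pair hf hg).of_eq (fun n => by simp [Seq.seq])

theorem RI.oracle : RI X X := Nat.RecursiveIn.oracle _ (Set.mem_singleton _)

/-- coded initial segments -/
theorem RI_res : RI X (fun k => encode (res X k)) := by
  have hstep : RI X (fun p => encode ((Denumerable.ofNat (List ℕ) p.unpair.2.unpair.2) ++
      [X p.unpair.2.unpair.1])) := by
    have h1 : Primrec (fun q : ℕ => encode ((Denumerable.ofNat (List ℕ)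
        q.unpair.1.unpair.2.unpair.2) ++ [q.unpair.2])) := by
      have hs : Primrec (fun q : ℕ => q.unpair.2) := Primrec.snd.comp Primrec.unpair
      have hf : Primrec (fun q : ℕ => q.unpair.1) := Primrec.fst.comp Primrec.unpair
      refine Primrec.encode.comp (Primrec.list_append.comp ?_ ?_)
      · exact (Primrec.ofNat (List ℕ)).comp (hs.comp (hs.comp hf))
      · exact Primrec.list_cons.comp hs (Primrec.const [])
    have h2 : RI X (fun p => X (p.unpair.2.unpair.1)) := by
      refine RI.oracle.comp (RI.prim ?_)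
      exact Primrec.fst.comp (Primrec.unpair.comp (Primrec.snd.comp Primrec.unpair))
    have h3 := (RI.prim (X := X) h1).comp ((RI.prim Primrec.id).pair h2)
    have : (fun n => encode ((Denumerable.ofNat (List ℕ)
        (Nat.pair (id n) (X n.unpair.2.unpair.1)).unpair.1.unpair.2.unpair.2) ++
        [(Nat.pair (id n) (X n.unpair.2.unpair.1)).unpair.2])) =
        (fun p => encode ((Denumerable.ofNat (List ℕ) p.unpair.2.unpair.2) ++
      [X p.unpair.2.unpair.1])) := by
      funext n; simp
    rw [this] at h3
    exact h3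
  have h0 : RI X (fun _ => encode ([] : List ℕ)) := RI.prim (Primrec.const _)
  have hrec := Nat.RecursiveIn.prec h0 hstep
  have hin : RI X (fun k => Nat.pair 0 k) :=
    RI.prim (Primrec₂.natPair.comp (Primrec.const 0) Primrec.id)
  have h4 := Nat.RecursiveIn.comp hrec hin
  refine h4.of_eq (fun k => ?_)
  simp only [Part.bind_eq_bind, Part.bind_some, Nat.unpair_pair]
  induction k with
  | zero => rfl
  | succ k ih =>
    refine (congrArg (fun P : Part ℕ => P.bind fun i =>
      Part.some (encode (Denumerable.ofNat (List ℕ) i ++ [X k]))) ih).trans ?_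
    simp only [Part.bind_some, Denumerable.ofNat_encode]
    congr 2
    unfold res
    rw [List.range_succ, List.map_append, List.map_singleton]

theorem RI.of_s1 {f : ℕ → ℕ} (h : S1 X (fun p : ℕ × ℕ => f p.1 = p.2)) : RI X f := by
  classical
  obtain ⟨D, hD, hA⟩ := h
  -- the test function
  let T : ℕ → ℕ := fun q =>
    if D (Denumerable.ofNat (List ℕ) q.unpair.2) (q.unpair.1.unpair.1,
      q.unpair.1.unpair.2.unpair.2) then 0 else 1
  have hT : Primrec T := by
    have hs : Primrec (fun q : ℕ => q.unpair.2) := Primrec.snd.comp Primrec.unpair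
    have hf : Primrec (fun q : ℕ => q.unpair.1) := Primrec.fst.comp Primrec.unpair
    refine Primrec.ite (hD.comp ((Primrec.ofNat (List ℕ)).comp hs) (Primrec.pair ?_ ?_))
      (Primrec.const 0) (Primrec.const 1)
    · exact hf.comp hf
    · exact hs.comp (hs.comp hf)
  have h1 : RI X (fun p => T (Nat.pair p (encode (res X p.unpair.2.unpair.1)))) := by
    refine (RI.prim hT).comp ((RI.prim Primrec.id).pair (RI_res.comp (RI.prim ?_)))
    exact Primrec.fst.comp (Primrec.unpair.comp (Primrec.snd.comp Primrec.unpair))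
  have h2 := Nat.RecursiveIn.rfind h1
  have h3 : RI X (fun t => t.unpair.2) := RI.prim (Primrec.snd.comp Primrec.unpair)
  have h4 := Nat.RecursiveIn.comp h3 h2
  refine h4.of_eq (fun n => ?_)
  have hval : ∀ t : ℕ, T (Nat.pair (Nat.pair n t) (encode (res X (Nat.pair n t).unpair.2.unpair.1)))
      = 0 ↔ D (res X t.unpair.1) (n, t.unpair.2) := by
    intro t
    simp only [T, Nat.unpair_pair, Denumerable.ofNat_encode]
    split_ifs with h <;> simp [h]
  have hex : ∃ t : ℕ, D (res X t.unpair.1) (n, t.unpair.2) := by
    obtain ⟨k, hk⟩ := (hA (n, f n)).1 rfl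
    exact ⟨Nat.pair k (f n), by simpa using hk⟩
  have hfind : Nat.find hex ∈ (Nat.rfind fun t => (fun m => decide (m = 0)) <$>
      (Part.some (T (Nat.pair (Nat.pair n t)
        (encode (res X (Nat.pair n t).unpair.2.unpair.1)))) : Part ℕ)) := by
    rw [Nat.mem_rfind]
    constructor
    · have := (hval (Nat.find hex)).2 (Nat.find_spec hex)
      simp only [Part.map_eq_map, Part.map_some, Part.mem_some_iff]
      rw [this]
      rfl
    · intro m hm
      have := Nat.find_min hex hm
      rw [← hval m] at this
      simp only [Part.map_eq_map, Part.map_some, Part.mem_some_iff]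
      rw [eq_comm, decide_eq_false_iff_not]
      exact this
  have h5 := Part.eq_some_iff.2 hfind
  rw [h5]
  simp only [Part.bind_eq_bind, Part.bind_some, Part.some_inj]
  have h6 := Nat.find_spec hex
  exact ((hA (n, (Nat.find hex).unpair.2)).2 ⟨_, h6⟩).symm

end Pool.Agent.helper63.Diag
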