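import Pool.Agent.helper63.Diag.S1

/-!
# The use principle: functions recursive in an oracle have a `Σ⁰₁` graph
-/

namespace Pool.Agent.helper63.Diag

open Encodable

variable {X : ℕ → ℕ}

/-- the graph of a partial function -/
def Gr (F : ℕ →. ℕ) : ℕ × ℕ → Prop := fun p => p.2 ∈ F p.1

theorem gr_pair {f h : ℕ →. ℕ} (hf : S1 X (Gr f)) (hh : S1 X (Gr h)) :
    S1 X (Gr fun n => (Nat.pair <$> f n <*> h n)) := by
  have h1 : S1 X (fun p : ℕ × ℕ => Gr f (p.1, p.2.unpair.1) ∧ Gr h (p.1, p.2.unpair.2)) := by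
    refine S1.and ?_ ?_
    · exact hf.comp (Primrec.pair Primrec.fst
        (Primrec.fst.comp (Primrec.unpair.comp Primrec.snd)))
    · exact hh.comp (Primrec.pair Primrec.fst
        (Primrec.snd.comp (Primrec.unpair.comp Primrec.snd)))
  refine h1.of_iff ?_
  rintro ⟨n, m⟩
  simp only [Gr, Seq.seq, Part.mem_bind_iff, Part.mem_map_iff, Part.map_eq_map]
  constructor
  · rintro ⟨ha, hb⟩
    exact ⟨_, ⟨_, ha, rfl⟩, _, hb, Nat.pair_unpair m⟩
  · rintro ⟨_, ⟨a, ha, rfl⟩, b, hb, rfl⟩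
    simpa using ⟨ha, hb⟩

theorem gr_comp {f h : ℕ →. ℕ} (hf : S1 X (Gr f)) (hh : S1 X (Gr h)) :
    S1 X (Gr fun n => h n >>= f) := by
  have h1 : S1 X (fun p : ℕ × ℕ => ∃ a : ℕ, Gr h (p.1, a) ∧ Gr f (a, p.2)) := by
    refine S1.ex ?_
    refine S1.and ?_ ?_
    · exact hh.comp (Primrec.pair (Primrec.fst.comp Primrec.fst) Primrec.snd)
    · exact hf.comp (Primrec.pair Primrec.snd (Primrec.snd.comp Primrec.fst))
  refine h1.of_iff ?_
  rintro ⟨n, m⟩
  simp only [Gr, Part.bind_eq_bind, Part.mem_bind_iff]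

theorem gr_rfind {f : ℕ →. ℕ} (hf : S1 X (Gr f)) :
    S1 X (Gr fun a => Nat.rfind fun n => (fun m => decide (m = 0)) <$> f (Nat.pair a n)) := by
  have h1 : S1 X (fun p : ℕ × ℕ => Gr f (Nat.pair p.1 p.2, 0) ∧
      ∀ j < p.2, ∃ v : ℕ, Gr f (Nat.pair p.1 j, v) ∧ v ≠ 0) := by
    refine S1.and ?_ ?_
    · exact hf.comp (Primrec.pair (Primrec₂.natPair.comp Primrec.fst Primrec.snd)
        (Primrec.const 0))
    · refine S1.balllt (A := fun (p : ℕ × ℕ) (j : ℕ) =>
        ∃ v : ℕ, Gr f (Nat.pair p.1 j, v) ∧ v ≠ 0) ?_ Primrec.snd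
      refine S1.ex ?_
      refine S1.and ?_ ?_
      · exact hf.comp (Primrec.pair
          (Primrec₂.natPair.comp (Primrec.fst.comp (Primrec.fst.comp Primrec.fst))
            (Primrec.snd.comp Primrec.fst)) Primrec.snd)
      · exact S1.prim (PrimrecPred.not (Primrec.eq.comp Primrec.snd (Primrec.const 0)))
  refine h1.of_iff ?_
  rintro ⟨n, m⟩
  simp only [Gr]
  rw [Nat.mem_rfind]
  simp only [Part.map_eq_map, Part.mem_map_iff]
  constructor
  · rintro ⟨ha, hb⟩
    refine ⟨⟨0, ha, by simp⟩, fun {j} hj => ?_⟩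
    obtain ⟨v, hv, hv0⟩ := hb j hj
    exact ⟨v, hv, by simpa using hv0⟩
  · rintro ⟨⟨a, ha, ha0⟩, hb⟩
    refine ⟨?_, fun j hj => ?_⟩
    · simp only [decide_eq_true_eq] at ha0
      rwa [ha0] at ha
    · obtain ⟨v, hv, hv0⟩ := hb hj
      exact ⟨v, hv, by simpa using hv0⟩

theorem gr_prec {f h : ℕ →. ℕ} (hf : S1 X (Gr f)) (hh : S1 X (Gr h)) :
    S1 X (Gr fun p =>
        let (a, n) := Nat.unpair p
        n.rec (f a) fun y IH => do
          let i ← IH
          h (Nat.pair a (Nat.pair y i))) := by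
  have key : ∀ a n m : ℕ, m ∈ (Nat.rec (f a) (fun y IH => do
          let i ← IH
          h (Nat.pair a (Nat.pair y i))) n : Part ℕ) ↔
      ∃ s : List ℕ, (Gr f (a, s.getD 0 0) ∧ s.getD n 0 = m) ∧
        ∀ y < n, Gr h (Nat.pair a (Nat.pair y (s.getD y 0)), s.getD (y + 1) 0) := by
    intro a n
    have : ∀ m : ℕ, m ∈ (Nat.rec (f a) (fun y IH => do
          let i ← IH
          h (Nat.pair a (Nat.pair y i))) n : Part ℕ) ↔
      ∃ s : ℕ → ℕ, (Gr f (a, s 0) ∧ s n = m) ∧
        ∀ y < n, Gr h (Nat.pair a (Nat.pair y (s y)), s (y + 1)) := by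
      induction n with
      | zero =>
        intro m
        constructor
        · intro hm
          exact ⟨fun _ => m, ⟨hm, rfl⟩, fun y hy => absurd hy (by omega)⟩
        · rintro ⟨s, ⟨h0, h1⟩, -⟩
          rw [← h1]
          exact h0
      | succ n ih =>
        intro m
        constructor
        · intro hm
          simp only [Part.bind_eq_bind, Part.mem_bind_iff] at hm
          obtain ⟨i, hi, hm⟩ := hm
          obtain ⟨s, ⟨h0, h1⟩, h2⟩ := (ih i).1 (by simpa only [Part.bind_eq_bind] using hi)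
          refine ⟨fun y => if y ≤ n then s y else m, ⟨by simpa using h0, by simp⟩, ?_⟩
          intro y hy
          rcases Nat.lt_succ_iff_lt_or_eq.1 hy with hy | hy
          · have := h2 y hy
            simpa [Nat.le_of_lt hy, Nat.succ_le_of_lt hy] using this
          · subst hy
            simp only [le_refl, if_true, h1, Nat.not_succ_le_self, if_false]
            exact hm
        · rintro ⟨s, ⟨h0, h1⟩, h2⟩
          simp only [Part.bind_eq_bind, Part.mem_bind_iff]
          refine ⟨s n, ?_, ?_⟩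
          · have := (ih (s n)).2 ⟨s, ⟨h0, rfl⟩, fun y hy => h2 y (by omega)⟩
            simpa only [Part.bind_eq_bind] using this
          · have := h2 n (by omega)
            rw [h1] at this
            exact this
    intro m
    rw [this m]
    constructor
    · rintro ⟨s, ⟨h0, h1⟩, h2⟩
      refine ⟨res s (n + 1), ⟨?_, ?_⟩, fun y hy => ?_⟩
      · rwa [res_getD s (by omega)]
      · rwa [res_getD s (by omega)]
      · rw [res_getD s (by omega), res_getD s (by omega)]
        exact h2 y hy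
    · rintro ⟨s, ⟨h0, h1⟩, h2⟩
      exact ⟨fun i => s.getD i 0, ⟨h0, h1⟩, h2⟩
  have h1 : S1 X (fun p : ℕ × ℕ => ∃ s : List ℕ,
      (Gr f (p.1.unpair.1, s.getD 0 0) ∧ s.getD p.1.unpair.2 0 = p.2) ∧
        ∀ y < p.1.unpair.2,
          Gr h (Nat.pair p.1.unpair.1 (Nat.pair y (s.getD y 0)), s.getD (y + 1) 0)) := by
    refine S1.ex (A := fun (p : ℕ × ℕ) (s : List ℕ) =>
      (Gr f (p.1.unpair.1, s.getD 0 0) ∧ s.getD p.1.unpair.2 0 = p.2) ∧
        ∀ y < p.1.unpair.2,
          Gr h (Nat.pair p.1.unpair.1 (Nat.pair y (s.getD y 0)), s.getD (y + 1) 0)) ?_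
    have u : Primrec (fun q : (ℕ × ℕ) × List ℕ => q.1.1.unpair) :=
      Primrec.unpair.comp (Primrec.fst.comp Primrec.fst)
    refine S1.and (S1.and ?_ ?_) ?_
    · exact hf.comp (Primrec.pair (Primrec.fst.comp u)
        ((Primrec.list_getD 0).comp Primrec.snd (Primrec.const 0)))
    · exact S1.prim (Primrec.eq.comp ((Primrec.list_getD 0).comp Primrec.snd
        (Primrec.snd.comp u)) (Primrec.snd.comp Primrec.fst))
    · refine S1.balllt (A := fun (q : (ℕ × ℕ) × List ℕ) (y : ℕ) =>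
          Gr h (Nat.pair q.1.1.unpair.1 (Nat.pair y (q.2.getD y 0)), q.2.getD (y + 1) 0)) ?_
          (Primrec.snd.comp u)
      refine hh.comp (Primrec.pair ?_ ?_)
      · refine Primrec₂.natPair.comp (Primrec.fst.comp (u.comp Primrec.fst)) ?_
        refine Primrec₂.natPair.comp Primrec.snd ?_
        exact (Primrec.list_getD 0).comp (Primrec.snd.comp Primrec.fst) Primrec.snd
      · exact (Primrec.list_getD 0).comp (Primrec.snd.comp Primrec.fst)
          (Primrec.succ.comp Primrec.snd)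
  refine h1.of_iff ?_
  rintro ⟨p, m⟩
  exact (key p.unpair.1 p.unpair.2 m).symm

theorem gr_of_recursiveIn {F : ℕ →. ℕ} (h : Nat.RecursiveIn {(X : ℕ →. ℕ)} F) : S1 X (Gr F) := by
  induction h with
  | zero =>
    refine (S1.prim (A := fun p : ℕ × ℕ => p.2 = 0)
      (Primrec.eq.comp Primrec.snd (Primrec.const 0))).of_iff ?_
    rintro ⟨n, m⟩
    show m = 0 ↔ m ∈ (Part.some 0)
    simp
  | succ =>
    refine (S1.prim (A := fun p : ℕ × ℕ => p.2 = p.1 + 1)
      (Primrec.eq.comp Primrec.snd (Primrec.succ.comp Primrec.fst))).of_iff ?_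
    rintro ⟨n, m⟩
    show m = n + 1 ↔ m ∈ (Part.some (Nat.succ n))
    simp
  | left =>
    refine (S1.prim (A := fun p : ℕ × ℕ => p.2 = p.1.unpair.1)
      (Primrec.eq.comp Primrec.snd
        (Primrec.fst.comp (Primrec.unpair.comp Primrec.fst)))).of_iff ?_
    rintro ⟨n, m⟩
    show m = n.unpair.1 ↔ m ∈ (Part.some n.unpair.1)
    simp
  | right =>
    refine (S1.prim (A := fun p : ℕ × ℕ => p.2 = p.1.unpair.2)
      (Primrec.eq.comp Primrec.snd
        (Primrec.snd.comp (Primrec.unpair.comp Primrec.fst)))).of_iff ?_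
    rintro ⟨n, m⟩
    show m = n.unpair.2 ↔ m ∈ (Part.some n.unpair.2)
    simp
  | oracle g hg =>
    rw [Set.mem_singleton_iff] at hg
    subst hg
    refine (S1.oracle (X := X) (R := fun (l : List ℕ) (p : ℕ × ℕ) => p.2 = l.getD p.1 0)
      (f := fun p : ℕ × ℕ => p.1 + 1) ?_ (Primrec.succ.comp Primrec.fst)).of_iff ?_
    · exact Primrec.eq.comp (Primrec.snd.comp Primrec.snd)
        ((Primrec.list_getD 0).comp Primrec.fst (Primrec.fst.comp Primrec.snd))
    · rintro ⟨n, m⟩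
      show m = (res X (n + 1)).getD n 0 ↔ m ∈ (Part.some (X n))
      rw [res_getD X (by omega)]
      simp
  | pair _ _ ih₁ ih₂ => exact gr_pair ih₁ ih₂
  | comp _ _ ih₁ ih₂ => exact gr_comp ih₁ ih₂
  | prec _ _ ih₁ ih₂ => exact gr_prec ih₁ ih₂
  | rfind _ ih => exact gr_rfind ih

/-- A total function Turing reducible to `X` has a graph that is `Σ⁰₁` in `X`. -/
theorem s1_graph {f : ℕ → ℕ} (h : TuringReducible (f : ℕ →. ℕ) (X : ℕ →. ℕ)) :
    S1 X (fun p : ℕ × ℕ => f p.1 = p.2) := by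
  have h1 := gr_of_recursiveIn (RecursiveIn.iff_nat.1 h)
  refine h1.of_iff ?_
  rintro ⟨n, m⟩
  show m ∈ Part.some (f n) ↔ f n = m
  simp [eq_comm]

end Pool.Agent.helper63.Diag
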