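import Pool.Agent.helper63.Diag.Limit
import Pool.Agent.helper63.Diag.Turing

/-!
# Theorem B: an upper bound computing a diagonal function for every ceer
-/

namespace Pool.Agent.helper63.Diag

open Encodable

/-- the `i`-th coordinate of a number, seen as a code of a list -/
def crd (i y : ℕ) : ℕ := (Denumerable.ofNat (List ℕ) y).getD i 0

/-- the list coded by `n` nested pairs -/
def dec : ℕ → ℕ → List ℕ
  | 0, _ => []
  | n + 1, x => dec n x.unpair.1 ++ [x.unpair.2]

theorem dec_length (n x : ℕ) : (dec n x).length = n := by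
  induction n generalizing x with
  | zero => rfl
  | succ n ih => simp [dec, ih]

theorem prim_dec (n : ℕ) : Primrec (dec n) := by
  induction n with
  | zero => exact Primrec.const []
  | succ n ih =>
    exact Primrec.list_append.comp (ih.comp (Primrec.fst.comp Primrec.unpair))
      (Primrec.list_cons.comp (Primrec.snd.comp Primrec.unpair) (Primrec.const []))

theorem prim_crd : Primrec₂ crd := by
  have h : Primrec (fun p : ℕ × ℕ => (Denumerable.ofNat (List ℕ) p.2).getD p.1 0) :=
    (Primrec.list_getD 0).comp ((Primrec.ofNat (List ℕ)).comp Primrec.snd) Primrec.fst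
  exact h

/-- `y` is compatible with `x`, which codes the values of the first `n` functions. -/
def Cmp (n x y : ℕ) : Prop := ∀ i < n, crd i y = (dec n x).getD i 0

theorem cmp_exists (n x : ℕ) : ∃ y, Cmp n x y :=
  ⟨encode (dec n x), fun i _ => by unfold crd; rw [Denumerable.ofNat_encode]⟩

theorem prim_cmp (n : ℕ) : PrimrecRel (Cmp n) := by
  unfold Cmp
  refine PRalllt (R := fun (p : ℕ × ℕ) (i : ℕ) => crd i p.2 = (dec n p.1).getD i 0) ?_
    (Primrec.const n)
  refine Primrec.eq.comp ?_ ?_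
  · exact prim_crd.comp Primrec.snd (Primrec.snd.comp Primrec.fst)
  · exact (Primrec.list_getD 0).comp ((prim_dec n).comp (Primrec.fst.comp Primrec.fst))
      Primrec.snd

/-- `Y` extends the finite string `τ` and codes the first `n` functions beyond it. -/
def Ext (n : ℕ) (X :  ℕ → ℕ) (τ : List ℕ) (Y : ℕ → ℕ) : Prop :=
  res Y τ.length = τ ∧ ∀ z, τ.length ≤ z → Cmp n (X z) (Y z)

/-- finite version -/
def ExtL (n : ℕ) (X :  ℕ → ℕ) (τ τ' : List ℕ) : Prop :=
  τ'.take τ.length = τ ∧ ∀ z < τ'.length, ¬ τ.length ≤ z ∨ Cmp n (X z) (τ'.getD z 0)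

theorem ext_of_extL {n : ℕ} {X : ℕ → ℕ} {τ τ' : List ℕ} (h : ExtL n X τ τ') {Y : ℕ → ℕ}
    (hY : Ext n X τ' Y) : Ext n X τ Y := by
  obtain ⟨h1, h2⟩ := h
  obtain ⟨h3, h4⟩ := hY
  refine ⟨res_prefix h1 h3, fun z hz => ?_⟩
  by_cases hz' : z < τ'.length
  · rcases h2 z hz' with h | h
    · exact absurd hz h
    · rwa [← h3, res_getD Y hz'] at h
  · exact h4 z (not_lt.1 hz')

theorem extL_of_ext {n : ℕ} {X : ℕ → ℕ} {τ : List ℕ} {Y : ℕ → ℕ} (hY : Ext n X τ Y) {k : ℕ}
    (hk : τ.length ≤ k) : ExtL n X τ (res Y k) := by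
  refine ⟨by rw [res_take Y hk]; exact hY.1, fun z hz => ?_⟩
  rw [res_length] at hz
  rw [res_getD Y hz]
  by_cases h : τ.length ≤ z
  · exact Or.inr (hY.2 z h)
  · exact Or.inl h

theorem s1_extL {n : ℕ} {X : ℕ → ℕ} (τ : List ℕ) : S1 X (fun τ' : List ℕ => ExtL n X τ τ') := by
  unfold ExtL
  refine S1.and (S1.prim (Primrec.eq.comp (Primrec.list_take.comp (Primrec.const _) Primrec.id)
    (Primrec.const τ))) ?_
  refine S1.balllt (A := fun (τ' : List ℕ) (z : ℕ) =>
    ¬ τ.length ≤ z ∨ Cmp n (X z) (τ'.getD z 0)) ?_ Primrec.list_length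
  refine (S1.oracle (X := X) (R := fun (l : List ℕ) (p : List ℕ × ℕ) =>
    ¬ τ.length ≤ p.2 ∨ Cmp n (l.getD p.2 0) (p.1.getD p.2 0))
    (PrimrecPred.or ?_ ?_) (f := fun p : List ℕ × ℕ => p.2 + 1)
    (Primrec.succ.comp Primrec.snd)).of_iff ?_
  · exact PrimrecPred.not (Primrec.nat_le.comp (Primrec.const _) (Primrec.snd.comp Primrec.snd))
  · exact (prim_cmp n).comp
      ((Primrec.list_getD 0).comp Primrec.fst (Primrec.snd.comp Primrec.snd))
      ((Primrec.list_getD 0).comp (Primrec.fst.comp Primrec.snd) (Primrec.snd.comp Primrec.snd))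
  · rintro ⟨τ', z⟩
    show (¬ τ.length ≤ z ∨ Cmp n ((res X (z + 1)).getD z 0) (τ'.getD z 0)) ↔ _
    rw [res_getD X (Nat.lt_succ_self z)]

/-- Requirement on the final oracle. -/
def ReqY (D : List ℕ → ℕ × ℕ → Prop) (h Y : ℕ → ℕ) : Prop :=
  (∀ e, ∃ m < h e, ∃ k, D (res Y k) (e, m)) → ∃ e m, Hlt e m ∧ ∃ k, D (res Y k) (e, m)

theorem exists_extL_longer (n : ℕ) (X : ℕ → ℕ) (τ : List ℕ) :
    ∃ τ', ExtL n X τ τ' ∧ τ'.length = τ.length + 1 := by
  obtain ⟨y, hy⟩ := cmp_exists n (X τ.length)
  refine ⟨τ ++ [y], ⟨by simp, fun z hz => ?_⟩, by simp⟩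
  by_cases h : τ.length ≤ z
  · right
    have : z = τ.length := by simp at hz; omega
    subst this
    simpa using hy
  · exact Or.inl h

theorem extL_trans {n : ℕ} {X : ℕ → ℕ} {τ τ' τ'' : List ℕ} (h : ExtL n X τ τ')
    (h' : ExtL n X τ' τ'') : ExtL n X τ τ'' := by
  have hl := length_le_of_take h.1
  refine ⟨?_, fun z hz => ?_⟩
  · have : τ''.take τ.length = (τ''.take τ'.length).take τ.length := by
      rw [List.take_take, Nat.min_eq_left hl]
    rw [this, h'.1, h.1]
  · by_cases hz' : z < τ'.length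
    · rcases h.2 z hz' with h1 | h1
      · exact Or.inl h1
      · right
        rwa [← getD_of_take h'.1 hz']
    · rcases h'.2 z hz with h1 | h1
      · exact absurd (not_lt.1 hz') h1
      · exact Or.inr h1

/-- meeting one requirement for the final oracle -/
theorem forceY {H : Set (ℕ → ℕ)} {X : ℕ → ℕ} (hP : Pr H X) (n : ℕ) (τ : List ℕ) (r : Rq H) :
    ∃ τ', ExtL n X τ τ' ∧ ∀ Y, Ext n X τ' Y → ReqY r.D r.h Y := by
  by_cases hc : ∀ e, ∃ i < r.h e, ∃ τ' : List ℕ, ExtL n X τ τ' ∧ r.D τ' (e, i)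
  · have hs : S1 X (fun a : ℕ × ℕ => ∃ τ' : List ℕ, ExtL n X τ τ' ∧ r.D τ' a) := by
      refine S1.ex (A := fun (a : ℕ × ℕ) (τ' : List ℕ) => ExtL n X τ τ' ∧ r.D τ' a) ?_
      exact ((s1_extL τ).comp Primrec.snd).and (S1.prim (r.hD.comp Primrec.snd Primrec.fst))
    obtain ⟨e, m, hem, τ', h1, h2⟩ := hP r.h r.hh _ hs hc
    refine ⟨τ', h1, fun Y hY _ => ⟨e, m, hem, τ'.length, ?_⟩⟩
    rw [hY.1]
    exact h2
  · push Not at hc
    obtain ⟨e, he⟩ := hc
    refine ⟨τ, ⟨by simp, fun z hz => Or.inl (not_le.2 hz)⟩, fun Y hY htot => ?_⟩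
    obtain ⟨m, hm, k, hk⟩ := htot e
    exact absurd (r.hm Y _ _ _ (le_max_left k τ.length) hk)
      (he m hm (res Y (max k τ.length)) (extL_of_ext hY (le_max_right _ _)))

theorem countable_ceer : {E : ℕ → ℕ → Prop | REPred fun p : ℕ × ℕ => E p.1 p.2}.Countable := by
  have key : ∀ E : {E : ℕ → ℕ → Prop // REPred fun p : ℕ × ℕ => E p.1 p.2},
      ∃ c : Nat.Partrec.Code, ∀ x y, E.1 x y ↔ (c.eval (encode (x, y))).Dom := by
    rintro ⟨E, hE⟩
    obtain ⟨c, hc⟩ := Nat.Partrec.Code.exists_code.1 hE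
    refine ⟨c, fun x y => ?_⟩
    rw [hc, Part.dom_iff_mem]
    constructor
    · intro h
      refine ⟨encode (), ?_⟩
      simp only [encodek, Part.coe_some, Part.bind_some, Part.mem_map_iff, Part.mem_assert_iff,
        Part.mem_some_iff]
      exact ⟨(), ⟨h, trivial⟩, trivial⟩
    · rintro ⟨v, hv⟩
      simp only [encodek, Part.coe_some, Part.bind_some, Part.mem_map_iff, Part.mem_assert_iff,
        Part.mem_some_iff] at hv
      obtain ⟨_, ⟨ha, -⟩, -⟩ := hv
      exact ha
  choose f hf using key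
  have hinj : Function.Injective f := by
    intro E E' h
    apply Subtype.ext
    funext x y
    apply propext
    rw [hf E x y, h, ← hf E' x y]
  exact hinj.countable

/-- the ceers with at least two classes -/
structure Cr where
  E : ℕ → ℕ → Prop
  eqv : Equivalence E
  ce : REPred fun p : ℕ × ℕ => E p.1 p.2
  ne : ∃ a b, ¬ E a b

theorem countable_cr : Countable Cr := by
  have h1 : Countable {E : ℕ → ℕ → Prop | REPred fun p : ℕ × ℕ => E p.1 p.2} :=
    countable_ceer.to_subtype
  let f : Cr → {E : ℕ → ℕ → Prop | REPred fun p : ℕ × ℕ => E p.1 p.2} := fun c => ⟨c.E, c.ce⟩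
  have hf : Function.Injective f := by
    rintro ⟨E, a, b, c⟩ ⟨E', a', b', c'⟩ h
    simp only [f, Subtype.mk.injEq] at h
    subst h
    rfl
  exact hf.countable

instance : Nonempty Cr :=
  ⟨⟨fun x y => x = y, ⟨fun _ => rfl, fun h => h.symm, fun h h' => h.trans h'⟩,
    (PrimrecPred.computablePred (Primrec.eq.comp Primrec.fst Primrec.snd)).to_re, 0, 1, by simp⟩⟩

/-- **Theorem B** -/
theorem exists_upper {H : Set (ℕ → ℕ)} (hH : H.Countable) (hne : H.Nonempty) :
    ∃ Y : ℕ → ℕ, (∀ C : Cr, ∃ g : ℕ → ℕ, (∀ x, ¬ C.E (g x) x) ∧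
      ∃ i m, ∀ z ≥ m, crd i (Y z) = g z) ∧ ∀ r : Rq H, ReqY r.D r.h Y := by
  classical
  obtain ⟨h0, hh0⟩ := hne
  have : Nonempty (Rq H) := by
    refine ⟨⟨h0, hh0, fun _ _ => False, ?_, fun _ _ _ _ _ h => h⟩⟩
    have : PrimrecPred (fun _ : List ℕ × (ℕ × ℕ) => (0 : ℕ) = 1) :=
      Primrec.eq.comp (Primrec.const 0) (Primrec.const 1)
    exact this.of_eq (fun a => by simp)
  have hcnt := countable_rq hH
  have hcr := countable_cr
  obtain ⟨er, her⟩ := exists_surjective_nat (Rq H)
  obtain ⟨ec, hec⟩ := exists_surjective_nat Cr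
  -- states
  let S := {p : (ℕ → ℕ) × List ℕ // Pr H p.1}
  have step : ∀ (n : ℕ) (s : S), ∃ g : ℕ → ℕ, ∃ τ' : List ℕ,
      ((∀ x, ¬ (ec n).E (g x) x) ∧ Pr H (join s.1.1 g)) ∧
      (ExtL n s.1.1 s.1.2 τ' ∧ s.1.2.length < τ'.length) ∧
      ∀ Y, Ext n s.1.1 τ' Y → ReqY (er n).D (er n).h Y := by
    rintro n ⟨⟨X, τ⟩, hP⟩
    obtain ⟨g, hg1, hg2⟩ := add_diag (X := X) hH hP (ec n).eqv (ec n).ce (ec n).ne
    obtain ⟨τ1, h1, h2⟩ := forceY hP n τ (er n)
    obtain ⟨τ2, h3, h4⟩ := exists_extL_longer n X τ1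
    refine ⟨g, τ2, ⟨hg1, hg2⟩, ⟨extL_trans h1 h3, ?_⟩, fun Y hY => h2 Y (ext_of_extL h3 hY)⟩
    have := length_le_of_take h1.1
    show τ.length < _
    omega
  choose G T hGT1 hGT2 hGT3 using step
  let s0 : S := ⟨(fun _ => 0, []), Pr.zero H⟩
  let seq : ℕ → S := fun m => Nat.rec s0
    (fun n s => ⟨(join s.1.1 (G n s), T n s), (hGT1 n s).2⟩) m
  let Xs : ℕ → (ℕ → ℕ) := fun n => (seq n).1.1
  let ts : ℕ → List ℕ := fun n => (seq n).1.2
  let gs : ℕ → (ℕ → ℕ) := fun n => G n (seq n)
  have hX : ∀ n, Xs (n + 1) = join (Xs n) (gs n) := fun n => rfl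
  have ht : ∀ n, ts (n + 1) = T n (seq n) := fun n => rfl
  have hlen : ∀ n, n ≤ (ts n).length := by
    intro n
    induction n with
    | zero => omega
    | succ n ih =>
      have := (hGT2 n (seq n)).2
      rw [ht]
      change (ts n).length < _ at this
      omega
  have hpre : ∀ m k, m ≤ k → (ts k).take (ts m).length = ts m := by
    intro m k h
    induction h with
    | refl => simp
    | step h ih =>
      rename_i k
      have h1 := (hGT2 k (seq k)).1.1
      change (T k (seq k)).take (ts k).length = ts k at h1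
      have h2 := length_le_of_take ih
      rw [ht]
      have : (T k (seq k)).take (ts m).length =
          ((T k (seq k)).take (ts k).length).take (ts m).length := by
        rw [List.take_take, Nat.min_eq_left h2]
      rw [this, h1, ih]
  let Y : ℕ → ℕ := fun z => (ts (z + 1)).getD z 0
  have hYget : ∀ k z, z < (ts k).length → Y z = (ts k).getD z 0 := by
    intro k z hz
    show (ts (z + 1)).getD z 0 = _
    rcases le_total (z + 1) k with h | h
    · exact getD_of_take (hpre _ _ h) (hlen (z + 1))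
    · exact (getD_of_take (hpre _ _ h) hz).symm
  have hY : ∀ m, res Y (ts m).length = ts m := by
    intro m
    apply List.ext_getElem
    · simp
    · intro i h1 h2
      have h3 : (res Y (ts m).length).getD i 0 = (ts m).getD i 0 := by
        rw [res_getD Y h2]
        exact hYget m i h2
      rw [List.getD_eq_getElem?_getD, List.getD_eq_getElem?_getD,
        List.getElem?_eq_getElem h1, List.getElem?_eq_getElem h2] at h3
      simpa using h3
  -- coordinates
  have hdec : ∀ n z, ∀ i < n, (dec n (Xs n z)).getD i 0 = gs i z := by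
    intro n z
    induction n with
    | zero => intro i hi; omega
    | succ n ih =>
      intro i hi
      rw [hX]
      simp only [dec, join, Nat.unpair_pair]
      rcases Nat.lt_succ_iff_lt_or_eq.1 hi with h | h
      · rw [List.getD_eq_getElem?_getD, List.getElem?_append_left (by rw [dec_length]; exact h),
          ← List.getD_eq_getElem?_getD]
        exact ih i h
      · subst h
        rw [List.getD_eq_getElem?_getD, List.getElem?_append_right (by rw [dec_length]),
          dec_length]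
        simp
  have hcmp : ∀ k z, z < (ts k).length → ∀ i, (ts (i + 1)).length ≤ z → i < k →
      crd i ((ts k).getD z 0) = gs i z := by
    intro k
    induction k with
    | zero => intro z hz i hi hik; omega
    | succ k ih =>
      intro z hz i hi hik
      by_cases hz' : z < (ts k).length
      · have h1 : (ts (k + 1)).getD z 0 = (ts k).getD z 0 := by
          rw [← hYget (k + 1) z hz, hYget k z hz']
        rw [h1]
        rcases Nat.lt_succ_iff_lt_or_eq.1 hik with h | h
        · exact ih z hz' i hi h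
        · subst h
          exact absurd (lt_of_le_of_lt hi hz') (by
            have := length_le_of_take (hpre i (i + 1) (by omega))
            omega)
      · have h1 := (hGT2 k (seq k)).1.2 z (by rw [ht] at hz; exact hz)
        rcases h1 with h1 | h1
        · exact absurd (not_lt.1 hz') h1
        · rcases Nat.lt_succ_iff_lt_or_eq.1 hik with h | h
          · have h2 := h1 i h
            rw [ht]
            rw [h2]
            exact hdec k z i h
          · subst h
            exact absurd hz (not_lt.2 hi)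
  refine ⟨Y, fun C => ?_, fun r => ?_⟩
  · obtain ⟨n, hn⟩ := hec C
    refine ⟨gs n, ?_, n, (ts (n + 1)).length, fun z hz => ?_⟩
    · have := (hGT1 n (seq n)).1
      rw [hn] at this
      exact this
    · have h1 : z < (ts (z + 1)).length := hlen (z + 1)
      rw [hYget (z + 1) z h1]
      refine hcmp (z + 1) z h1 n hz ?_
      have := hlen (n + 1)
      omega
  · obtain ⟨n, hn⟩ := her r
    have h1 := hGT3 n (seq n) Y ⟨hY (n + 1), fun z hz => ?_⟩
    · rw [hn] at h1
      exact h1
    · intro i hi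
      have h2 : z < (ts (z + 1)).length := hlen (z + 1)
      rw [hYget (z + 1) z h2]
      have h3 : (T n (seq n)).length ≤ z := hz
      have h4 : (ts (i + 1)).length ≤ (ts (n + 1)).length :=
        length_le_of_take (hpre (i + 1) (n + 1) (by omega))
      rw [hcmp (z + 1) z h2 i (h4.trans h3) (by
        have := hlen (n + 1)
        rw [ht] at this
        omega)]
      exact (hdec n z i hi).symm

end Pool.Agent.helper63.Diag
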