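import Pool.Agent.helper63.Diag.S1

/-!
# The property preserved by the construction, and basic facts on relative enumerability
-/

namespace Pool.Agent.helper63.Diag

open Encodable

/-- `m` is the value of the diagonal computation `φ_e(e)`. -/
def Hlt (e m : ℕ) : Prop :=
  m ∈ Nat.Partrec.Code.eval (Denumerable.ofNat Nat.Partrec.Code e) e

/-- Relative to `X`, no `Σ⁰₁(X)` multifunction with values bounded by some `h ∈ H` avoids the
diagonal function.  (Equivalent to: `X` computes no DNR function bounded by some `h ∈ H`.) -/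
def Pr (H : Set (ℕ → ℕ)) (X : ℕ → ℕ) : Prop :=
  ∀ h ∈ H, ∀ A : ℕ × ℕ → Prop, S1 X A → (∀ e, ∃ m < h e, A (e, m)) → ∃ e m, Hlt e m ∧ A (e, m)

/-- the join of two oracles -/
def join (X g : ℕ → ℕ) : ℕ → ℕ := fun x => Nat.pair (X x) (g x)

/-- the join of two finite strings -/
def jl (l m : List ℕ) : List ℕ :=
  (List.range l.length).map fun i => Nat.pair (l.getD i 0) (m.getD i 0)

theorem jl_length (l m : List ℕ) : (jl l m).length = l.length := by simp [jl]

theorem jl_res (X g : ℕ → ℕ) (k : ℕ) : jl (res X k) (res g k) = res (join X g) k := by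
  unfold jl
  rw [res_length]
  unfold res join
  apply List.map_congr_left
  intro i hi
  have hi' := List.mem_range.1 hi
  have h1 := res_getD X hi'
  have h2 := res_getD g hi'
  unfold res at h1 h2
  rw [h1, h2]

theorem primrec_jl : Primrec₂ jl := by
  have : Primrec (fun p : List ℕ × List ℕ => (List.range p.1.length).map
      fun i => Nat.pair (p.1.getD i 0) (p.2.getD i 0)) := by
    refine Primrec.list_map (Primrec.list_range.comp (Primrec.list_length.comp Primrec.fst)) ?_
    exact Primrec₂.natPair.comp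
      ((Primrec.list_getD 0).comp (Primrec.fst.comp Primrec.fst) Primrec.snd)
      ((Primrec.list_getD 0).comp (Primrec.snd.comp Primrec.fst) Primrec.snd)
  exact this

/-- recursively enumerable predicates are `Σ⁰₁` in every oracle -/
theorem S1.of_re {α : Type} [Primcodable α] {X : ℕ → ℕ} {A : α → Prop} (h : REPred A) :
    S1 X A := by
  obtain ⟨c, hc⟩ := Nat.Partrec.Code.exists_code.1 h
  have key : ∀ a, A a ↔ ∃ v, v ∈ Nat.Partrec.Code.eval c (encode a) := by
    intro a
    rw [hc]
    constructor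
    · intro ha
      refine ⟨encode (), ?_⟩
      simp only [encodek, Part.coe_some, Part.bind_some, Part.mem_map_iff, Part.mem_assert_iff,
        Part.mem_some_iff]
      exact ⟨(), ⟨ha, trivial⟩, trivial⟩
    · rintro ⟨v, hv⟩
      simp only [encodek, Part.coe_some, Part.bind_some, Part.mem_map_iff, Part.mem_assert_iff,
        Part.mem_some_iff] at hv
      obtain ⟨_, ⟨ha, -⟩, -⟩ := hv
      exact ha
  refine ⟨fun l a => (Nat.Partrec.Code.evaln l.length c (encode a)).isSome = true, ?_, fun a => ?_⟩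
  · have h1 : Primrec (fun p : List ℕ × α =>
        (Nat.Partrec.Code.evaln p.1.length c (encode p.2)).isSome) :=
      Primrec.option_isSome.comp (Nat.Partrec.Code.primrec_evaln.comp
        (Primrec.pair (Primrec.pair (Primrec.list_length.comp Primrec.fst) (Primrec.const c))
          (Primrec.encode.comp Primrec.snd)))
    exact Primrec.eq.comp h1 (Primrec.const true)
  · rw [key a]
    simp only [res_length]
    constructor
    · rintro ⟨v, hv⟩
      obtain ⟨k, hk⟩ := Nat.Partrec.Code.evaln_complete.1 hv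
      exact ⟨k, by rw [Option.mem_def.1 hk]; rfl⟩
    · rintro ⟨k, hk⟩
      obtain ⟨v, hv⟩ := Option.isSome_iff_exists.1 hk
      exact ⟨v, Nat.Partrec.Code.evaln_sound (Option.mem_def.2 hv)⟩

/-- uniformization -/
theorem S1.unif {X : ℕ → ℕ} {A : ℕ × ℕ → Prop} (h : S1 X A) (tot : ∀ y, ∃ z, A (y, z)) :
    ∃ g : ℕ → ℕ, (∀ y, A (y, g y)) ∧ S1 X (fun p : ℕ × ℕ => g p.1 = p.2) := by
  classical
  obtain ⟨D, hD, hA⟩ := h
  let B : ℕ → ℕ → Prop := fun y t => D (res X t.unpair.1) (y, t.unpair.2)
  have hB : ∀ y, ∃ t, B y t := by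
    intro y
    obtain ⟨z, hz⟩ := tot y
    obtain ⟨k, hk⟩ := (hA _).1 hz
    exact ⟨Nat.pair k z, by simpa [B] using hk⟩
  refine ⟨fun y => (Nat.find (hB y)).unpair.2, fun y => ?_, ?_⟩
  · exact (hA _).2 ⟨_, Nat.find_spec (hB y)⟩
  · let R : List ℕ → (ℕ × ℕ) × ℕ → Prop := fun l q =>
      (D (l.take q.2.unpair.1) (q.1.1, q.2.unpair.2) ∧
        ∀ t' < q.2, ¬ D (l.take t'.unpair.1) (q.1.1, t'.unpair.2)) ∧ q.2.unpair.2 = q.1.2
    have hR : PrimrecRel R := by
      refine PrimrecPred.and (PrimrecPred.and ?_ ?_) ?_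
      · have u : Primrec (fun p : List ℕ × ((ℕ × ℕ) × ℕ) => p.2.2.unpair) :=
          Primrec.unpair.comp (Primrec.snd.comp Primrec.snd)
        exact hD.comp (Primrec.list_take.comp (Primrec.fst.comp u) Primrec.fst)
          (Primrec.pair (Primrec.fst.comp (Primrec.fst.comp Primrec.snd)) (Primrec.snd.comp u))
      · refine PRalllt (R := fun (p : List ℕ × ((ℕ × ℕ) × ℕ)) (t' : ℕ) =>
          ¬ D (p.1.take t'.unpair.1) (p.2.1.1, t'.unpair.2)) ?_ (Primrec.snd.comp Primrec.snd)
        refine PrimrecPred.not ?_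
        have u : Primrec (fun p : (List ℕ × ((ℕ × ℕ) × ℕ)) × ℕ => p.2.unpair) :=
          Primrec.unpair.comp Primrec.snd
        exact hD.comp (Primrec.list_take.comp (Primrec.fst.comp u)
          (Primrec.fst.comp Primrec.fst))
          (Primrec.pair (Primrec.fst.comp (Primrec.fst.comp (Primrec.snd.comp Primrec.fst)))
            (Primrec.snd.comp u))
      · exact Primrec.eq.comp (Primrec.snd.comp (Primrec.unpair.comp
          (Primrec.snd.comp Primrec.snd))) (Primrec.snd.comp (Primrec.fst.comp Primrec.snd))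
    have h1 : S1 X (fun p : ℕ × ℕ => ∃ t : ℕ, R (res X t) (p, t)) :=
      S1.ex (A := fun (p : ℕ × ℕ) (t : ℕ) => R (res X t) (p, t))
        (S1.oracle (X := X) hR (f := fun p : (ℕ × ℕ) × ℕ => p.2) Primrec.snd)
    refine h1.of_iff ?_
    rintro ⟨y, z⟩
    have hR' : ∀ t, R (res X t) ((y, z), t) ↔ (B y t ∧ ∀ t' < t, ¬ B y t') ∧ t.unpair.2 = z := by
      intro t
      simp only [R, B]
      rw [res_take X (Nat.unpair_left_le t)]
      constructor
      · rintro ⟨⟨h1, h2⟩, h3⟩
        refine ⟨⟨h1, fun t' ht' => ?_⟩, h3⟩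
        have := h2 t' ht'
        rwa [res_take X ((Nat.unpair_left_le t').trans ht'.le)] at this
      · rintro ⟨⟨h1, h2⟩, h3⟩
        refine ⟨⟨h1, fun t' ht' => ?_⟩, h3⟩
        have := h2 t' ht'
        rwa [res_take X ((Nat.unpair_left_le t').trans ht'.le)]
    simp only [hR']
    constructor
    · rintro ⟨t, ⟨h1, h2⟩, h3⟩
      have : Nat.find (hB y) = t := (Nat.find_eq_iff (hB y)).2 ⟨h1, h2⟩
      rw [this]; exact h3
    · intro h
      exact ⟨Nat.find (hB y), ⟨Nat.find_spec (hB y), fun t' ht' => Nat.find_min (hB y) ht'⟩, h⟩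

/-- If the graph of `g` is `Σ⁰₁(X)` then `Σ⁰₁(X ⊕ g)` sets are `Σ⁰₁(X)`. -/
theorem S1.of_join {α : Type} [Primcodable α] {X g : ℕ → ℕ} {A : α → Prop}
    (hg : S1 X (fun p : ℕ × ℕ => g p.1 = p.2)) (h : S1 (join X g) A) : S1 X A := by
  obtain ⟨D, hD, hA⟩ := h
  have h1 : S1 X (fun a : α => ∃ τ : List ℕ, (∀ i < τ.length, g i = τ.getD i 0) ∧
      D (jl (res X τ.length) τ) a) := by
    refine S1.ex (A := fun (a : α) (τ : List ℕ) => (∀ i < τ.length, g i = τ.getD i 0) ∧
      D (jl (res X τ.length) τ) a) ?_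
    refine S1.and ?_ ?_
    · refine S1.balllt (A := fun (p : α × List ℕ) (i : ℕ) => g i = p.2.getD i 0) ?_
        (Primrec.list_length.comp Primrec.snd)
      exact hg.comp (Primrec.pair Primrec.snd
        ((Primrec.list_getD 0).comp (Primrec.snd.comp Primrec.fst) Primrec.snd))
    · exact S1.oracle (X := X) (R := fun (l : List ℕ) (p : α × List ℕ) => D (jl l p.2) p.1)
        (hD.comp (primrec_jl.comp Primrec.fst (Primrec.snd.comp Primrec.snd))
          (Primrec.fst.comp Primrec.snd)) (f := fun p : α × List ℕ => p.2.length)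
        (Primrec.list_length.comp Primrec.snd)
  refine h1.of_iff (fun a => ?_)
  rw [hA a]
  constructor
  · rintro ⟨τ, h1, h2⟩
    refine ⟨τ.length, ?_⟩
    have : res g τ.length = τ := by
      apply List.ext_getElem
      · simp
      · intro i h3 h4
        simp [res, h1 i h4, List.getElem?_eq_getElem h4]
    rw [← jl_res, this]
    exact h2
  · rintro ⟨k, hk⟩
    refine ⟨res g k, ?_, ?_⟩
    · intro i hi
      rw [res_length] at hi
      rw [res_getD g hi]
    · rw [res_length, jl_res]
      exact hk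

theorem Pr.join_of_graph {H : Set (ℕ → ℕ)} {X g : ℕ → ℕ} (hP : Pr H X)
    (hg : S1 X (fun p : ℕ × ℕ => g p.1 = p.2)) : Pr H (join X g) :=
  fun h hh A hA htot => hP h hh A (S1.of_join hg hA) htot

/-- The starting point: computable oracles. -/
theorem Pr.zero (H : Set (ℕ → ℕ)) : Pr H (fun _ => 0) := by
  classical
  rintro h - A ⟨D, hD, hA⟩ htot
  let D' : ℕ → ℕ → Prop := fun e t => D (res (fun _ => 0) t.unpair.1) (e, t.unpair.2)
  have hres : Primrec (fun k => res (fun _ => 0) k) :=
    Primrec.list_map Primrec.list_range (Primrec.const 0).to₂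
  have hD' : PrimrecRel D' := by
    have u : Primrec (fun p : ℕ × ℕ => p.2.unpair) := Primrec.unpair.comp Primrec.snd
    exact hD.comp (hres.comp (Primrec.fst.comp u))
      (Primrec.pair Primrec.fst (Primrec.snd.comp u))
  have hex : ∀ e, ∃ t, D' e t := by
    intro e
    obtain ⟨m, -, hm⟩ := htot e
    obtain ⟨k, hk⟩ := (hA _).1 hm
    exact ⟨Nat.pair k m, by simpa [D'] using hk⟩
  have hf : Computable (fun e => (Nat.find (hex e)).unpair.2) :=
    (Primrec.snd.comp Primrec.unpair).to_comp.comp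
      (Computable.find (P := D') (PrimrecPred.computablePred hD') hex)
  obtain ⟨c, hc⟩ := Nat.Partrec.Code.exists_code.1 (Partrec.nat_iff.1 hf.partrec)
  refine ⟨encode c, (Nat.find (hex (encode c))).unpair.2, ?_, ?_⟩
  · unfold Hlt
    rw [Denumerable.ofNat_encode, hc]
    simp
  · exact (hA _).2 ⟨_, Nat.find_spec (hex (encode c))⟩

end Pool.Agent.helper63.Diag
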