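import Pool.Agent.helper63.Diag.S1

/-!
# Compactness of classes of colourings
-/

namespace Pool.Agent.helper63.Diag

open Encodable

/-- The class of colourings of `ℕ` with colours `< n` all of whose initial segments avoid `Bad`. -/
def cls (n : ℕ) (Bad : List ℕ → Prop) : Set (ℕ → ℕ) :=
  {v | (∀ x, v x < n) ∧ ∀ k, ¬ Bad (res v k)}

theorem isClopen_dep (k : ℕ) (P : List ℕ → Prop) : IsClopen {v : ℕ → ℕ | P (res v k)} := by
  let r : (ℕ → ℕ) → (Fin k → ℕ) := fun v i => v i
  have hr : Continuous r := continuous_pi (fun i => continuous_apply (i : ℕ))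
  have hset : {v : ℕ → ℕ | P (res v k)} = r ⁻¹' {u | P (List.ofFn u)} := by
    ext v
    simp only [Set.mem_setOf_eq, Set.mem_preimage]
    have : res v k = List.ofFn (r v) := by
      apply List.ext_getElem
      · simp
      · intro i h1 h2
        simp [res, r]
    rw [this]
  rw [hset]
  exact (isClopen_discrete _).preimage hr

theorem compact_lt (n : ℕ) : IsCompact {v : ℕ → ℕ | ∀ x, v x < n} := by
  have : {v : ℕ → ℕ | ∀ x, v x < n} = Set.pi Set.univ (fun _ => Set.Iio n) := by
    ext v; simp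
  rw [this]
  exact isCompact_univ_pi (fun _ => (Set.finite_Iio n).isCompact)

theorem compactness {n : ℕ} (S : ℕ → Set (ℕ → ℕ)) (hS : ∀ k, IsClosed (S k))
    (hne : ∀ k, ∃ v : ℕ → ℕ, (∀ x, v x < n) ∧ ∀ j ≤ k, v ∈ S j) :
    ∃ v : ℕ → ℕ, (∀ x, v x < n) ∧ ∀ k, v ∈ S k := by
  have hc := compact_lt n
  let K : ℕ → Set (ℕ → ℕ) := fun k => {v | ∀ x, v x < n} ∩ ⋂ j, ⋂ (_ : j ≤ k), S j
  have hK : ∀ k, IsClosed (K k) := fun k =>
    hc.isClosed.inter (isClosed_iInter fun j => isClosed_iInter fun _ => hS j)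
  have h1 : (⋂ k, K k).Nonempty := by
    apply IsCompact.nonempty_iInter_of_sequence_nonempty_isCompact_isClosed K
    · intro k v hv
      refine ⟨hv.1, ?_⟩
      have := hv.2
      simp only [Set.mem_iInter] at this ⊢
      exact fun j hj => this j (by omega)
    · intro k
      obtain ⟨v, hv, hv2⟩ := hne k
      refine ⟨v, hv, ?_⟩
      simp only [Set.mem_iInter]
      exact hv2
    · exact hc.inter_right (isClosed_iInter fun j => isClosed_iInter fun _ => hS j)
    · exact hK
  obtain ⟨v, hv⟩ := h1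
  rw [Set.mem_iInter] at hv
  refine ⟨v, (hv 0).1, fun k => ?_⟩
  have := (hv k).2
  simp only [Set.mem_iInter] at this
  exact this k le_rfl

/-- all strings of length `k` with entries `< n` -/
def strs (n : ℕ) : ℕ → List (List ℕ)
  | 0 => [[]]
  | k + 1 => (strs n k).flatMap (fun ρ => (List.range n).map (fun c => ρ ++ [c]))

theorem mem_strs {n k : ℕ} {ρ : List ℕ} :
    ρ ∈ strs n k ↔ ρ.length = k ∧ ∀ c ∈ ρ, c < n := by
  induction k generalizing ρ with
  | zero =>
    simp only [strs, List.mem_singleton]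
    constructor
    · rintro rfl; simp
    · rintro ⟨h, -⟩; exact List.length_eq_zero_iff.1 h
  | succ k ih =>
    simp only [strs, List.mem_flatMap, List.mem_map, List.mem_range]
    constructor
    · rintro ⟨τ, hτ, c, hc, rfl⟩
      obtain ⟨h1, h2⟩ := ih.1 hτ
      refine ⟨by simp [h1], fun d hd => ?_⟩
      rcases List.mem_append.1 hd with hd | hd
      · exact h2 d hd
      · rw [List.mem_singleton] at hd; omega
    · rintro ⟨h1, h2⟩
      have hne : ρ ≠ [] := by rintro rfl; simp at h1
      refine ⟨ρ.dropLast, ih.2 ⟨by simp [h1], fun c hc => h2 c (List.mem_of_mem_dropLast hc)⟩,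
        ρ.getLast hne, h2 _ (List.getLast_mem hne), List.dropLast_append_getLast hne⟩

theorem primrec_strs (n : ℕ) : Primrec (strs n) := by
  have : Primrec (fun k : ℕ => (Nat.rec [[]] (fun _ IH => IH.flatMap
      (fun ρ => (List.range n).map (fun c => ρ ++ [c]))) k : List (List ℕ))) := by
    refine Primrec.nat_rec₁ _ ?_
    refine Primrec.list_flatMap Primrec.snd ?_
    refine Primrec.list_map (Primrec.const _) ?_
    exact Primrec.list_append.comp (Primrec.snd.comp Primrec.fst)
      (Primrec.list_cons.comp Primrec.snd (Primrec.const []))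
  refine this.of_eq ?_
  intro k
  induction k with
  | zero => rfl
  | succ k ih => simp only [strs, ← ih]

theorem res_mem_strs {n k : ℕ} {v : ℕ → ℕ} (hv : ∀ x, v x < n) : res v k ∈ strs n k := by
  rw [mem_strs]
  refine ⟨res_length v k, fun c hc => ?_⟩
  unfold res at hc
  obtain ⟨x, -, rfl⟩ := List.mem_map.1 hc
  exact hv x

/-- König's lemma. -/
theorem cls_empty_iff {n : ℕ} (Bad : List ℕ → Prop) :
    (∀ v, v ∉ cls n Bad) ↔ ∃ k, ∀ ρ ∈ strs n k, ∃ j < k + 1, Bad (ρ.take j) := by
  constructor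
  · intro hemp
    by_contra hcon
    push Not at hcon
    have hn : 0 < n := by
      by_contra h0
      obtain ⟨ρ, hρ, -⟩ := hcon 1
      obtain ⟨h1, h2⟩ := mem_strs.1 hρ
      obtain ⟨c, hc⟩ := List.exists_mem_of_length_pos (l := ρ) (by omega)
      have := h2 c hc
      omega
    obtain ⟨v, hv, hv2⟩ := compactness (n := n) (fun j => {v | ¬ Bad (res v j)})
      (fun j => (isClopen_dep j (fun l => ¬ Bad l)).isClosed) (fun k => by
        obtain ⟨ρ, hρ, hρ2⟩ := hcon k
        obtain ⟨h1, h2⟩ := mem_strs.1 hρ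
        refine ⟨fun i => ρ.getD i 0, fun x => ?_, fun j hj => ?_⟩
        · by_cases hx : x < ρ.length
          · have : ρ.getD x 0 ∈ ρ := by
              rw [List.getD_eq_getElem?_getD, List.getElem?_eq_getElem hx]
              simp
            exact h2 _ this
          · have : ρ.getD x 0 = 0 := by
              rw [List.getD_eq_getElem?_getD, List.getElem?_eq_none (by omega)]
              rfl
            simp only [this]; exact hn
        · have : res (fun i => ρ.getD i 0) j = ρ.take j := by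
            apply List.ext_getElem
            · simp [h1, hj]
            · intro i h3 h4
              simp only [res_length] at h3
              simp [res, List.getElem?_eq_getElem (show i < ρ.length by omega)]
          show ¬ Bad (res (fun i => ρ.getD i 0) j)
          rw [this]
          exact hρ2 j (by omega))
    exact hemp v ⟨hv, hv2⟩
  · rintro ⟨k, hk⟩ v ⟨hv, hv2⟩
    obtain ⟨j, hj, hb⟩ := hk (res v k) (res_mem_strs hv)
    rw [res_take v (by omega)] at hb
    exact hv2 j hb

/-- Emptiness of a uniformly `Π⁰₁(X)` class is `Σ⁰₁(X)`. -/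
theorem S1.empty {α : Type} [Primcodable α] {X : ℕ → ℕ} {n : ℕ} {Bad : α → List ℕ → Prop}
    (h : S1 X (fun p : α × List ℕ => Bad p.1 p.2)) :
    S1 X (fun a => ∀ v, v ∉ cls n (Bad a)) := by
  have h1 : S1 X (fun a : α => ∃ k : ℕ, ∀ ρ ∈ strs n k, ∃ j : ℕ, j < k + 1 ∧ Bad a (ρ.take j)) := by
    refine S1.ex (A := fun (a : α) (k : ℕ) =>
      ∀ ρ ∈ strs n k, ∃ j : ℕ, j < k + 1 ∧ Bad a (ρ.take j)) ?_
    refine S1.ball (A := fun (p : α × ℕ) (ρ : List ℕ) =>
      ∃ j : ℕ, j < p.2 + 1 ∧ Bad p.1 (ρ.take j)) ?_ ((primrec_strs n).comp Primrec.snd)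
    refine S1.ex (A := fun (p : (α × ℕ) × List ℕ) (j : ℕ) =>
      j < p.1.2 + 1 ∧ Bad p.1.1 (p.2.take j)) ?_
    refine S1.and ?_ ?_
    · exact S1.prim (Primrec.nat_lt.comp Primrec.snd
        (Primrec.succ.comp (Primrec.snd.comp (Primrec.fst.comp Primrec.fst))))
    · exact h.comp (Primrec.pair (Primrec.fst.comp (Primrec.fst.comp Primrec.fst))
        (Primrec.list_take.comp Primrec.snd (Primrec.snd.comp Primrec.fst)))
  refine h1.of_iff (fun a => ?_)
  exact (cls_empty_iff (Bad a)).symm

end Pool.Agent.helper63.Diag
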