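import Pool.Agent.helper63.Diag.Base
import Pool.Agent.helper63.Diag.Compact

/-!
# Forcing conditions

A condition consists of a finite part `σ` of the diagonal function `g`, a finite set of colours
`{0, …, n-1}` with a fixed-point free map `fl`, and a non-empty `Π⁰₁(X)` class of `E`-invariant
colourings, each colour `c` being realised by a fixed element `y c`.  A function `g` satisfies the
condition if some colouring `v` in the class has `v (g i) = fl (v i)` for all `i ≥ |σ|`.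
-/

namespace Pool.Agent.helper63.Diag

open Encodable

structure Cond (X : ℕ → ℕ) (E : ℕ → ℕ → Prop) where
  σ : List ℕ
  n : ℕ
  fl : ℕ → ℕ
  y : ℕ → ℕ
  Bad : List ℕ → Prop
  s1 : S1 X Bad
  hfl : Primrec fl
  fl_lt : ∀ c < n, fl c < n
  fl_ne : ∀ c < n, fl c ≠ c
  inv : ∀ v ∈ cls n Bad, ∀ x z, E x z → v x = v z
  yc : ∀ v ∈ cls n Bad, ∀ c < n, v (y c) = c
  ne : (cls n Bad).Nonempty

variable {X : ℕ → ℕ} {E : ℕ → ℕ → Prop}

/-- `v` is compatible with the finite string `τ` beyond `s`. -/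
def Cpt (fl : ℕ → ℕ) (s : ℕ) (v : ℕ → ℕ) (τ : List ℕ) : Prop :=
  ∀ i, s ≤ i → i < τ.length → v (τ.getD i 0) = fl (v i)

def Sat (p : Cond X E) (g : ℕ → ℕ) : Prop :=
  res g p.σ.length = p.σ ∧ ∃ v ∈ cls p.n p.Bad, ∀ i, p.σ.length ≤ i → v (g i) = p.fl (v i)

/-- The finite string `ρ` (a piece of a colouring) shows incompatibility with `τ`. -/
def Inc (fl : ℕ → ℕ) (s : ℕ) (τ : List ℕ) (ρ : List ℕ) : Prop :=
  ∃ i < τ.length, ((s ≤ i ∧ i < ρ.length) ∧ τ.getD i 0 < ρ.length) ∧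
    ¬ ρ.getD (τ.getD i 0) 0 = fl (ρ.getD i 0)

theorem exists_bound (τ : List ℕ) : ∃ B, τ.length ≤ B ∧ ∀ i < τ.length, τ.getD i 0 < B := by
  induction τ with
  | nil => exact ⟨0, by simp⟩
  | cons a τ ih =>
    obtain ⟨B, h1, h2⟩ := ih
    refine ⟨max (B + 1) (a + 1), ?_, ?_⟩
    · simp only [List.length_cons]; exact le_max_of_le_left (by omega)
    · intro i hi
      cases i with
      | zero =>
        simp only [List.getD_cons_zero]
        exact lt_of_lt_of_le (Nat.lt_succ_self a) (le_max_right _ _)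
      | succ i =>
        simp only [List.getD_cons_succ]
        simp only [List.length_cons] at hi
        exact lt_of_lt_of_le (Nat.lt_succ_of_lt (h2 i (by omega))) (le_max_left _ _)

theorem mem_inc_iff {n : ℕ} {Bad : List ℕ → Prop} {fl : ℕ → ℕ} {s : ℕ} {τ : List ℕ}
    {v : ℕ → ℕ} :
    v ∈ cls n (fun ρ => Bad ρ ∨ Inc fl s τ ρ) ↔ v ∈ cls n Bad ∧ Cpt fl s v τ := by
  constructor
  · rintro ⟨h1, h2⟩
    refine ⟨⟨h1, fun k hk => h2 k (Or.inl hk)⟩, ?_⟩
    intro i hi1 hi2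
    by_contra hcon
    refine h2 (max (i + 1) (τ.getD i 0 + 1)) (Or.inr ⟨i, hi2, ⟨⟨hi1, ?_⟩, ?_⟩, ?_⟩)
    · rw [res_length]; exact lt_of_lt_of_le (Nat.lt_succ_self i) (le_max_left _ _)
    · rw [res_length]; exact lt_of_lt_of_le (Nat.lt_succ_self _) (le_max_right _ _)
    · rw [res_getD v (lt_of_lt_of_le (Nat.lt_succ_self _) (le_max_right _ _)),
        res_getD v (lt_of_lt_of_le (Nat.lt_succ_self i) (le_max_left _ _))]
      exact hcon
  · rintro ⟨⟨h1, h2⟩, h3⟩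
    refine ⟨h1, fun k hk => ?_⟩
    rcases hk with hk | ⟨i, hi, ⟨⟨hi1, hi2⟩, hi3⟩, hi4⟩
    · exact h2 k hk
    · rw [res_length] at hi2 hi3
      rw [res_getD v hi2, res_getD v hi3] at hi4
      exact hi4 (h3 i hi1 hi)

theorem prim_inc {fl : ℕ → ℕ} (hfl : Primrec fl) (s : ℕ) :
    PrimrecRel (fun (τ ρ : List ℕ) => Inc fl s τ ρ) := by
  unfold Inc
  refine PRexlt (R := fun (p : List ℕ × List ℕ) (i : ℕ) =>
    ((s ≤ i ∧ i < p.2.length) ∧ p.1.getD i 0 < p.2.length) ∧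
      ¬ p.2.getD (p.1.getD i 0) 0 = fl (p.2.getD i 0)) ?_ (Primrec.list_length.comp Primrec.fst)
  have hτ : Primrec (fun q : (List ℕ × List ℕ) × ℕ => q.1.1) := Primrec.fst.comp Primrec.fst
  have hρ : Primrec (fun q : (List ℕ × List ℕ) × ℕ => q.1.2) := Primrec.snd.comp Primrec.fst
  have hi : Primrec (fun q : (List ℕ × List ℕ) × ℕ => q.2) := Primrec.snd
  refine PrimrecPred.and (PrimrecPred.and (PrimrecPred.and ?_ ?_) ?_) ?_
  · exact Primrec.nat_le.comp (Primrec.const s) hi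
  · exact Primrec.nat_lt.comp hi (Primrec.list_length.comp hρ)
  · exact Primrec.nat_lt.comp ((Primrec.list_getD 0).comp hτ hi) (Primrec.list_length.comp hρ)
  · exact PrimrecPred.not (Primrec.eq.comp
      ((Primrec.list_getD 0).comp hρ ((Primrec.list_getD 0).comp hτ hi))
      (hfl.comp ((Primrec.list_getD 0).comp hρ hi)))

theorem getD_of_take {σ τ : List ℕ} (h : τ.take σ.length = σ) {i : ℕ} (hi : i < σ.length) :
    σ.getD i 0 = τ.getD i 0 := by
  conv_lhs => rw [← h]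
  rw [List.getD_eq_getElem?_getD, List.getD_eq_getElem?_getD, List.getElem?_take]
  simp [hi]

theorem length_le_of_take {σ τ : List ℕ} (h : τ.take σ.length = σ) : σ.length ≤ τ.length := by
  have := congrArg List.length h
  rw [List.length_take] at this
  omega

theorem res_prefix {g : ℕ → ℕ} {σ τ : List ℕ} (h : τ.take σ.length = σ)
    (hg : res g τ.length = τ) : res g σ.length = σ := by
  rw [← res_take g (length_le_of_take h), hg, h]

/-- Extending a condition by a finite string. -/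
def Cond.extend (p : Cond X E) (τ : List ℕ)
    (hne : ∃ v ∈ cls p.n p.Bad, Cpt p.fl p.σ.length v τ) : Cond X E where
  σ := τ
  n := p.n
  fl := p.fl
  y := p.y
  Bad := fun ρ => p.Bad ρ ∨ Inc p.fl p.σ.length τ ρ
  s1 := p.s1.or (S1.prim ((prim_inc p.hfl p.σ.length).comp (Primrec.const τ) Primrec.id))
  hfl := p.hfl
  fl_lt := p.fl_lt
  fl_ne := p.fl_ne
  inv := fun v hv => p.inv v (mem_inc_iff.1 hv).1
  yc := fun v hv => p.yc v (mem_inc_iff.1 hv).1
  ne := by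
    obtain ⟨v, hv, hv2⟩ := hne
    exact ⟨v, mem_inc_iff.2 ⟨hv, hv2⟩⟩

theorem Sat.of_extend {p : Cond X E} {τ : List ℕ} (hτ : τ.take p.σ.length = p.σ)
    {hne : ∃ v ∈ cls p.n p.Bad, Cpt p.fl p.σ.length v τ} {g : ℕ → ℕ}
    (h : Sat (p.extend τ hne) g) : Sat p g := by
  obtain ⟨h1, v, hv, h2⟩ := h
  change res g τ.length = τ at h1
  obtain ⟨hv1, hv2⟩ := mem_inc_iff.1 hv
  refine ⟨res_prefix hτ h1, v, hv1, fun i hi => ?_⟩
  by_cases hit : i < τ.length
  · have := hv2 i hi hit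
    rwa [← h1, res_getD g hit] at this
  · exact h2 i (not_lt.1 hit)

/-- Every condition is satisfied by some function. -/
theorem Cond.exists_sat (p : Cond X E) : ∃ g, Sat p g := by
  obtain ⟨v, hv⟩ := p.ne
  refine ⟨fun i => if i < p.σ.length then p.σ.getD i 0 else p.y (p.fl (v i)), ?_, v, hv, ?_⟩
  · apply List.ext_getElem
    · simp
    · intro i h1 h2
      simp [res, h2, List.getElem?_eq_getElem h2]
  · intro i hi
    simp only [not_lt.2 hi, if_false]
    exact p.yc v hv _ (p.fl_lt _ (hv.1 i))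

/-- Every condition can be extended to a longer one. -/
theorem Cond.longer (p : Cond X E) : ∃ q : Cond X E, (∀ g, Sat q g → Sat p g) ∧
    q.σ.length = p.σ.length + 1 ∧ q.σ.take p.σ.length = p.σ := by
  obtain ⟨v, hv⟩ := p.ne
  obtain ⟨z, hz⟩ : ∃ z, z = p.y (p.fl (v p.σ.length)) := ⟨_, rfl⟩
  have hcp : ∃ v ∈ cls p.n p.Bad, Cpt p.fl p.σ.length v (p.σ ++ [z]) := by
    refine ⟨v, hv, ?_⟩
    intro i hi1 hi2
    have : i = p.σ.length := by simp at hi2; omega
    subst this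
    have h2 : (p.σ ++ [z]).getD p.σ.length 0 = z := by simp
    rw [h2, hz]
    exact p.yc v hv _ (p.fl_lt _ (hv.1 _))
  have htk : (p.σ ++ [z]).take p.σ.length = p.σ := by simp
  refine ⟨p.extend (p.σ ++ [z]) hcp, fun g hg => Sat.of_extend htk hg, ?_, htk⟩
  show (p.σ ++ [z]).length = _
  simp

/-- `ρ` shows that some computation of `D` with output `a` is compatible. -/
def Qk (X : ℕ → ℕ) (fl : ℕ → ℕ) (σ : List ℕ) (D : List ℕ → ℕ × ℕ → Prop) (a : ℕ × ℕ)
    (ρ : List ℕ) : Prop :=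
  ∃ τ : List ℕ, ((τ.take σ.length = σ ∧ τ.length ≤ ρ.length) ∧
    ∀ i < τ.length, ¬ σ.length ≤ i ∨ (τ.getD i 0 < ρ.length ∧
      ρ.getD (τ.getD i 0) 0 = fl (ρ.getD i 0))) ∧ D (jl (res X τ.length) τ) a

theorem s1_Qk {fl : ℕ → ℕ} (hfl : Primrec fl) (σ : List ℕ) {D : List ℕ → ℕ × ℕ → Prop}
    (hD : PrimrecRel D) :
    S1 X (fun p : (ℕ × ℕ) × List ℕ => Qk X fl σ D p.1 p.2) := by
  unfold Qk
  refine S1.ex (A := fun (p : (ℕ × ℕ) × List ℕ) (τ : List ℕ) =>
    ((τ.take σ.length = σ ∧ τ.length ≤ p.2.length) ∧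
    ∀ i < τ.length, ¬ σ.length ≤ i ∨ (τ.getD i 0 < p.2.length ∧
      p.2.getD (τ.getD i 0) 0 = fl (p.2.getD i 0))) ∧ D (jl (res X τ.length) τ) p.1) ?_
  have hτ : Primrec (fun q : ((ℕ × ℕ) × List ℕ) × List ℕ => q.2) := Primrec.snd
  have hρ : Primrec (fun q : ((ℕ × ℕ) × List ℕ) × List ℕ => q.1.2) :=
    Primrec.snd.comp Primrec.fst
  refine S1.and (S1.prim (PrimrecPred.and (PrimrecPred.and ?_ ?_) ?_)) ?_
  · exact Primrec.eq.comp (Primrec.list_take.comp (Primrec.const _) hτ) (Primrec.const σ)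
  · exact Primrec.nat_le.comp (Primrec.list_length.comp hτ) (Primrec.list_length.comp hρ)
  · refine PRalllt (R := fun (q : ((ℕ × ℕ) × List ℕ) × List ℕ) (i : ℕ) =>
      ¬ σ.length ≤ i ∨ (q.2.getD i 0 < q.1.2.length ∧
      q.1.2.getD (q.2.getD i 0) 0 = fl (q.1.2.getD i 0))) ?_ (Primrec.list_length.comp hτ)
    have hτ' : Primrec (fun q : (((ℕ × ℕ) × List ℕ) × List ℕ) × ℕ => q.1.2) :=
      Primrec.snd.comp Primrec.fst
    have hρ' : Primrec (fun q : (((ℕ × ℕ) × List ℕ) × List ℕ) × ℕ => q.1.1.2) :=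
      Primrec.snd.comp (Primrec.fst.comp Primrec.fst)
    have hi : Primrec (fun q : (((ℕ × ℕ) × List ℕ) × List ℕ) × ℕ => q.2) := Primrec.snd
    refine PrimrecPred.or (PrimrecPred.not ?_) (PrimrecPred.and ?_ ?_)
    · exact Primrec.nat_le.comp (Primrec.const _) hi
    · exact Primrec.nat_lt.comp ((Primrec.list_getD 0).comp hτ' hi)
        (Primrec.list_length.comp hρ')
    · exact Primrec.eq.comp ((Primrec.list_getD 0).comp hρ' ((Primrec.list_getD 0).comp hτ' hi))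
        (hfl.comp ((Primrec.list_getD 0).comp hρ' hi))
  · exact S1.oracle (X := X) (R := fun (l : List ℕ) (q : ((ℕ × ℕ) × List ℕ) × List ℕ) =>
      D (jl l q.2) q.1.1)
      (hD.comp (primrec_jl.comp Primrec.fst (Primrec.snd.comp Primrec.snd))
        (Primrec.fst.comp (Primrec.fst.comp Primrec.snd)))
      (f := fun q : ((ℕ × ℕ) × List ℕ) × List ℕ => q.2.length)
      (Primrec.list_length.comp hτ)

theorem mem_kill_iff {n : ℕ} {Bad : List ℕ → Prop} {fl : ℕ → ℕ} {σ : List ℕ}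
    {D : List ℕ → ℕ × ℕ → Prop} {a : ℕ × ℕ} {v : ℕ → ℕ} :
    v ∈ cls n (fun ρ => Bad ρ ∨ Qk X fl σ D a ρ) ↔
      v ∈ cls n Bad ∧ ∀ τ : List ℕ, τ.take σ.length = σ → Cpt fl σ.length v τ →
        ¬ D (jl (res X τ.length) τ) a := by
  constructor
  · rintro ⟨h1, h2⟩
    refine ⟨⟨h1, fun k hk => h2 k (Or.inl hk)⟩, ?_⟩
    intro τ hτ hc hD
    obtain ⟨B, hB1, hB2⟩ := exists_bound τ
    refine h2 B (Or.inr ⟨τ, ⟨⟨hτ, ?_⟩, fun i hi => ?_⟩, hD⟩)
    · rw [res_length]; exact hB1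
    · by_cases h : σ.length ≤ i
      · right
        rw [res_length, res_getD v (hB2 i hi), res_getD v (lt_of_lt_of_le hi hB1)]
        exact ⟨hB2 i hi, hc i h hi⟩
      · left; exact h
  · rintro ⟨⟨h1, h2⟩, h3⟩
    refine ⟨h1, fun k hk => ?_⟩
    rcases hk with hk | ⟨τ, ⟨⟨hτ, hle⟩, hi⟩, hD⟩
    · exact h2 k hk
    · refine h3 τ hτ ?_ hD
      intro i hi1 hi2
      rw [res_length] at hle
      rcases hi i hi2 with h | ⟨h4, h5⟩
      · exact absurd hi1 h
      · rw [res_length] at h4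
        rwa [res_getD v h4, res_getD v (lt_of_lt_of_le hi2 hle)] at h5

end Pool.Agent.helper63.Diag
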