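import Pool.Agent.helper63.Diag.Step

/-!
# Theorem A: adding one diagonal function
-/

namespace Pool.Agent.helper63.Diag

open Encodable

variable {X : ℕ → ℕ} {E : ℕ → ℕ → Prop}

/-- Requirements: a bound from `H` and a monotone primitive recursive relation. -/
structure Rq (H : Set (ℕ → ℕ)) where
  h : ℕ → ℕ
  hh : h ∈ H
  D : List ℕ → ℕ × ℕ → Prop
  hD : PrimrecRel D
  hm : ∀ (Y : ℕ → ℕ) a k k', k ≤ k' → D (res Y k) a → D (res Y k') a

theorem countable_primrecRel : {D : List ℕ → ℕ × ℕ → Prop | PrimrecRel D}.Countable := by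
  classical
  have key : ∀ D : {D : List ℕ → ℕ × ℕ → Prop // PrimrecRel D}, ∃ c : Nat.Partrec.Code,
      ∀ l a, D.1 l a ↔ 1 ∈ c.eval (encode (l, a)) := by
    rintro ⟨D, hD⟩
    have h1 : Primrec (fun p : List ℕ × (ℕ × ℕ) => decide (D p.1 p.2)) := PrimrecRel.decide hD
    have h2 : Primrec (fun p : List ℕ × (ℕ × ℕ) => (if D p.1 p.2 then 1 else 0 : ℕ)) :=
      Primrec.ite hD (Primrec.const 1) (Primrec.const 0)
    obtain ⟨c, hc⟩ := Nat.Partrec.Code.exists_code.1 (h2.to_comp.partrec)
    refine ⟨c, fun l a => ?_⟩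
    rw [hc]
    simp only [encodek, Part.coe_some, Part.bind_some, PFun.coe_val, Part.map_some,
      Part.mem_some_iff]
    by_cases h : D l a
    · simp [h]
    · simp [h]
  choose f hf using key
  have hinj : Function.Injective f := by
    intro D D' h
    apply Subtype.ext
    funext l a
    apply propext
    rw [hf D l a, h, ← hf D' l a]
  exact hinj.countable

theorem countable_rq {H : Set (ℕ → ℕ)} (hH : H.Countable) : Countable (Rq H) := by
  have h1 : Countable H := hH.to_subtype
  have h2 : Countable {D : List ℕ → ℕ × ℕ → Prop | PrimrecRel D} :=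
    countable_primrecRel.to_subtype
  let f : Rq H → H × {D : List ℕ → ℕ × ℕ → Prop | PrimrecRel D} :=
    fun r => (⟨r.h, r.hh⟩, ⟨r.D, r.hD⟩)
  have hf : Function.Injective f := by
    rintro ⟨h, hh, D, hD, hm⟩ ⟨h', hh', D', hD', hm'⟩ he
    simp only [f, Prod.mk.injEq, Subtype.mk.injEq] at he
    obtain ⟨rfl, rfl⟩ := he
    rfl
  exact hf.countable

/-- monotone version of a relation -/
def mon (D : List ℕ → ℕ × ℕ → Prop) : List ℕ → ℕ × ℕ → Prop :=
  fun l a => ∃ j < l.length + 1, D (l.take j) a

theorem prim_mon {D : List ℕ → ℕ × ℕ → Prop} (hD : PrimrecRel D) : PrimrecRel (mon D) := by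
  have h1 : PrimrecRel (fun (p : List ℕ × (ℕ × ℕ)) (j : ℕ) => D (p.1.take j) p.2) :=
    hD.comp (Primrec.list_take.comp Primrec.snd (Primrec.fst.comp Primrec.fst))
      (Primrec.snd.comp Primrec.fst)
  exact PRexlt h1 (Primrec.succ.comp (Primrec.list_length.comp Primrec.fst))

theorem mon_mono {D : List ℕ → ℕ × ℕ → Prop} (Y : ℕ → ℕ) (a : ℕ × ℕ) (k k' : ℕ) (hk : k ≤ k')
    (h : mon D (res Y k) a) : mon D (res Y k') a := by
  obtain ⟨j, hj, h⟩ := h
  rw [res_length] at hj
  rw [res_take Y (by omega)] at h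
  exact ⟨j, by rw [res_length]; omega, by rwa [res_take Y (by omega)]⟩

theorem ex_mon {D : List ℕ → ℕ × ℕ → Prop} (Y : ℕ → ℕ) (a : ℕ × ℕ) :
    (∃ k, mon D (res Y k) a) ↔ ∃ k, D (res Y k) a := by
  constructor
  · rintro ⟨k, j, hj, h⟩
    rw [res_length] at hj
    rw [res_take Y (by omega)] at h
    exact ⟨j, h⟩
  · rintro ⟨k, hk⟩
    exact ⟨k, k, by rw [res_length]; omega, by rwa [res_take Y le_rfl]⟩

/-- The initial condition. -/
theorem exists_cond0 (hE : Equivalence E) (hce : REPred fun p : ℕ × ℕ => E p.1 p.2) {a b : ℕ}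
    (hab : ¬ E a b) : ∃ p : Cond X E, p.σ = [] := by
  classical
  have hab' : a ≠ b := by rintro rfl; exact hab (hE.refl a)
  let Bad : List ℕ → Prop := fun ρ =>
    ((a < ρ.length ∧ ¬ ρ.getD a 0 = 0) ∨ (b < ρ.length ∧ ¬ ρ.getD b 0 = 1)) ∨
      ∃ q : ℕ × ℕ, ((q.1 < ρ.length ∧ q.2 < ρ.length) ∧ ¬ ρ.getD q.1 0 = ρ.getD q.2 0) ∧
        E q.1 q.2
  have hmem : ∀ v, v ∈ cls 2 Bad → v a = 0 ∧ v b = 1 ∧ ∀ x z, E x z → v x = v z := by
    rintro v ⟨h1, h2⟩
    refine ⟨?_, ?_, fun x z hxz => ?_⟩
    · by_contra hne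
      refine h2 (a + 1) (Or.inl (Or.inl ⟨by rw [res_length]; omega, ?_⟩))
      rwa [res_getD v (Nat.lt_succ_self _)]
    · by_contra hne
      refine h2 (b + 1) (Or.inl (Or.inr ⟨by rw [res_length]; omega, ?_⟩))
      rwa [res_getD v (Nat.lt_succ_self _)]
    · by_contra hne
      have hx : x < max (x + 1) (z + 1) := lt_of_lt_of_le (Nat.lt_succ_self x) (le_max_left _ _)
      have hz : z < max (x + 1) (z + 1) := lt_of_lt_of_le (Nat.lt_succ_self z) (le_max_right _ _)
      refine h2 (max (x + 1) (z + 1)) (Or.inr ⟨(x, z), ⟨⟨?_, ?_⟩, ?_⟩, hxz⟩)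
      · rwa [res_length]
      · rwa [res_length]
      · rwa [res_getD v hx, res_getD v hz]
  refine ⟨{ σ := [], n := 2, fl := fun c => 1 - c, y := fun c => if c = 0 then a else b
            Bad := Bad, s1 := ?_, hfl := ?_, fl_lt := ?_, fl_ne := ?_, inv := ?_, yc := ?_,
            ne := ?_ }, rfl⟩
  · refine S1.or (S1.prim (PrimrecPred.or ?_ ?_)) ?_
    · refine PrimrecPred.and ?_ (PrimrecPred.not ?_)
      · exact Primrec.nat_lt.comp (Primrec.const a) Primrec.list_length
      · exact Primrec.eq.comp ((Primrec.list_getD 0).comp Primrec.id (Primrec.const a))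
          (Primrec.const 0)
    · refine PrimrecPred.and ?_ (PrimrecPred.not ?_)
      · exact Primrec.nat_lt.comp (Primrec.const b) Primrec.list_length
      · exact Primrec.eq.comp ((Primrec.list_getD 0).comp Primrec.id (Primrec.const b))
          (Primrec.const 1)
    · refine S1.ex (A := fun (ρ : List ℕ) (q : ℕ × ℕ) =>
        ((q.1 < ρ.length ∧ q.2 < ρ.length) ∧ ¬ ρ.getD q.1 0 = ρ.getD q.2 0) ∧ E q.1 q.2) ?_
      refine S1.and (S1.prim ?_) ((S1.of_re hce).comp Primrec.snd)
      refine PrimrecPred.and (PrimrecPred.and ?_ ?_) (PrimrecPred.not ?_)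
      · exact Primrec.nat_lt.comp (Primrec.fst.comp Primrec.snd)
          (Primrec.list_length.comp Primrec.fst)
      · exact Primrec.nat_lt.comp (Primrec.snd.comp Primrec.snd)
          (Primrec.list_length.comp Primrec.fst)
      · exact Primrec.eq.comp
          ((Primrec.list_getD 0).comp Primrec.fst (Primrec.fst.comp Primrec.snd))
          ((Primrec.list_getD 0).comp Primrec.fst (Primrec.snd.comp Primrec.snd))
  · exact Primrec.nat_sub.comp (Primrec.const 1) Primrec.id
  · intro c hc; omega
  · intro c hc; omega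
  · intro v hv x z hxz; exact (hmem v hv).2.2 x z hxz
  · intro v hv c hc
    obtain ⟨h1, h2, -⟩ := hmem v hv
    by_cases h : c = 0
    · simp [h, h1]
    · have : c = 1 := by omega
      simp [this, h2]
  · refine ⟨fun x => if E x a then 0 else 1, fun x => ?_, fun k hk => ?_⟩
    · by_cases h : E x a <;> simp [h]
    · rcases hk with (⟨h1, h2⟩ | ⟨h1, h2⟩) | ⟨⟨x, z⟩, ⟨⟨h1, h2⟩, h3⟩, h4⟩
      · rw [res_length] at h1
        rw [res_getD _ h1] at h2
        simp [hE.refl a] at h2
      · rw [res_length] at h1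
        rw [res_getD _ h1] at h2
        have : ¬ E b a := fun h => hab (hE.symm h)
        simp [this] at h2
      · simp only [res_length] at h1 h2
        simp only at h3 h4
        rw [res_getD _ h1, res_getD _ h2] at h3
        apply h3
        have : E x a ↔ E z a := ⟨fun h => hE.trans (hE.symm h4) h, fun h => hE.trans h4 h⟩
        simp only [this]

/-- **Theorem A.**  One diagonal function for `E` can be added keeping the property `Pr`. -/
theorem add_diag {H : Set (ℕ → ℕ)} (hH : H.Countable) (hP : Pr H X) (hE : Equivalence E)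
    (hce : REPred fun p : ℕ × ℕ => E p.1 p.2) (hE1 : ∃ a b, ¬ E a b) :
    ∃ g : ℕ → ℕ, (∀ x, ¬ E (g x) x) ∧ Pr H (join X g) := by
  classical
  by_cases hNo : NoDg X E
  · rcases H.eq_empty_or_nonempty with hemp | ⟨h0, hh0⟩
    · -- no requirements at all
      obtain ⟨a, b, hab⟩ := hE1
      refine ⟨fun x => if E x a then b else a, fun x => ?_, ?_⟩
      · by_cases h : E x a
        · simp only [h, if_true]
          exact fun hb => hab (hE.symm (hE.trans hb h))
        · simp only [h, if_false]
          exact fun hb => h (hE.symm hb)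
      · intro h hh
        rw [hemp] at hh
        exact absurd hh (Set.notMem_empty h)
    have hne : Nonempty (Rq H) := by
      refine ⟨⟨h0, hh0, fun _ _ => False, ?_, fun _ _ _ _ _ h => h⟩⟩
      have : PrimrecPred (fun _ : List ℕ × (ℕ × ℕ) => (0 : ℕ) = 1) :=
        Primrec.eq.comp (Primrec.const 0) (Primrec.const 1)
      exact this.of_eq (fun a => by simp)
    have hcnt := countable_rq hH
    obtain ⟨enum, henum⟩ := exists_surjective_nat (Rq H)
    obtain ⟨a, b, hab⟩ := hE1
    obtain ⟨p0, hp0⟩ := exists_cond0 (X := X) hE hce hab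
    have step : ∀ (m : ℕ) (p : Cond X E), ∃ q : Cond X E, (∀ g, Sat q g → Sat p g) ∧
        (q.σ.take p.σ.length = p.σ ∧ p.σ.length < q.σ.length) ∧
        ∀ g, Sat q g → Req X (enum m).D (enum m).h g := by
      intro m p
      obtain ⟨q, h1, h2, h3⟩ := p.force hP hNo (enum m).hh (enum m).hD (enum m).hm
      obtain ⟨q', h1', h2', h3'⟩ := q.longer
      have hle := length_le_of_take h2
      refine ⟨q', fun g hg => h1 g (h1' g hg), ⟨?_, by omega⟩, fun g hg => h3 g (h1' g hg)⟩
      have : q'.σ.take p.σ.length = (q'.σ.take q.σ.length).take p.σ.length := by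
        rw [List.take_take, Nat.min_eq_left hle]
      rw [this, h3', h2]
    choose nxt hn1 hn2 hn3 using step
    let seq : ℕ → Cond X E := fun m => Nat.rec p0 (fun m s => nxt m s) m
    have hseq : ∀ m, seq (m + 1) = nxt m (seq m) := fun m => rfl
    have hsat : ∀ m k, m ≤ k → ∀ g, Sat (seq k) g → Sat (seq m) g := by
      intro m k h
      induction h with
      | refl => exact fun g hg => hg
      | step h ih => exact fun g hg => ih g (hn1 _ _ g hg)
    have hpre : ∀ m k, m ≤ k → (seq k).σ.take (seq m).σ.length = (seq m).σ := by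
      intro m k h
      induction h with
      | refl => simp
      | step h ih =>
        rename_i k
        have h1 := (hn2 k (seq k)).1
        have h2 := length_le_of_take ih
        rw [hseq]
        have : (nxt k (seq k)).σ.take (seq m).σ.length =
            ((nxt k (seq k)).σ.take (seq k).σ.length).take (seq m).σ.length := by
          rw [List.take_take, Nat.min_eq_left h2]
        rw [this, h1, ih]
    have hlen : ∀ m, m ≤ (seq m).σ.length := by
      intro m
      induction m with
      | zero => omega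
      | succ m ih =>
        have := (hn2 m (seq m)).2
        rw [hseq]
        omega
    let g : ℕ → ℕ := fun i => (seq (i + 1)).σ.getD i 0
    have hg : ∀ m, res g (seq m).σ.length = (seq m).σ := by
      intro m
      apply List.ext_getElem
      · simp
      · intro i h1 h2
        have h3 : (res g (seq m).σ.length).getD i 0 = (seq m).σ.getD i 0 := by
          rw [res_getD g h2]
          show (seq (i + 1)).σ.getD i 0 = _
          rcases le_total (i + 1) m with h | h
          · have := hpre _ _ h
            exact getD_of_take this (hlen (i + 1))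
          · have := hpre _ _ h
            exact (getD_of_take this h2).symm
        rw [List.getD_eq_getElem?_getD, List.getD_eq_getElem?_getD,
          List.getElem?_eq_getElem h1, List.getElem?_eq_getElem h2] at h3
        simpa using h3
    have hgsat : ∀ m, Sat (seq m) g := by
      intro m
      refine ⟨hg m, ?_⟩
      let S : ℕ → Set (ℕ → ℕ) := fun k => {v | (∀ j ≤ k, ¬ (seq m).Bad (res v j)) ∧
        ∀ i < k, (seq m).σ.length ≤ i → v (g i) = (seq m).fl (v i)}
      obtain ⟨v, hv1, hv2⟩ := compactness (n := (seq m).n) S (fun k => by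
        have h1 : S k = (⋂ j, ⋂ (_ : j ≤ k), {v | ¬ (seq m).Bad (res v j)}) ∩
            (⋂ i, ⋂ (_ : i < k), ⋂ (_ : (seq m).σ.length ≤ i),
              {v | v (g i) = (seq m).fl (v i)}) := by
          ext v
          simp only [S, Set.mem_setOf_eq, Set.mem_inter_iff, Set.mem_iInter]
        rw [h1]
        refine IsClosed.inter (isClosed_iInter fun j => isClosed_iInter fun _ =>
          (isClopen_dep j (fun l => ¬ (seq m).Bad l)).isClosed) ?_
        refine isClosed_iInter fun i => isClosed_iInter fun _ => isClosed_iInter fun _ => ?_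
        exact isClosed_eq (continuous_apply _)
          (continuous_of_discreteTopology.comp (continuous_apply _))) (fun k => by
        obtain ⟨g', hg'⟩ := (seq (max m k)).exists_sat
        obtain ⟨h1, v, hv, h2⟩ := hsat m (max m k) (le_max_left _ _) g' hg'
        have h3 := hg'.1
        have h4 : ∀ i < k, g' i = g i := by
          have h5 : res g' (seq (max m k)).σ.length = res g (seq (max m k)).σ.length := by
            rw [h3, hg]
          intro i hi
          refine res_inj h5 i (lt_of_lt_of_le hi ?_)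
          exact (le_max_right m k).trans (hlen _)
        refine ⟨v, hv.1, fun j hj => ⟨fun j' _ => hv.2 j', fun i hi hi2 => ?_⟩⟩
        rw [← h4 i (by omega)]
        exact h2 i hi2)
      refine ⟨v, ⟨hv1, fun k => (hv2 k).1 k le_rfl⟩, fun i hi => (hv2 (i + 1)).2 i (by omega) hi⟩
    refine ⟨g, fun x hx => ?_, ?_⟩
    · obtain ⟨-, v, hv, h2⟩ := hgsat 0
      have h3 : (seq 0).σ = [] := hp0
      have h4 := h2 x (by rw [h3]; simp)
      have h5 := (seq 0).inv v hv _ _ hx
      rw [h4] at h5
      exact (seq 0).fl_ne _ (hv.1 x) h5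
    · rintro h hh A ⟨D, hD, hA⟩ htot
      obtain ⟨m, hm⟩ := henum ⟨h, hh, mon D, prim_mon hD, mon_mono⟩
      have hr := hn3 m (seq m) g (hgsat (m + 1))
      rw [hm] at hr
      have hA' : ∀ a, A a ↔ ∃ k, mon D (res (join X g) k) a := fun a => by rw [hA a, ex_mon]
      obtain ⟨e, m', h1, h2⟩ := hr (fun e => by
        obtain ⟨m', h3, h4⟩ := htot e
        exact ⟨m', h3, (hA' _).1 h4⟩)
      exact ⟨e, m', h1, (hA' _).2 h2⟩
  · -- `E` has a relatively computable diagonal function
    unfold NoDg at hNo
    rw [not_not] at hNo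
    obtain ⟨Dg, h1, h2, h3⟩ := hNo
    obtain ⟨g, hg1, hg2⟩ := S1.unif h1 h2
    exact ⟨g, fun x => h3 x (g x) (hg1 x), hP.join_of_graph hg2⟩

end Pool.Agent.helper63.Diag
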