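import Pool.Agent.helper63.Diag.Compact
import Pool.Agent.helper63.Diag.Base

/-!
# A ceer whose diagonal functions are hard to compute at random: the construction
-/

namespace Pool.Agent.helper63.Diag

open Encodable

/-- `n` has entered the halting problem by stage `s`. -/
def kin (s n : ℕ) : Prop :=
  (Nat.Partrec.Code.evaln s (Denumerable.ofNat Nat.Partrec.Code n) n).isSome = true

instance (s n : ℕ) : Decidable (kin s n) := by unfold kin; infer_instance

theorem prim_kin : PrimrecRel kin := by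
  have h : Primrec (fun p : ℕ × ℕ =>
      (Nat.Partrec.Code.evaln p.1 (Denumerable.ofNat Nat.Partrec.Code p.2) p.2).isSome) :=
    Primrec.option_isSome.comp (Nat.Partrec.Code.primrec_evaln.comp
      (Primrec.pair (Primrec.pair Primrec.fst ((Primrec.ofNat _).comp Primrec.snd)) Primrec.snd))
  exact Primrec.eq.comp h (Primrec.const true)

theorem kin_mono {s s' n : ℕ} (h : s ≤ s') (hk : kin s n) : kin s' n := by
  unfold kin at *
  obtain ⟨v, hv⟩ := Option.isSome_iff_exists.1 hk
  rw [Option.isSome_iff_exists]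
  exact ⟨v, Nat.Partrec.Code.evaln_mono h hv⟩

theorem kin_bound {s n : ℕ} (hk : kin s n) : n < s := by
  unfold kin at hk
  obtain ⟨v, hv⟩ := Option.isSome_iff_exists.1 hk
  exact Nat.Partrec.Code.evaln_bound hv

theorem not_kin_zero (n : ℕ) : ¬ kin 0 n := fun h => absurd (kin_bound h) (by omega)

/-- some number below `n` enters exactly at stage `u` -/
def entr (n u : ℕ) : Prop := ∃ m < n, kin u m ∧ ¬ kin (u - 1) m

instance (n u : ℕ) : Decidable (entr n u) := by unfold entr; infer_instance

theorem prim_entr : PrimrecRel entr := by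
  unfold entr
  refine PRexlt (R := fun (p : ℕ × ℕ) (m : ℕ) => kin p.2 m ∧ ¬ kin (p.2 - 1) m) ?_ Primrec.fst
  refine PrimrecPred.and ?_ (PrimrecPred.not ?_)
  · exact prim_kin.comp (Primrec.snd.comp Primrec.fst) Primrec.snd
  · exact prim_kin.comp (Primrec.nat_sub.comp (Primrec.snd.comp Primrec.fst) (Primrec.const 1))
      Primrec.snd

/-- the current version of the requirement `n` at stage `s` -/
def vers (s n : ℕ) : ℕ := Nat.findGreatest (entr n) s

theorem prim_vers : Primrec₂ vers := by
  have h : Primrec (fun p : ℕ × ℕ => Nat.findGreatest (entr p.2) p.1) := by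
    refine Primrec.nat_findGreatest (f := fun p : ℕ × ℕ => p.1)
      (p := fun p u => entr p.2 u) Primrec.fst ?_
    exact prim_entr.comp (Primrec.snd.comp Primrec.fst) Primrec.snd
  exact h

theorem vers_le (s n : ℕ) : vers s n ≤ s := Nat.findGreatest_le s

theorem vers_eq {s s' n : ℕ} (h : s ≤ s') (hn : ∀ u, s < u → u ≤ s' → ¬ entr n u) :
    vers s' n = vers s n := by
  induction h with
  | refl => rfl
  | step h ih =>
    rename_i k
    rw [← ih (fun u h1 h2 => hn u h1 (by omega))]
    unfold vers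
    rw [Nat.findGreatest_succ, if_neg (hn (k + 1) (Nat.lt_succ_of_le h) le_rfl)]

/-- if the version has not changed, no small number has entered in between -/
theorem vers_le_of_entr {s n u : ℕ} (hu : u ≤ s) (h : entr n u) : u ≤ vers s n :=
  Nat.le_findGreatest hu h

theorem vers_of_le {s s' n : ℕ} (h1 : s' ≤ s) (h2 : vers s n ≤ s') : vers s' n = vers s n := by
  refine (vers_eq h1 (fun u h3 h4 h5 => ?_)).symm
  have := vers_le_of_entr h4 h5
  omega

/-- sizes -/
def Cn : ℕ → ℕ
  | 0 => 2
  | n + 1 => Cn n * (1 + (n + 1) * 2 ^ (n + 1))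

def bn (n : ℕ) : ℕ := (n + 1) * Cn n * 2 ^ (n + 1)

theorem Cn_succ (n : ℕ) : Cn (n + 1) = Cn n + bn n := by
  simp only [Cn, bn]; ring

theorem two_le_Cn (n : ℕ) : 2 ≤ Cn n := by
  induction n with
  | zero => simp [Cn]
  | succ n ih => rw [Cn_succ]; omega

theorem prim_Cn : Primrec Cn := by
  have hpow : Primrec (fun k : ℕ => 2 ^ k) := by
    have : Primrec (fun k : ℕ => (Nat.rec 1 (fun _ IH => IH * 2) k : ℕ)) :=
      Primrec.nat_rec₁ _ (Primrec.nat_mul.comp Primrec.snd (Primrec.const 2))
    refine this.of_eq (fun k => ?_)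
    induction k with
    | zero => rfl
    | succ k ih => rw [pow_succ, ← ih]
  have : Primrec (fun n : ℕ => (Nat.rec 2 (fun n IH => IH * (1 + (n + 1) * 2 ^ (n + 1))) n : ℕ)) := by
    refine Primrec.nat_rec₁ _ ?_
    refine Primrec.nat_mul.comp Primrec.snd ?_
    refine Primrec.nat_add.comp (Primrec.const 1) ?_
    refine Primrec.nat_mul.comp (Primrec.succ.comp Primrec.fst) ?_
    exact hpow.comp (Primrec.succ.comp Primrec.fst)
  refine this.of_eq (fun n => ?_)
  induction n with
  | zero => rfl
  | succ n ih => simp only [Cn, ← ih]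

theorem prim_bn : Primrec bn := by
  have h : Primrec (fun n : ℕ => Cn (n + 1) - Cn n) :=
    Primrec.nat_sub.comp (prim_Cn.comp Primrec.succ) prim_Cn
  refine h.of_eq (fun n => ?_)
  rw [Cn_succ]; omega

/-- the element `r` of version `u` of block `n` -/
def blk (n u r : ℕ) : ℕ := Nat.pair n (Nat.pair u r) + 2

theorem blk_inj {n u r n' u' r' : ℕ} (h : blk n u r = blk n' u' r') :
    n = n' ∧ u = u' ∧ r = r' := by
  unfold blk at h
  have h1 := Nat.pair_eq_pair.1 (Nat.add_right_cancel h)
  have h2 := Nat.pair_eq_pair.1 h1.2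
  exact ⟨h1.1, h2.1, h2.2⟩

theorem le_blk (n u r : ℕ) : u ≤ blk n u r := by
  unfold blk
  have h1 := Nat.left_le_pair u r
  have h2 := Nat.right_le_pair n (Nat.pair u r)
  omega

theorem prim_blk : Primrec (fun p : ℕ × ℕ × ℕ => blk p.1 p.2.1 p.2.2) := by
  unfold blk
  refine Primrec.nat_add.comp (Primrec₂.natPair.comp Primrec.fst ?_) (Primrec.const 2)
  exact Primrec₂.natPair.comp (Primrec.fst.comp Primrec.snd) (Primrec.snd.comp Primrec.snd)

/-- the current block of `n` -/
def blkL (s n : ℕ) : List ℕ := (List.range (bn n)).map (fun r => blk n (vers s n) r)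

/-- the current blocks of the requirements below `n`, and the two special elements -/
def prot (s n : ℕ) : List ℕ := [0, 1] ++ (List.range n).flatMap (fun m => blkL s m)

theorem prim_blkL : Primrec₂ blkL := by
  have h : Primrec (fun p : ℕ × ℕ => (List.range (bn p.2)).map
      (fun r => blk p.2 (vers p.1 p.2) r)) := by
    refine Primrec.list_map (Primrec.list_range.comp (prim_bn.comp Primrec.snd)) ?_
    exact prim_blk.comp (Primrec.pair (Primrec.snd.comp Primrec.fst)
      (Primrec.pair (prim_vers.comp (Primrec.fst.comp Primrec.fst) (Primrec.snd.comp Primrec.fst))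
        Primrec.snd))
  exact h

theorem prim_prot : Primrec₂ prot := by
  have h : Primrec (fun p : ℕ × ℕ => [0, 1] ++ (List.range p.2).flatMap
      (fun m => blkL p.1 m)) := by
    refine Primrec.list_append.comp (Primrec.const _) ?_
    refine Primrec.list_flatMap (Primrec.list_range.comp Primrec.snd) ?_
    exact prim_blkL.comp (Primrec.fst.comp Primrec.fst) Primrec.snd
  exact h

theorem prot_succ (s n : ℕ) : prot s (n + 1) = prot s n ++ blkL s n := by
  unfold prot
  rw [List.range_succ, List.flatMap_append]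
  simp

theorem blkL_length (s n : ℕ) : (blkL s n).length = bn n := by simp [blkL]

theorem prot_length (s n : ℕ) : (prot s n).length = Cn n := by
  induction n with
  | zero => rfl
  | succ n ih => rw [prot_succ, List.length_append, ih, blkL_length, Cn_succ]

theorem blkL_nodup (s n : ℕ) : (blkL s n).Nodup := by
  unfold blkL
  refine List.Nodup.map ?_ List.nodup_range
  intro r r' h
  exact (blk_inj h).2.2

theorem mem_blkL {s n x : ℕ} : x ∈ blkL s n ↔ ∃ r < bn n, blk n (vers s n) r = x := by
  simp [blkL]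

theorem mem_prot {s n x : ℕ} : x ∈ prot s n ↔ x = 0 ∨ x = 1 ∨ ∃ m < n, x ∈ blkL s m := by
  simp only [prot, List.mem_append, List.mem_cons, List.not_mem_nil, or_false, List.mem_flatMap,
    List.mem_range, or_assoc]

/-- following the list of merges -/
def rt (M : List (ℕ × ℕ)) (x : ℕ) : ℕ := M.foldl (fun y p => if y = p.1 then p.2 else y) x

theorem rt_nil (x : ℕ) : rt [] x = x := rfl

theorem rt_append (M M' : List (ℕ × ℕ)) (x : ℕ) : rt (M ++ M') x = rt M' (rt M x) := by
  unfold rt; rw [List.foldl_append]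

theorem rt_cons (p : ℕ × ℕ) (M : List (ℕ × ℕ)) (x : ℕ) :
    rt (p :: M) x = rt M (if x = p.1 then p.2 else x) := rfl

theorem prim_rt : Primrec₂ rt := by
  have h : Primrec (fun q : List (ℕ × ℕ) × ℕ =>
      q.1.foldl (fun y p => if y = p.1 then p.2 else y) q.2) := by
    refine Primrec.list_foldl Primrec.fst Primrec.snd
      (h := fun (_ : List (ℕ × ℕ) × ℕ) (z : ℕ × (ℕ × ℕ)) => if z.1 = z.2.1 then z.2.2 else z.1) ?_
    refine Primrec.ite ?_ ?_ ?_
    · exact Primrec.eq.comp (Primrec.fst.comp Primrec.snd)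
        (Primrec.fst.comp (Primrec.snd.comp Primrec.snd))
    · exact Primrec.snd.comp (Primrec.snd.comp Primrec.snd)
    · exact Primrec.fst.comp Primrec.snd
  exact h

theorem rt_of_notMem {M : List (ℕ × ℕ)} {x : ℕ} (h : ∀ p ∈ M, p.1 ≠ x) : rt M x = x := by
  induction M with
  | nil => rfl
  | cons p M ih =>
    rw [rt_cons, if_neg (fun h' => h p List.mem_cons_self h'.symm)]
    exact ih (fun q hq => h q (List.mem_cons_of_mem _ hq))

theorem rt_le {M : List (ℕ × ℕ)} {s : ℕ} (h : ∀ p ∈ M, p.2 ≤ s) {x : ℕ} (hx : x ≤ s) :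
    rt M x ≤ s := by
  induction M generalizing x with
  | nil => exact hx
  | cons p M ih =>
    rw [rt_cons]
    apply ih (fun q hq => h q (List.mem_cons_of_mem _ hq))
    split_ifs
    · exact h p List.mem_cons_self
    · exact hx

/-- the merges of unprotected elements into `0` -/
def junk (s n : ℕ) : List (ℕ × ℕ) :=
  ((List.range (s + 1)).filter (fun y => decide (¬ y ∈ prot s (n + 1)))).map (fun y => (y, 0))

theorem prim_junk : Primrec₂ junk := by
  have hmem : PrimrecRel (fun (y : ℕ) (p : ℕ × ℕ) => ¬ y ∈ prot p.1 (p.2 + 1)) := by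
    refine PrimrecPred.not ?_
    have h1 : PrimrecRel (fun (q : ℕ × (ℕ × ℕ)) (z : ℕ) => z = q.1) :=
      Primrec.eq.comp Primrec.snd (Primrec.fst.comp Primrec.fst)
    have h2 : Primrec (fun q : ℕ × (ℕ × ℕ) => prot q.2.1 (q.2.2 + 1)) :=
      prim_prot.comp (Primrec.fst.comp Primrec.snd)
        (Primrec.succ.comp (Primrec.snd.comp Primrec.snd))
    refine (PRex h1 h2).of_eq (fun q => ?_)
    simp
  have h : Primrec (fun p : ℕ × ℕ => ((List.range (p.1 + 1)).filter
      (fun y => decide (¬ y ∈ prot p.1 (p.2 + 1)))).map (fun y => (y, 0))) := by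
    refine Primrec.list_map ?_ (Primrec.pair Primrec.snd (Primrec.const 0))
    have := PrimrecRel.listFilter (R := fun (y : ℕ) (p : ℕ × ℕ) => ¬ y ∈ prot p.1 (p.2 + 1)) hmem
    exact this.comp (Primrec.list_range.comp (Primrec.succ.comp Primrec.fst)) Primrec.id
  exact h

theorem mem_junk {s n : ℕ} {p : ℕ × ℕ} :
    p ∈ junk s n ↔ (p.1 ≤ s ∧ p.1 ∉ prot s (n + 1)) ∧ p.2 = 0 := by
  unfold junk
  rw [List.mem_map]
  constructor
  · rintro ⟨y, hy, rfl⟩
    rw [List.mem_filter, List.mem_range] at hy
    exact ⟨⟨by omega, by simpa using hy.2⟩, rfl⟩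
  · rintro ⟨⟨h1, h2⟩, h3⟩
    refine ⟨p.1, ?_, by rw [← h3]⟩
    rw [List.mem_filter, List.mem_range]
    exact ⟨by omega, by simpa using h2⟩

theorem rt_junk {s n z : ℕ} (hz : z ≤ s) : rt (junk s n) z ∈ prot s (n + 1) := by
  by_cases h : z ∈ prot s (n + 1)
  · rw [rt_of_notMem (fun p hp h' => (mem_junk.1 hp).1.2 (h' ▸ h))]
    exact h
  · have key : ∀ M : List (ℕ × ℕ), (∀ p ∈ M, p.2 = 0 ∧ p.1 ≠ 0) → (z, 0) ∈ M → rt M z = 0 := by
      intro M
      induction M with
      | nil => intro _ h; simp at h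
      | cons p M ih =>
        intro h1 h2
        rw [rt_cons]
        by_cases hp : z = p.1
        · rw [if_pos hp, (h1 p List.mem_cons_self).1]
          exact rt_of_notMem (fun q hq => (h1 q (List.mem_cons_of_mem _ hq)).2)
        · rw [if_neg hp]
          refine ih (fun q hq => h1 q (List.mem_cons_of_mem _ hq)) ?_
          rcases List.mem_cons.1 h2 with h3 | h3
          · exact absurd (by rw [← h3]) hp
          · exact h3
    rw [key _ (fun p hp => ?_) (mem_junk.2 ⟨⟨hz, h⟩, rfl⟩)]
    · exact mem_prot.2 (Or.inl rfl)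
    · refine ⟨(mem_junk.1 hp).2, fun h0 => (mem_junk.1 hp).1.2 ?_⟩
      rw [h0]; exact mem_prot.2 (Or.inl rfl)

end Pool.Agent.helper63.Diag
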