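import Pool.Agent.helper63.Diag.Rand1

/-!
# The action of one requirement
-/

namespace Pool.Agent.helper63.Diag

open Encodable

/-- the `e`-th functional with oracle `σ` gives value `y` at `x`, seen by stage `s` -/
def qv (s e : ℕ) (σ : List ℕ) (x y : ℕ) : Prop :=
  ∃ k < s + 1, Nat.Partrec.Code.evaln s (Denumerable.ofNat Nat.Partrec.Code e)
    (encode (σ.take k, (x, y))) = some 1

theorem prim_qv : PrimrecPred (fun q : (ℕ × (ℕ × List ℕ)) × (ℕ × ℕ) =>
    qv q.1.1 q.1.2.1 q.1.2.2 q.2.1 q.2.2) := by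
  unfold qv
  refine PRexlt (R := fun (q : (ℕ × (ℕ × List ℕ)) × (ℕ × ℕ)) (k : ℕ) =>
    Nat.Partrec.Code.evaln q.1.1 (Denumerable.ofNat Nat.Partrec.Code q.1.2.1)
    (encode (q.1.2.2.take k, (q.2.1, q.2.2))) = some 1) ?_
    (Primrec.succ.comp (Primrec.fst.comp Primrec.fst))
  have hq : Primrec (fun z : ((ℕ × (ℕ × List ℕ)) × (ℕ × ℕ)) × ℕ => z.1) := Primrec.fst
  have hs : Primrec (fun z : ((ℕ × (ℕ × List ℕ)) × (ℕ × ℕ)) × ℕ => z.1.1.1) :=
    Primrec.fst.comp (Primrec.fst.comp hq)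
  have he : Primrec (fun z : ((ℕ × (ℕ × List ℕ)) × (ℕ × ℕ)) × ℕ => z.1.1.2.1) :=
    Primrec.fst.comp (Primrec.snd.comp (Primrec.fst.comp hq))
  have hσ : Primrec (fun z : ((ℕ × (ℕ × List ℕ)) × (ℕ × ℕ)) × ℕ => z.1.1.2.2) :=
    Primrec.snd.comp (Primrec.snd.comp (Primrec.fst.comp hq))
  have hxy : Primrec (fun z : ((ℕ × (ℕ × List ℕ)) × (ℕ × ℕ)) × ℕ => z.1.2) :=
    Primrec.snd.comp hq
  have h1 : Primrec (fun z : ((ℕ × (ℕ × List ℕ)) × (ℕ × ℕ)) × ℕ =>
      Nat.Partrec.Code.evaln z.1.1.1 (Denumerable.ofNat Nat.Partrec.Code z.1.1.2.1)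
        (encode (z.1.1.2.2.take z.2, (z.1.2.1, z.1.2.2)))) := by
    refine Nat.Partrec.Code.primrec_evaln.comp (Primrec.pair (Primrec.pair hs
      ((Primrec.ofNat _).comp he)) (Primrec.encode.comp (Primrec.pair ?_ ?_)))
    · exact Primrec.list_take.comp Primrec.snd hσ
    · exact Primrec.pair (Primrec.fst.comp hxy) (Primrec.snd.comp hxy)
  exact Primrec.eq.comp h1 (Primrec.const (some 1))

instance (s e : ℕ) (σ : List ℕ) (x y : ℕ) : Decidable (qv s e σ x y) := by
  unfold qv; infer_instance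

/-- the value of the functional `a.1` with oracle `a.2` at `x` by stage `s` (or `0`) -/
def vl (s : ℕ) (a : ℕ × List ℕ) (x : ℕ) : ℕ :=
  ((List.range s).filter (fun y => decide (qv s a.1 a.2 x y))).headI

/-- convergence on a list of arguments -/
def cv (s : ℕ) (a : ℕ × List ℕ) (L : List ℕ) : Prop := ∀ x ∈ L, ∃ y < s, qv s a.1 a.2 x y

instance (s : ℕ) (a : ℕ × List ℕ) (L : List ℕ) : Decidable (cv s a L) := by
  unfold cv; infer_instance

theorem prim_cv : PrimrecPred (fun q : (ℕ × (ℕ × List ℕ)) × List ℕ => cv q.1.1 q.1.2 q.2) := by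
  unfold cv
  refine PRall (R := fun (q : (ℕ × (ℕ × List ℕ)) × List ℕ) (x : ℕ) =>
    ∃ y < q.1.1, qv q.1.1 q.1.2.1 q.1.2.2 x y) ?_ Primrec.snd
  refine PRexlt (R := fun (z : ((ℕ × (ℕ × List ℕ)) × List ℕ) × ℕ) (y : ℕ) =>
    qv z.1.1.1 z.1.1.2.1 z.1.1.2.2 z.2 y) ?_
    (Primrec.fst.comp (Primrec.fst.comp Primrec.fst))
  exact prim_qv.comp (f := fun w : (((ℕ × (ℕ × List ℕ)) × List ℕ) × ℕ) × ℕ =>
    (w.1.1.1, (w.1.2, w.2))) (Primrec.pair (Primrec.fst.comp (Primrec.fst.comp Primrec.fst))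
      (Primrec.pair (Primrec.snd.comp Primrec.fst) Primrec.snd))

theorem prim_vl : Primrec (fun q : (ℕ × (ℕ × List ℕ)) × ℕ => vl q.1.1 q.1.2 q.2) := by
  unfold vl
  refine Primrec.list_headI.comp ?_
  have hR : PrimrecRel (fun (y : ℕ) (q : (ℕ × (ℕ × List ℕ)) × ℕ) =>
      qv q.1.1 q.1.2.1 q.1.2.2 q.2 y) :=
    prim_qv.comp (f := fun w : ℕ × ((ℕ × (ℕ × List ℕ)) × ℕ) => (w.2.1, (w.2.2, w.1)))
      (Primrec.pair (Primrec.fst.comp Primrec.snd)
        (Primrec.pair (Primrec.snd.comp Primrec.snd) Primrec.fst))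
  exact (PrimrecRel.listFilter hR).comp
    (Primrec.list_range.comp (Primrec.fst.comp Primrec.fst)) Primrec.id

theorem vl_spec {s : ℕ} {a : ℕ × List ℕ} {x : ℕ} (h : ∃ y < s, qv s a.1 a.2 x y) :
    vl s a x < s ∧ qv s a.1 a.2 x (vl s a x) := by
  obtain ⟨y, hy, hq⟩ := h
  have hne : (List.range s).filter (fun y => decide (qv s a.1 a.2 x y)) ≠ [] := by
    intro h0
    have : y ∈ (List.range s).filter (fun y => decide (qv s a.1 a.2 x y)) := by
      rw [List.mem_filter, List.mem_range]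
      exact ⟨hy, by simpa using hq⟩
    rw [h0] at this
    simp at this
  have hmem : vl s a x ∈ (List.range s).filter (fun y => decide (qv s a.1 a.2 x y)) := by
    unfold vl
    cases hL : (List.range s).filter (fun y => decide (qv s a.1 a.2 x y)) with
    | nil => exact absurd hL hne
    | cons b l => simp
  rw [List.mem_filter, List.mem_range] at hmem
  exact ⟨hmem.1, by simpa using hmem.2⟩

/-- the initial population -/
def pop0 (s n : ℕ) : List (ℕ × List ℕ) :=
  ((List.range (n + 1)).flatMap (fun e => (strs 2 s).map (fun σ => (e, σ)))).filter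
    (fun a => decide (cv s a (blkL s n)))

theorem mem_pop0 {s n : ℕ} {a : ℕ × List ℕ} :
    a ∈ pop0 s n ↔ (a.1 ≤ n ∧ a.2 ∈ strs 2 s) ∧ cv s a (blkL s n) := by
  unfold pop0
  rw [List.mem_filter, List.mem_flatMap]
  constructor
  · rintro ⟨⟨e, he, h⟩, h2⟩
    obtain ⟨σ, hσ, rfl⟩ := List.mem_map.1 h
    rw [List.mem_range] at he
    exact ⟨⟨by show e ≤ n; omega, hσ⟩, by simpa using h2⟩
  · rintro ⟨⟨h1, h2⟩, h3⟩
    exact ⟨⟨a.1, List.mem_range.2 (by omega), List.mem_map.2 ⟨a.2, h2, rfl⟩⟩, by simpa using h3⟩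

theorem strs_length (s : ℕ) : (strs 2 s).length = 2 ^ s := by
  induction s with
  | zero => rfl
  | succ s ih =>
    simp only [strs, List.length_flatMap, List.length_map, List.length_range]
    rw [List.map_const', List.sum_replicate, ih, pow_succ]
    simp

theorem pop0_length (s n : ℕ) : (pop0 s n).length ≤ (n + 1) * 2 ^ s := by
  unfold pop0
  refine (List.length_filter_le _ _).trans ?_
  rw [List.length_flatMap]
  simp only [List.length_map, strs_length]
  rw [List.map_const', List.sum_replicate, List.length_range]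
  simp

theorem prim_pop0 : Primrec₂ pop0 := by
  have hR : PrimrecRel (fun (a : ℕ × List ℕ) (p : ℕ × ℕ) => cv p.1 a (blkL p.1 p.2)) :=
    prim_cv.comp (f := fun w : (ℕ × List ℕ) × (ℕ × ℕ) => ((w.2.1, w.1), blkL w.2.1 w.2.2))
      (Primrec.pair (Primrec.pair (Primrec.fst.comp Primrec.snd) Primrec.fst)
        (prim_blkL.comp (Primrec.fst.comp Primrec.snd) (Primrec.snd.comp Primrec.snd)))
  have h1 : Primrec (fun p : ℕ × ℕ => (List.range (p.2 + 1)).flatMap
      (fun e => (strs 2 p.1).map (fun σ => (e, σ)))) := by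
    refine Primrec.list_flatMap (Primrec.list_range.comp (Primrec.succ.comp Primrec.snd)) ?_
    refine Primrec.list_map ((primrec_strs 2).comp (Primrec.fst.comp Primrec.fst)) ?_
    exact Primrec.pair (Primrec.snd.comp Primrec.fst) Primrec.snd
  exact (PrimrecRel.listFilter hR).comp h1 Primrec.id

/-- candidates for the class of the `r`-th element -/
def cands (s n r : ℕ) : List ℕ := prot s n ++ (blkL s n).drop (r + 1)

/-- the `r`-th element -/
def xel (s n r : ℕ) : ℕ := blk n (vers s n) r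

/-- those members whose value is not already equivalent to the `r`-th element -/
def A' (s n r : ℕ) (MA : List (ℕ × ℕ) × List (ℕ × List ℕ)) : List (ℕ × List ℕ) :=
  MA.2.filter (fun a => decide (¬ rt MA.1 (vl s a (xel s n r)) = xel s n r))

/-- those members whose value is equivalent to `z` -/
def Az (s n r : ℕ) (MA : List (ℕ × ℕ) × List (ℕ × List ℕ)) (z : ℕ) : List (ℕ × List ℕ) :=
  MA.2.filter (fun a => decide (rt MA.1 (vl s a (xel s n r)) = z))

/-- the most popular candidate -/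
def zel (s n r : ℕ) (MA : List (ℕ × ℕ) × List (ℕ × List ℕ)) : ℕ :=
  ((cands s n r).filter (fun z => decide ((A' s n r MA).length ≤
    (Az s n r MA z).length * (cands s n r).length))).headI

/-- one step of the action -/
def stp (s n r : ℕ) (MA : List (ℕ × ℕ) × List (ℕ × List ℕ)) :
    List (ℕ × ℕ) × List (ℕ × List ℕ) :=
  (MA.1 ++ [(xel s n r, zel s n r MA)],
    (A' s n r MA).filter (fun a => decide (¬ rt MA.1 (vl s a (xel s n r)) = zel s n r MA)))

/-- the state during the action -/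
def actr (s n : ℕ) (M : List (ℕ × ℕ)) : ℕ → List (ℕ × ℕ) × List (ℕ × List ℕ)
  | 0 => (M ++ junk s n, pop0 s n)
  | r + 1 => stp s n r (actr s n M r)

theorem prim_cands : Primrec (fun p : (ℕ × ℕ) × ℕ => cands p.1.1 p.1.2 p.2) := by
  unfold cands
  refine Primrec.list_append.comp (prim_prot.comp (Primrec.fst.comp Primrec.fst)
    (Primrec.snd.comp Primrec.fst)) ?_
  exact Primrec.list_drop.comp (Primrec.succ.comp Primrec.snd)
    (prim_blkL.comp (Primrec.fst.comp Primrec.fst) (Primrec.snd.comp Primrec.fst))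

theorem prim_xel : Primrec (fun p : (ℕ × ℕ) × ℕ => xel p.1.1 p.1.2 p.2) := by
  unfold xel
  exact prim_blk.comp (Primrec.pair (Primrec.snd.comp Primrec.fst)
    (Primrec.pair (prim_vers.comp (Primrec.fst.comp Primrec.fst) (Primrec.snd.comp Primrec.fst))
      Primrec.snd))

abbrev Par := ((ℕ × ℕ) × ℕ) × (List (ℕ × ℕ) × List (ℕ × List ℕ))

/-- auxiliary: the root of the value -/
theorem prim_root : Primrec (fun w : Par × (ℕ × List ℕ) =>
    rt w.1.2.1 (vl w.1.1.1.1 w.2 (xel w.1.1.1.1 w.1.1.1.2 w.1.1.2))) := by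
  refine prim_rt.comp (Primrec.fst.comp (Primrec.snd.comp Primrec.fst)) ?_
  refine prim_vl.comp (Primrec.pair (Primrec.pair ?_ Primrec.snd) ?_)
  · exact Primrec.fst.comp (Primrec.fst.comp (Primrec.fst.comp Primrec.fst))
  · exact prim_xel.comp (Primrec.fst.comp Primrec.fst)

theorem prim_A' : Primrec (fun w : Par => A' w.1.1.1 w.1.1.2 w.1.2 w.2) := by
  unfold A'
  have hR : PrimrecRel (fun (a : ℕ × List ℕ) (w : Par) =>
      ¬ rt w.2.1 (vl w.1.1.1 a (xel w.1.1.1 w.1.1.2 w.1.2)) = xel w.1.1.1 w.1.1.2 w.1.2) := by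
    refine PrimrecPred.not (Primrec.eq.comp ?_ ?_)
    · exact prim_root.comp (Primrec.pair Primrec.snd Primrec.fst)
    · exact prim_xel.comp (Primrec.fst.comp Primrec.snd)
  exact (PrimrecRel.listFilter hR).comp (Primrec.snd.comp Primrec.snd) Primrec.id

theorem prim_Az : Primrec (fun w : Par × ℕ => Az w.1.1.1.1 w.1.1.1.2 w.1.1.2 w.1.2 w.2) := by
  unfold Az
  have hR : PrimrecRel (fun (a : ℕ × List ℕ) (w : Par × ℕ) =>
      rt w.1.2.1 (vl w.1.1.1.1 a (xel w.1.1.1.1 w.1.1.1.2 w.1.1.2)) = w.2) := by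
    refine Primrec.eq.comp ?_ ?_
    · exact prim_root.comp (Primrec.pair (Primrec.fst.comp Primrec.snd) Primrec.fst)
    · exact Primrec.snd.comp Primrec.snd
  exact (PrimrecRel.listFilter hR).comp (Primrec.snd.comp (Primrec.snd.comp Primrec.fst))
    Primrec.id

theorem prim_zel : Primrec (fun w : Par => zel w.1.1.1 w.1.1.2 w.1.2 w.2) := by
  unfold zel
  refine Primrec.list_headI.comp ?_
  have hR : PrimrecRel (fun (z : ℕ) (w : Par) => (A' w.1.1.1 w.1.1.2 w.1.2 w.2).length ≤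
      (Az w.1.1.1 w.1.1.2 w.1.2 w.2 z).length * (cands w.1.1.1 w.1.1.2 w.1.2).length) := by
    refine Primrec.nat_le.comp ?_ (Primrec.nat_mul.comp ?_ ?_)
    · exact Primrec.list_length.comp (prim_A'.comp Primrec.snd)
    · exact Primrec.list_length.comp (prim_Az.comp (Primrec.pair Primrec.snd Primrec.fst))
    · exact Primrec.list_length.comp (prim_cands.comp (Primrec.fst.comp Primrec.snd))
  exact (PrimrecRel.listFilter hR).comp (prim_cands.comp Primrec.fst) Primrec.id

theorem prim_stp : Primrec (fun w : Par => stp w.1.1.1 w.1.1.2 w.1.2 w.2) := by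
  unfold stp
  refine Primrec.pair ?_ ?_
  · refine Primrec.list_append.comp (Primrec.fst.comp Primrec.snd) ?_
    exact Primrec.list_cons.comp (Primrec.pair (prim_xel.comp Primrec.fst) prim_zel)
      (Primrec.const [])
  · have hR : PrimrecRel (fun (a : ℕ × List ℕ) (w : Par) =>
        ¬ rt w.2.1 (vl w.1.1.1 a (xel w.1.1.1 w.1.1.2 w.1.2)) =
          zel w.1.1.1 w.1.1.2 w.1.2 w.2) := by
      refine PrimrecPred.not (Primrec.eq.comp ?_ ?_)
      · exact prim_root.comp (Primrec.pair Primrec.snd Primrec.fst)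
      · exact prim_zel.comp Primrec.snd
    exact (PrimrecRel.listFilter hR).comp prim_A' Primrec.id

theorem prim_actr : Primrec (fun w : ((ℕ × ℕ) × List (ℕ × ℕ)) × ℕ =>
    actr w.1.1.1 w.1.1.2 w.1.2 w.2) := by
  have h : Primrec (fun w : ((ℕ × ℕ) × List (ℕ × ℕ)) × ℕ =>
      (Nat.rec (w.1.2 ++ junk w.1.1.1 w.1.1.2, pop0 w.1.1.1 w.1.1.2)
        (fun r IH => stp w.1.1.1 w.1.1.2 r IH) w.2 :
          List (ℕ × ℕ) × List (ℕ × List ℕ))) := by
    refine Primrec.nat_rec' (f := fun w : ((ℕ × ℕ) × List (ℕ × ℕ)) × ℕ => w.2)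
      (g := fun w : ((ℕ × ℕ) × List (ℕ × ℕ)) × ℕ =>
        (w.1.2 ++ junk w.1.1.1 w.1.1.2, pop0 w.1.1.1 w.1.1.2))
      (h := fun (w : ((ℕ × ℕ) × List (ℕ × ℕ)) × ℕ)
        (z : ℕ × (List (ℕ × ℕ) × List (ℕ × List ℕ))) => stp w.1.1.1 w.1.1.2 z.1 z.2)
      Primrec.snd ?_ ?_
    · have h1 : Primrec (fun w : ((ℕ × ℕ) × List (ℕ × ℕ)) × ℕ => w.1.1.1) :=
        Primrec.fst.comp (Primrec.fst.comp Primrec.fst)
      have h2 : Primrec (fun w : ((ℕ × ℕ) × List (ℕ × ℕ)) × ℕ => w.1.1.2) :=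
        Primrec.snd.comp (Primrec.fst.comp Primrec.fst)
      exact Primrec.pair (Primrec.list_append.comp (Primrec.snd.comp Primrec.fst)
        (prim_junk.comp h1 h2)) (prim_pop0.comp h1 h2)
    · exact prim_stp.comp (Primrec.pair (Primrec.pair
        (Primrec.fst.comp (Primrec.fst.comp Primrec.fst)) (Primrec.fst.comp Primrec.snd))
        (Primrec.snd.comp Primrec.snd))
  refine h.of_eq ?_
  rintro ⟨⟨⟨s, n⟩, M⟩, r⟩
  show (Nat.rec _ _ r : List (ℕ × ℕ) × List (ℕ × List ℕ)) = actr s n M r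
  induction r with
  | zero => rfl
  | succ r ih => simp only [actr, ← ih]

/-- the requirement that enters at stage `s + 1` -/
def nent (s : ℕ) : List ℕ :=
  (List.range (s + 1)).filter (fun n => decide (kin (s + 1) n ∧ ¬ kin s n))

theorem prim_nent : Primrec nent := by
  unfold nent
  have hR : PrimrecRel (fun (n s : ℕ) => kin (s + 1) n ∧ ¬ kin s n) := by
    refine PrimrecPred.and ?_ (PrimrecPred.not ?_)
    · exact prim_kin.comp (Primrec.succ.comp Primrec.snd) Primrec.fst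
    · exact prim_kin.comp Primrec.snd Primrec.fst
  exact (PrimrecRel.listFilter hR).comp (Primrec.list_range.comp Primrec.succ) Primrec.id

/-- the list of merges after `s` stages -/
def Mst : ℕ → List (ℕ × ℕ)
  | 0 => []
  | s + 1 => if nent s = [] then Mst s
      else (actr s (nent s).headI (Mst s) (bn (nent s).headI)).1

theorem prim_Mst : Primrec Mst := by
  have h : Primrec (fun s : ℕ => (Nat.rec [] (fun s IH => if nent s = [] then IH
      else (actr s (nent s).headI IH (bn (nent s).headI)).1) s : List (ℕ × ℕ))) := by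
    refine Primrec.nat_rec₁ _ ?_
    refine Primrec.ite (Primrec.eq.comp (prim_nent.comp Primrec.fst) (Primrec.const []))
      Primrec.snd ?_
    have hh : Primrec (fun p : ℕ × List (ℕ × ℕ) => (nent p.1).headI) :=
      Primrec.list_headI.comp (prim_nent.comp Primrec.fst)
    exact Primrec.fst.comp (prim_actr.comp (Primrec.pair (Primrec.pair
      (Primrec.pair Primrec.fst hh) Primrec.snd) (prim_bn.comp hh)))
  refine h.of_eq (fun s => ?_)
  induction s with
  | zero => rfl
  | succ s ih => simp only [Mst, ← ih]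

/-- the ceer -/
def ERand (x y : ℕ) : Prop := ∃ s, rt (Mst s) x = rt (Mst s) y

theorem re_ERand : REPred (fun p : ℕ × ℕ => ERand p.1 p.2) := by
  have hD : PrimrecRel (fun (p : ℕ × ℕ) (s : ℕ) => rt (Mst s) p.1 = rt (Mst s) p.2) := by
    refine Primrec.eq.comp ?_ ?_
    · exact prim_rt.comp (prim_Mst.comp Primrec.snd) (Primrec.fst.comp Primrec.fst)
    · exact prim_rt.comp (prim_Mst.comp Primrec.snd) (Primrec.snd.comp Primrec.fst)
  have h1 : Partrec (fun p : ℕ × ℕ => Nat.rfind (fun s =>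
      Part.some (decide (rt (Mst s) p.1 = rt (Mst s) p.2)))) := by
    refine Partrec.rfind ?_
    exact (PrimrecRel.decide hD).to_comp.partrec
  refine (Partrec.dom_re h1).of_eq (fun p => ?_)
  unfold ERand
  rw [Part.dom_iff_mem]
  constructor
  · rintro ⟨s, hs⟩
    have := Nat.rfind_spec hs
    exact ⟨s, by simpa [eq_comm] using this⟩
  · rintro ⟨s, hs⟩
    have hd : (Nat.rfind (fun s => Part.some (decide (rt (Mst s) p.1 = rt (Mst s) p.2)))).Dom := by
      rw [Nat.rfind_dom]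
      exact ⟨s, by simp [hs], fun _ => trivial⟩
    exact Part.dom_iff_mem.1 hd

end Pool.Agent.helper63.Diag
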