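import Pool.Agent.helper63.Diag.Rand2

/-!
# Verification of the construction: roots and counting
-/

namespace Pool.Agent.helper63.Diag

open Encodable

theorem headI_mem {α : Type} [Inhabited α] {l : List α} (h : l ≠ []) : l.headI ∈ l := by
  cases l with
  | nil => exact absurd rfl h
  | cons a l => simp

/-- the least number entering at stage `s + 1` -/
def Least (s n : ℕ) : Prop := (kin (s + 1) n ∧ ¬ kin s n) ∧ ∀ m < n, kin (s + 1) m → kin s m

theorem nent_spec {s : ℕ} (h : nent s ≠ []) : Least s (nent s).headI := by
  have h1 := headI_mem h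
  unfold nent at h1
  rw [List.mem_filter, List.mem_range] at h1
  refine ⟨by simpa [nent] using h1.2, fun m hm hk => ?_⟩
  by_contra hcon
  have hmem : m ∈ nent s := by
    unfold nent
    rw [List.mem_filter, List.mem_range]
    exact ⟨kin_bound hk, by simpa using ⟨hk, hcon⟩⟩
  have hsort : (nent s).Pairwise (· < ·) := by
    unfold nent
    exact List.Pairwise.filter _ List.pairwise_lt_range
  cases hL : nent s with
  | nil => exact h hL
  | cons a l =>
    rw [hL] at hmem hsort hm
    simp only [List.headI_cons] at hm
    rcases List.mem_cons.1 hmem with h2 | h2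
    · omega
    · have := (List.pairwise_cons.1 hsort).1 m h2
      omega

theorem nent_of_least {s n : ℕ} (h : Least s n) : nent s ≠ [] ∧ (nent s).headI = n := by
  have hmem : n ∈ nent s := by
    unfold nent
    rw [List.mem_filter, List.mem_range]
    exact ⟨kin_bound h.1.1, by simpa using h.1⟩
  have hne : nent s ≠ [] := by intro h0; rw [h0] at hmem; simp at hmem
  refine ⟨hne, ?_⟩
  have h2 := nent_spec hne
  rcases lt_trichotomy (nent s).headI n with h3 | h3 | h3
  · exact absurd (h.2 _ h3 h2.1.1) h2.1.2
  · exact h3
  · exact absurd (h2.2 _ h3 h.1.1) h.1.2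

theorem least_unique {s n n' : ℕ} (h : Least s n) (h' : Least s n') : n = n' := by
  rw [← (nent_of_least h).2, (nent_of_least h').2]

theorem Mst_succ_of_least {s n : ℕ} (h : Least s n) :
    Mst (s + 1) = (actr s n (Mst s) (bn n)).1 := by
  obtain ⟨h1, h2⟩ := nent_of_least h
  simp only [Mst, if_neg h1, h2]

theorem cands_headI (s n r : ℕ) : (cands s n r).headI = 0 := by
  simp [cands, prot]

theorem cands_length {s n r : ℕ} (hr : r < bn n) :
    (cands s n r).length = Cn n + bn n - 1 - r := by
  unfold cands
  rw [List.length_append, prot_length, List.length_drop, blkL_length]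
  omega

theorem drop_blkL {s n r : ℕ} (hr : r < bn n) :
    (blkL s n).drop r = xel s n r :: (blkL s n).drop (r + 1) := by
  rw [List.drop_eq_getElem_cons (by rw [blkL_length]; exact hr)]
  congr 1
  simp [blkL, xel]

theorem zel_mem (s n r : ℕ) (MA : List (ℕ × ℕ) × List (ℕ × List ℕ)) :
    zel s n r MA ∈ cands s n r := by
  unfold zel
  by_cases h : (cands s n r).filter (fun z => decide ((A' s n r MA).length ≤
    (Az s n r MA z).length * (cands s n r).length)) = []
  · rw [h]
    show 0 ∈ cands s n r
    exact List.mem_append_left _ (mem_prot.2 (Or.inl rfl))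
  · exact (List.mem_filter.1 (headI_mem h)).1

theorem zel_le {s n r : ℕ} {MA : List (ℕ × ℕ) × List (ℕ × List ℕ)}
    (hM : ∀ p ∈ MA.1, p.2 ≤ s) (hA : ∀ a ∈ MA.2, vl s a (xel s n r) < s) :
    zel s n r MA ≤ s := by
  by_cases h : (cands s n r).filter (fun z => decide ((A' s n r MA).length ≤
    (Az s n r MA z).length * (cands s n r).length)) = []
  · unfold zel; rw [h]; exact Nat.zero_le _
  · have hz := headI_mem h
    rw [List.mem_filter] at hz
    have h2 : (A' s n r MA).length ≤ (Az s n r MA (zel s n r MA)).length *
        (cands s n r).length := by simpa [zel] using hz.2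
    by_cases h3 : Az s n r MA (zel s n r MA) = []
    · rw [h3] at h2
      simp only [List.length_nil, Nat.zero_mul, Nat.le_zero_eq] at h2
      have h4 : zel s n r MA = 0 := by
        unfold zel
        rw [List.filter_eq_self.2 (fun z _ => by simp [h2]), cands_headI]
      rw [h4]; exact Nat.zero_le _
    · obtain ⟨a, ha⟩ := List.exists_mem_of_ne_nil _ h3
      unfold Az at ha
      rw [List.mem_filter] at ha
      have h4 : rt MA.1 (vl s a (xel s n r)) = zel s n r MA := by simpa using ha.2
      rw [← h4]
      exact rt_le hM (hA a ha.1).le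

theorem mem_stp {s n r : ℕ} {MA : List (ℕ × ℕ) × List (ℕ × List ℕ)} {a : ℕ × List ℕ} :
    a ∈ (stp s n r MA).2 ↔ (a ∈ MA.2 ∧ rt MA.1 (vl s a (xel s n r)) ≠ xel s n r) ∧
      rt MA.1 (vl s a (xel s n r)) ≠ zel s n r MA := by
  unfold stp A'
  rw [List.mem_filter, List.mem_filter]
  simp

theorem actr_sub {s n r : ℕ} {M : List (ℕ × ℕ)} {a : ℕ × List ℕ}
    (h : a ∈ (actr s n M r).2) : a ∈ pop0 s n := by
  induction r with
  | zero => exact h
  | succ r ih => exact ih (mem_stp.1 h).1.1

theorem vl_lt {s n r : ℕ} (hr : r < bn n) {a : ℕ × List ℕ} (h : a ∈ pop0 s n) :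
    vl s a (xel s n r) < s :=
  (vl_spec ((mem_pop0.1 h).2 _ (mem_blkL.2 ⟨r, hr, rfl⟩))).1

theorem actr_bound {s n r : ℕ} {M : List (ℕ × ℕ)} (hM : ∀ p ∈ M, p.2 ≤ s) (hr : r ≤ bn n) :
    ∀ p ∈ (actr s n M r).1, p.2 ≤ s := by
  induction r with
  | zero =>
    intro p hp
    rcases List.mem_append.1 hp with h | h
    · exact hM p h
    · rw [(mem_junk.1 h).2]; exact Nat.zero_le _
  | succ r ih =>
    intro p hp
    have ih' := ih (by omega)
    rcases List.mem_append.1 hp with h | h
    · exact ih' p h
    · rw [List.mem_singleton] at h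
      rw [h]
      exact zel_le ih' (fun a ha => vl_lt (by omega) (actr_sub ha))

theorem Mst_bound (s : ℕ) : ∀ p ∈ Mst s, p.2 ≤ s := by
  induction s with
  | zero => intro p hp; simp [Mst] at hp
  | succ s ih =>
    intro p hp
    by_cases h : nent s = []
    · simp only [Mst, if_pos h] at hp
      exact (ih p hp).trans (by omega)
    · simp only [Mst, if_neg h] at hp
      exact (actr_bound ih le_rfl p hp).trans (by omega)

/-- who is merged -/
theorem mem_actr {s n r : ℕ} {M : List (ℕ × ℕ)} {p : ℕ × ℕ} (hp : p ∈ (actr s n M r).1) :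
    p ∈ M ∨ (p.1 ≤ s ∧ p.1 ∉ prot s (n + 1)) ∨ ∃ i < r, p.1 = xel s n i := by
  induction r with
  | zero =>
    rcases List.mem_append.1 hp with h | h
    · exact Or.inl h
    · exact Or.inr (Or.inl (mem_junk.1 h).1)
  | succ r ih =>
    rcases List.mem_append.1 hp with h | h
    · rcases ih h with h | h | ⟨i, hi, h⟩
      · exact Or.inl h
      · exact Or.inr (Or.inl h)
      · exact Or.inr (Or.inr ⟨i, by omega, h⟩)
    · rw [List.mem_singleton] at h
      exact Or.inr (Or.inr ⟨r, by omega, by rw [h]⟩)

theorem mem_Mst {s : ℕ} {p : ℕ × ℕ} (hp : p ∈ Mst s) : ∃ s' < s, ∃ n', Least s' n' ∧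
    ((p.1 ≤ s' ∧ p.1 ∉ prot s' (n' + 1)) ∨ ∃ i < bn n', p.1 = xel s' n' i) := by
  induction s with
  | zero => simp [Mst] at hp
  | succ s ih =>
    by_cases h : nent s = []
    · simp only [Mst, if_pos h] at hp
      obtain ⟨s', hs', r⟩ := ih hp
      exact ⟨s', by omega, r⟩
    · simp only [Mst, if_neg h] at hp
      rcases mem_actr hp with h1 | h1 | h1
      · obtain ⟨s', hs', r⟩ := ih h1
        exact ⟨s', by omega, r⟩
      · exact ⟨s, by omega, _, nent_spec h, Or.inl h1⟩
      · exact ⟨s, by omega, _, nent_spec h, Or.inr h1⟩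

/-- the elements of the current version of an unfinished requirement are roots -/
theorem Mst_ne {s n r : ℕ} (hn : ¬ kin s n) (hr : r < bn n) :
    ∀ p ∈ Mst s, p.1 ≠ xel s n r := by
  intro p hp heq
  obtain ⟨s', hs', n', hl, h⟩ := mem_Mst hp
  rcases h with ⟨h1, h2⟩ | ⟨i, hi, h1⟩
  · rw [heq] at h1 h2
    have hu : vers s n ≤ s' := (le_blk n (vers s n) r).trans h1
    have hv : vers s' n = vers s n := vers_of_le hs'.le hu
    rcases lt_or_ge n' n with hlt | hge
    · have h3 : entr n (s' + 1) := ⟨n', hlt, hl.1.1, by simpa using hl.1.2⟩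
      have h4 := vers_le_of_entr (s := s) (by omega) h3
      omega
    · apply h2
      rw [mem_prot]
      refine Or.inr (Or.inr ⟨n, by omega, ?_⟩)
      rw [mem_blkL]
      exact ⟨r, hr, by rw [hv]; rfl⟩
  · rw [heq] at h1
    obtain ⟨h3, -, -⟩ := blk_inj h1
    subst h3
    exact hn (kin_mono (by omega) hl.1.1)

theorem rt_xel {s n r : ℕ} (hn : ¬ kin s n) (hr : r < bn n) :
    rt (actr s n (Mst s) r).1 (xel s n r) = xel s n r := by
  apply rt_of_notMem
  intro p hp heq
  rcases mem_actr hp with h | ⟨-, h⟩ | ⟨i, hi, h⟩
  · exact Mst_ne hn hr p h heq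
  · apply h
    rw [heq, mem_prot]
    exact Or.inr (Or.inr ⟨n, by omega, mem_blkL.2 ⟨r, hr, rfl⟩⟩)
  · rw [heq] at h
    obtain ⟨-, -, h3⟩ := blk_inj h
    omega

theorem rt_mem {s n r : ℕ} {M : List (ℕ × ℕ)} (hM : ∀ p ∈ M, p.2 ≤ s) (hr : r ≤ bn n)
    {y : ℕ} (hy : y ≤ s) :
    rt (actr s n M r).1 y ∈ prot s n ++ (blkL s n).drop r := by
  induction r with
  | zero =>
    show rt (M ++ junk s n) y ∈ _
    rw [rt_append, List.drop_zero, ← prot_succ]
    exact rt_junk (rt_le hM hy)
  | succ r ih =>
    have ih' := ih (by omega)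
    show rt ((actr s n M r).1 ++ [(xel s n r, zel s n r (actr s n M r))]) y ∈ _
    rw [rt_append, rt_cons, rt_nil]
    split_ifs with h
    · exact zel_mem s n r _
    · simp only at h
      rcases List.mem_append.1 ih' with h1 | h1
      · exact List.mem_append_left _ h1
      · rw [drop_blkL (by omega)] at h1
        rcases List.mem_cons.1 h1 with h2 | h2
        · exact absurd h2 h
        · exact List.mem_append_right _ h2

theorem pigeon {α : Type} (A : List α) (f : α → ℕ) (c : List ℕ) (h : ∀ a ∈ A, f a ∈ c) :
    A.length ≤ (c.map (fun z => (A.filter (fun a => decide (f a = z))).length)).sum := by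
  induction A with
  | nil => simp
  | cons a A ih =>
    have ih' := ih (fun b hb => h b (List.mem_cons_of_mem _ hb))
    have ha := h a List.mem_cons_self
    have key : ∀ c : List ℕ, f a ∈ c →
        (c.map (fun z => (A.filter (fun a => decide (f a = z))).length)).sum + 1 ≤
        (c.map (fun z => ((a :: A).filter (fun a => decide (f a = z))).length)).sum := by
      intro c
      induction c with
      | nil => intro h; simp at h
      | cons z c ihc =>
        intro hc
        simp only [List.map_cons, List.sum_cons]
        have hle : ∀ c : List ℕ,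
            (c.map (fun z => (A.filter (fun a => decide (f a = z))).length)).sum ≤
            (c.map (fun z => ((a :: A).filter (fun a => decide (f a = z))).length)).sum := by
          intro c
          apply List.sum_le_sum
          intro z _
          rw [List.filter_cons]
          split_ifs
          · simp
          · exact le_rfl
        by_cases hz : f a = z
        · have h1 : ((a :: A).filter (fun a => decide (f a = z))).length =
              (A.filter (fun a => decide (f a = z))).length + 1 := by
            rw [List.filter_cons, if_pos (by simpa using hz)]; simp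
          have := hle c
          omega
        · have h1 : ((a :: A).filter (fun a => decide (f a = z))).length =
              (A.filter (fun a => decide (f a = z))).length := by
            rw [List.filter_cons, if_neg (by simpa using hz)]
          have h2 := ihc ((List.mem_cons.1 hc).resolve_left hz)
          omega
    have := key c ha
    simp only [List.length_cons]
    omega

theorem sum_lt_of {c : List ℕ} {f : ℕ → ℕ} {N k : ℕ} (h : ∀ z ∈ c, f z * k < N) :
    (c.map f).sum * k + c.length ≤ c.length * N := by
  induction c with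
  | nil => simp
  | cons z c ih =>
    have h1 := h z List.mem_cons_self
    have h2 := ih (fun w hw => h w (List.mem_cons_of_mem _ hw))
    simp only [List.map_cons, List.sum_cons, List.length_cons]
    have : (f z + (c.map f).sum) * k = f z * k + (c.map f).sum * k := by ring
    have h4 : (c.length + 1) * N = c.length * N + N := by ring
    omega

/-- the most popular candidate is popular -/
theorem zel_spec {s n r : ℕ} {MA : List (ℕ × ℕ) × List (ℕ × List ℕ)}
    (h : ∀ a ∈ A' s n r MA, rt MA.1 (vl s a (xel s n r)) ∈ cands s n r) :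
    (A' s n r MA).length ≤ (Az s n r MA (zel s n r MA)).length * (cands s n r).length := by
  by_contra hcon
  have hemp : (cands s n r).filter (fun z => decide ((A' s n r MA).length ≤
      (Az s n r MA z).length * (cands s n r).length)) = [] := by
    by_contra hne
    have hz := headI_mem hne
    rw [List.mem_filter] at hz
    exact hcon (by simpa [zel] using hz.2)
  have hall : ∀ z ∈ cands s n r,
      (Az s n r MA z).length * (cands s n r).length < (A' s n r MA).length := by
    intro z hz
    by_contra h2
    have : z ∈ (cands s n r).filter (fun z => decide ((A' s n r MA).length ≤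
        (Az s n r MA z).length * (cands s n r).length)) := by
      rw [List.mem_filter]; exact ⟨hz, by simpa using h2⟩
    rw [hemp] at this
    simp at this
  have h1 := pigeon (A' s n r MA) (fun a => rt MA.1 (vl s a (xel s n r))) (cands s n r) h
  have h2 : ((cands s n r).map (fun z => ((A' s n r MA).filter
      (fun a => decide (rt MA.1 (vl s a (xel s n r)) = z))).length)).sum ≤
      ((cands s n r).map (fun z => (Az s n r MA z).length)).sum := by
    apply List.sum_le_sum
    intro z _
    unfold Az A'
    rw [List.filter_filter, ← List.countP_eq_length_filter, ← List.countP_eq_length_filter]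
    apply List.countP_mono_left
    intro a _ ha
    simp only [Bool.and_eq_true, decide_eq_true_eq] at ha ⊢
    exact ha.1
  have h3 := sum_lt_of hall
  have h4 : (A' s n r MA).length * (cands s n r).length ≤
      ((cands s n r).map (fun z => (Az s n r MA z).length)).sum * (cands s n r).length :=
    Nat.mul_le_mul_right _ (h1.trans h2)
  have h5 : 0 < (cands s n r).length := by
    have := zel_mem s n r MA
    exact List.length_pos_of_mem this
  rw [Nat.mul_comm] at h4
  omega

/-- one step decreases the population -/
theorem stp_length {s n r : ℕ} {MA : List (ℕ × ℕ) × List (ℕ × List ℕ)}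
    (h : ∀ a ∈ A' s n r MA, rt MA.1 (vl s a (xel s n r)) ∈ cands s n r)
    (hx : zel s n r MA ≠ xel s n r) :
    (stp s n r MA).2.length * (cands s n r).length ≤
      MA.2.length * ((cands s n r).length - 1) := by
  have h1 := zel_spec h
  have h2 : (stp s n r MA).2.length + (Az s n r MA (zel s n r MA)).length ≤
      (A' s n r MA).length := by
    have h3 : Az s n r MA (zel s n r MA) = (A' s n r MA).filter
        (fun a => decide (rt MA.1 (vl s a (xel s n r)) = zel s n r MA)) := by
      unfold Az A'
      rw [List.filter_filter]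
      apply List.filter_congr
      intro a _
      by_cases h4 : rt MA.1 (vl s a (xel s n r)) = zel s n r MA
      · simp [h4, hx]
      · simp [h4]
    rw [h3]
    unfold stp
    simp only
    have h5 := List.length_eq_length_filter_add (l := A' s n r MA)
      (fun a => decide (¬ rt MA.1 (vl s a (xel s n r)) = zel s n r MA))
    have h6 : (A' s n r MA).filter (fun a =>
        !decide (¬ rt MA.1 (vl s a (xel s n r)) = zel s n r MA)) = (A' s n r MA).filter
        (fun a => decide (rt MA.1 (vl s a (xel s n r)) = zel s n r MA)) := by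
      apply List.filter_congr
      intro a _
      simp
    rw [h6] at h5
    omega
  have h3 : (A' s n r MA).length ≤ MA.2.length := List.length_filter_le _ _
  have h5 : 0 < (cands s n r).length := List.length_pos_of_mem (zel_mem s n r MA)
  obtain ⟨k, hk⟩ : ∃ k, (cands s n r).length = k + 1 := ⟨_, (Nat.sub_add_cancel h5).symm⟩
  rw [hk] at h1 ⊢
  simp only [Nat.add_sub_cancel]
  have h6 : (stp s n r MA).2.length * (k + 1) + (Az s n r MA (zel s n r MA)).length * (k + 1) ≤
      (A' s n r MA).length * (k + 1) := by
    rw [← Nat.add_mul]; exact Nat.mul_le_mul_right _ h2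
  have h7 : (A' s n r MA).length * (k + 1) = (A' s n r MA).length * k + (A' s n r MA).length := by
    ring
  have h8 : (A' s n r MA).length * k ≤ MA.2.length * k := Nat.mul_le_mul_right _ h3
  omega

theorem xel_notMem_cands {s n r : ℕ} (hr : r < bn n) : xel s n r ∉ cands s n r := by
  unfold cands
  rw [List.mem_append]
  rintro (h | h)
  · rcases mem_prot.1 h with h1 | h1 | ⟨m, hm, h1⟩
    · simp [xel, blk] at h1
    · simp [xel, blk] at h1
    · obtain ⟨r', -, h2⟩ := mem_blkL.1 h1
      have := (blk_inj h2).1
      omega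
  · have h1 := blkL_nodup s n
    have h2 : ((blkL s n).drop r).Nodup := h1.sublist (List.drop_sublist _ _)
    rw [drop_blkL hr, List.nodup_cons] at h2
    exact h2.1 h

theorem A'_mem {s n r : ℕ} (hr : r < bn n) {M : List (ℕ × ℕ)} (hM : ∀ p ∈ M, p.2 ≤ s) :
    ∀ a ∈ A' s n r (actr s n M r),
      rt (actr s n M r).1 (vl s a (xel s n r)) ∈ cands s n r := by
  intro a ha
  unfold A' at ha
  rw [List.mem_filter] at ha
  have h1 : rt (actr s n M r).1 (vl s a (xel s n r)) ≠ xel s n r := by simpa using ha.2
  have h2 := rt_mem hM hr.le (vl_lt hr (actr_sub ha.1)).le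
  rw [drop_blkL hr] at h2
  unfold cands
  rcases List.mem_append.1 h2 with h3 | h3
  · exact List.mem_append_left _ h3
  · rcases List.mem_cons.1 h3 with h4 | h4
    · exact absurd h4 h1
    · exact List.mem_append_right _ h4

theorem actr_length {s n : ℕ} {M : List (ℕ × ℕ)} (hM : ∀ p ∈ M, p.2 ≤ s) (r : ℕ)
    (hr : r ≤ bn n) :
    (actr s n M r).2.length * (Cn n + bn n - 1) ≤ (pop0 s n).length * (Cn n + bn n - 1 - r) := by
  induction r with
  | zero => exact le_rfl
  | succ r ih =>
    have ih' := ih (by omega)
    have h1 := stp_length (MA := actr s n M r) (A'_mem (by omega) hM)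
      (fun h => xel_notMem_cands (s := s) (n := n) (r := r) (by omega)
        (h ▸ zel_mem s n r (actr s n M r)))
    rw [cands_length (by omega)] at h1
    have hC := two_le_Cn n
    obtain ⟨k, hk⟩ : ∃ k, Cn n + bn n - 1 - r = k + 1 := ⟨Cn n + bn n - 1 - r - 1, by omega⟩
    have hk' : Cn n + bn n - 1 - (r + 1) = k := by omega
    rw [hk] at h1 ih'
    rw [hk']
    simp only [Nat.add_sub_cancel] at h1
    show (stp s n r (actr s n M r)).2.length * _ ≤ _
    have h2 : (stp s n r (actr s n M r)).2.length * (Cn n + bn n - 1) * (k + 1) ≤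
        (pop0 s n).length * k * (k + 1) := by
      calc (stp s n r (actr s n M r)).2.length * (Cn n + bn n - 1) * (k + 1)
          = ((stp s n r (actr s n M r)).2.length * (k + 1)) * (Cn n + bn n - 1) := by ring
        _ ≤ ((actr s n M r).2.length * k) * (Cn n + bn n - 1) := Nat.mul_le_mul_right _ h1
        _ = ((actr s n M r).2.length * (Cn n + bn n - 1)) * k := by ring
        _ ≤ ((pop0 s n).length * (k + 1)) * k := Nat.mul_le_mul_right _ ih'
        _ = (pop0 s n).length * k * (k + 1) := by ring
    exact Nat.le_of_mul_le_mul_right h2 (Nat.succ_pos k)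

/-- few survive -/
theorem surv_bound {s n : ℕ} {M : List (ℕ × ℕ)} (hM : ∀ p ∈ M, p.2 ≤ s) :
    (actr s n M (bn n)).2.length * 2 ^ (n + 1) ≤ 2 ^ s := by
  have h1 := actr_length hM (bn n) le_rfl
  have h2 := pop0_length s n
  have hC := two_le_Cn n
  have h3 : Cn n + bn n - 1 - bn n ≤ Cn n := by omega
  have h4 : (n + 1) * Cn n * 2 ^ (n + 1) ≤ Cn n + bn n - 1 := by
    have : bn n = (n + 1) * Cn n * 2 ^ (n + 1) := rfl
    omega
  have h5 : (actr s n M (bn n)).2.length * 2 ^ (n + 1) * ((n + 1) * Cn n) ≤
      2 ^ s * ((n + 1) * Cn n) := by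
    calc (actr s n M (bn n)).2.length * 2 ^ (n + 1) * ((n + 1) * Cn n)
        = (actr s n M (bn n)).2.length * ((n + 1) * Cn n * 2 ^ (n + 1)) := by ring
      _ ≤ (actr s n M (bn n)).2.length * (Cn n + bn n - 1) := Nat.mul_le_mul_left _ h4
      _ ≤ (pop0 s n).length * (Cn n + bn n - 1 - bn n) := h1
      _ ≤ ((n + 1) * 2 ^ s) * Cn n := Nat.mul_le_mul h2 h3
      _ = 2 ^ s * ((n + 1) * Cn n) := by ring
  exact Nat.le_of_mul_le_mul_right h5 (Nat.mul_pos (Nat.succ_pos n) (by omega))

end Pool.Agent.helper63.Diag
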