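import Pool.Agent.helper63.Diag.Rand3

/-!
# The ceer `ERand`: basic facts, and members of the population that are correct survive
-/

namespace Pool.Agent.helper63.Diag

open Encodable

theorem actr_prefix (s n : ℕ) (M : List (ℕ × ℕ)) (r r' : ℕ) (h : r ≤ r') :
    ∃ L, (actr s n M r').1 = (actr s n M r).1 ++ L := by
  induction h with
  | refl => exact ⟨[], by simp⟩
  | step h ih =>
    rename_i k
    obtain ⟨L, hL⟩ := ih
    refine ⟨L ++ [(xel s n k, zel s n k (actr s n M k))], ?_⟩
    show (actr s n M k).1 ++ _ = _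
    rw [hL, List.append_assoc]

theorem Mst_prefix_succ (s : ℕ) : ∃ L, Mst (s + 1) = Mst s ++ L := by
  by_cases h : nent s = []
  · exact ⟨[], by simp [Mst, if_pos h]⟩
  · obtain ⟨L, hL⟩ := actr_prefix s (nent s).headI (Mst s) 0 (bn (nent s).headI) (Nat.zero_le _)
    refine ⟨junk s (nent s).headI ++ L, ?_⟩
    simp only [Mst, if_neg h]
    rw [hL]
    show (Mst s ++ junk s _) ++ L = _
    rw [List.append_assoc]

theorem rt_Mst_mono {s s' x y : ℕ} (h : s ≤ s') (he : rt (Mst s) x = rt (Mst s) y) :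
    rt (Mst s') x = rt (Mst s') y := by
  induction h with
  | refl => exact he
  | step h ih =>
    rename_i k
    obtain ⟨L, hL⟩ := Mst_prefix_succ k
    rw [hL, rt_append, rt_append, ih]

theorem equiv_ERand : Equivalence ERand where
  refl := fun x => ⟨0, rfl⟩
  symm := fun ⟨s, h⟩ => ⟨s, h.symm⟩
  trans := fun ⟨s, h⟩ ⟨s', h'⟩ => ⟨max s s', (rt_Mst_mono (le_max_left _ _) h).trans
    (rt_Mst_mono (le_max_right _ _) h')⟩

theorem Mst_ne_special {s : ℕ} {p : ℕ × ℕ} (hp : p ∈ Mst s) : p.1 ≠ 0 ∧ p.1 ≠ 1 := by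
  obtain ⟨s', -, n', -, h⟩ := mem_Mst hp
  rcases h with ⟨-, h⟩ | ⟨i, -, h⟩
  · refine ⟨fun h0 => h ?_, fun h0 => h ?_⟩
    · rw [h0]; exact mem_prot.2 (Or.inl rfl)
    · rw [h0]; exact mem_prot.2 (Or.inr (Or.inl rfl))
  · rw [h]
    unfold xel blk
    exact ⟨by omega, by omega⟩

theorem not_ERand_zero_one : ¬ ERand 0 1 := by
  rintro ⟨s, hs⟩
  rw [rt_of_notMem (fun p hp => (Mst_ne_special hp).1),
    rt_of_notMem (fun p hp => (Mst_ne_special hp).2)] at hs
  exact absurd hs (by omega)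

theorem ERand_of_actr {s n r x y : ℕ} (hl : Least s n) (hr : r ≤ bn n)
    (h : rt (actr s n (Mst s) r).1 x = rt (actr s n (Mst s) r).1 y) : ERand x y := by
  refine ⟨s + 1, ?_⟩
  rw [Mst_succ_of_least hl]
  obtain ⟨L, hL⟩ := actr_prefix s n (Mst s) r (bn n) hr
  rw [hL, rt_append, rt_append, h]

/-- A member of the population whose values are not equivalent to the arguments survives. -/
theorem survives {s n : ℕ} (hl : Least s n) {a : ℕ × List ℕ} (ha : a ∈ pop0 s n)
    (hc : ∀ r < bn n, ¬ ERand (vl s a (xel s n r)) (xel s n r)) (r : ℕ) (hr : r ≤ bn n) :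
    a ∈ (actr s n (Mst s) r).2 := by
  induction r with
  | zero => exact ha
  | succ r ih =>
    have hr' : r < bn n := by omega
    have h1 := rt_xel (s := s) hl.1.2 hr'
    have h2 : rt (actr s n (Mst s) r).1 (vl s a (xel s n r)) ≠ xel s n r := by
      intro h
      exact hc r hr' (ERand_of_actr hl hr'.le (h.trans h1.symm))
    refine mem_stp.2 ⟨⟨ih (by omega), h2⟩, ?_⟩
    intro h
    apply hc r hr'
    refine ERand_of_actr (r := r + 1) hl hr ?_
    show rt ((actr s n (Mst s) r).1 ++ [(xel s n r, zel s n r (actr s n (Mst s) r))]) _ =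
      rt ((actr s n (Mst s) r).1 ++ [(xel s n r, zel s n r (actr s n (Mst s) r))]) _
    rw [rt_append, rt_append, h1, rt_cons, rt_cons, rt_nil, rt_nil]
    simp only [if_true]
    split_ifs with h3
    · rfl
    · exact h

/-- the test: surviving strings -/
def SurvSet (k : ℕ) (σ : List ℕ) : Prop :=
  ∃ q : ℕ × (ℕ × ℕ), (Least q.1 q.2.1 ∧ k ≤ q.2.1) ∧
    (q.2.2, σ) ∈ (actr q.1 q.2.1 (Mst q.1) (bn q.2.1)).2

theorem prim_Least : PrimrecRel Least := by
  unfold Least
  refine PrimrecPred.and (PrimrecPred.and ?_ (PrimrecPred.not ?_)) ?_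
  · exact prim_kin.comp (Primrec.succ.comp Primrec.fst) Primrec.snd
  · exact prim_kin.comp Primrec.fst Primrec.snd
  · refine (PRalllt (R := fun (p : ℕ × ℕ) (m : ℕ) => ¬ kin (p.1 + 1) m ∨ kin p.1 m) ?_
      Primrec.snd).of_eq (fun p => ?_)
    · refine PrimrecPred.or (PrimrecPred.not ?_) ?_
      · exact prim_kin.comp (Primrec.succ.comp (Primrec.fst.comp Primrec.fst)) Primrec.snd
      · exact prim_kin.comp (Primrec.fst.comp Primrec.fst) Primrec.snd
    · constructor
      · intro h m hm hk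
        exact (h m hm).resolve_left (fun h' => h' hk)
      · intro h m hm
        by_cases hk : kin (p.1 + 1) m
        · exact Or.inr (h m hm hk)
        · exact Or.inl hk

theorem prim_surv : PrimrecRel (fun (p : ℕ × List ℕ) (q : ℕ × (ℕ × ℕ)) =>
    (Least q.1 q.2.1 ∧ p.1 ≤ q.2.1) ∧
      (q.2.2, p.2) ∈ (actr q.1 q.2.1 (Mst q.1) (bn q.2.1)).2) := by
  refine PrimrecPred.and (PrimrecPred.and ?_ ?_) ?_
  · exact prim_Least.comp (Primrec.fst.comp Primrec.snd)
      (Primrec.fst.comp (Primrec.snd.comp Primrec.snd))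
  · exact Primrec.nat_le.comp (Primrec.fst.comp Primrec.fst)
      (Primrec.fst.comp (Primrec.snd.comp Primrec.snd))
  · have h1 : PrimrecRel (fun (w : (ℕ × List ℕ) × (ℕ × (ℕ × ℕ))) (a : ℕ × List ℕ) =>
        a = (w.2.2.2, w.1.2)) := by
      refine Primrec.eq.comp Primrec.snd (Primrec.pair ?_ ?_)
      · exact Primrec.snd.comp (Primrec.snd.comp (Primrec.snd.comp Primrec.fst))
      · exact Primrec.snd.comp (Primrec.fst.comp Primrec.fst)
    have hs : Primrec (fun w : (ℕ × List ℕ) × (ℕ × (ℕ × ℕ)) => w.2.1) :=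
      Primrec.fst.comp Primrec.snd
    have hn : Primrec (fun w : (ℕ × List ℕ) × (ℕ × (ℕ × ℕ)) => w.2.2.1) :=
      Primrec.fst.comp (Primrec.snd.comp Primrec.snd)
    have h2 : Primrec (fun w : (ℕ × List ℕ) × (ℕ × (ℕ × ℕ)) =>
        (actr w.2.1 w.2.2.1 (Mst w.2.1) (bn w.2.2.1)).2) :=
      Primrec.snd.comp (prim_actr.comp (Primrec.pair (Primrec.pair (Primrec.pair hs hn)
        (prim_Mst.comp hs)) (prim_bn.comp hn)))
    refine (PRex h1 h2).of_eq (fun w => ?_)
    constructor
    · rintro ⟨a, ha, rfl⟩; exact ha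
    · intro h; exact ⟨_, h, rfl⟩

/-- a primitive recursive relation projects to an r.e. predicate -/
theorem re_of_prim {α β : Type} [Primcodable α] [Primcodable β] {R : α → β → Prop}
    (hR : PrimrecRel R) : REPred (fun a => ∃ b, R a b) := by
  classical
  have hD : PrimrecRel (fun (a : α) (m : ℕ) => ∃ b ∈ ((decode m : Option β)).toList, R a b) := by
    have h1 : PrimrecRel (fun (p : α × ℕ) (b : β) => R p.1 b) :=
      hR.comp (Primrec.fst.comp Primrec.fst) Primrec.snd
    exact PRex h1 (Primrec.optionToList.comp (Primrec.decode.comp Primrec.snd))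
  have h1 : Partrec (fun a : α => Nat.rfind (fun m =>
      Part.some (decide (∃ b ∈ ((decode m : Option β)).toList, R a b)))) := by
    refine Partrec.rfind ?_
    exact (PrimrecRel.decide hD).to_comp.partrec
  refine (Partrec.dom_re h1).of_eq (fun a => ?_)
  rw [Part.dom_iff_mem]
  constructor
  · rintro ⟨m, hm⟩
    have := Nat.rfind_spec hm
    rw [Part.mem_some_iff, eq_comm, decide_eq_true_eq] at this
    obtain ⟨b, -, hb⟩ := this
    exact ⟨b, hb⟩
  · rintro ⟨b, hb⟩
    have hd : (Nat.rfind (fun m =>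
        Part.some (decide (∃ b ∈ ((decode m : Option β)).toList, R a b)))).Dom := by
      rw [Nat.rfind_dom]
      refine ⟨encode b, ?_, fun _ => trivial⟩
      rw [Part.mem_some_iff, eq_comm, decide_eq_true_eq]
      exact ⟨b, by simp, hb⟩
    exact Part.dom_iff_mem.1 hd

end Pool.Agent.helper63.Diag
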