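import Pool.Agent.helper63.Diag.Rand4

/-!
# The survivors form a Martin-Löf test
-/

namespace Pool.Agent.helper63.Diag

open Encodable
open scoped ENNReal

/-- binary strings as lists of numbers -/
def tn (σ : List Bool) : List ℕ := σ.map Bool.toNat

/-- back -/
def tb (l : List ℕ) : List Bool := l.map (fun c => decide (c = 1))

theorem tb_tn (σ : List Bool) : tb (tn σ) = σ := by
  unfold tb tn
  rw [List.map_map]
  conv_rhs => rw [← List.map_id σ]
  apply List.map_congr_left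
  intro b _
  cases b <;> rfl

theorem tn_length (σ : List Bool) : (tn σ).length = σ.length := by simp [tn]

theorem prim_tn : Primrec tn := by
  unfold tn
  refine Primrec.list_map Primrec.id ?_
  have : Primrec (fun b : Bool => Bool.toNat b) := by
    refine (Primrec.cond Primrec.id (Primrec.const 1) (Primrec.const 0)).of_eq ?_
    intro b; cases b <;> rfl
  exact this.comp Primrec.snd

/-- the test -/
def USet (k : ℕ) : Set (List Bool) := {σ | SurvSet k (tn σ)}

theorem re_USet : REPred (fun p : ℕ × List Bool => p.2 ∈ USet p.1) := by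
  have h : PrimrecRel (fun (p : ℕ × List Bool) (q : ℕ × (ℕ × ℕ)) =>
      (Least q.1 q.2.1 ∧ p.1 ≤ q.2.1) ∧
        (q.2.2, tn p.2) ∈ (actr q.1 q.2.1 (Mst q.1) (bn q.2.1)).2) :=
    prim_surv.comp (Primrec.pair (Primrec.fst.comp Primrec.fst)
      (prim_tn.comp (Primrec.snd.comp Primrec.fst))) Primrec.snd
  exact re_of_prim h

/-- the survivors of one requirement -/
def TSet (n : ℕ) : Set (List Bool) :=
  {σ | ∃ s e, Least s n ∧ (e, tn σ) ∈ (actr s n (Mst s) (bn n)).2}

theorem USet_eq (k : ℕ) : USet k = ⋃ j, TSet (k + j) := by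
  ext σ
  rw [Set.mem_iUnion]
  constructor
  · rintro ⟨⟨s, n, e⟩, ⟨h1, h2⟩, h3⟩
    refine ⟨n - k, ?_⟩
    have : k + (n - k) = n := by simp only at h2; omega
    rw [this]
    exact ⟨s, e, h1, h3⟩
  · rintro ⟨j, s, e, h1, h2⟩
    exact ⟨(s, k + j, e), ⟨h1, Nat.le_add_right _ _⟩, h2⟩

theorem Least_stage_unique {s s' n : ℕ} (h : Least s n) (h' : Least s' n) : s = s' := by
  rcases lt_trichotomy s s' with h1 | h1 | h1
  · exact absurd (kin_mono (by omega) h.1.1) h'.1.2
  · exact h1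
  · exact absurd (kin_mono (by omega) h'.1.1) h.1.2

theorem TSet_weight (n : ℕ) :
    ∑' σ : TSet n, (2⁻¹ : ℝ≥0∞) ^ σ.1.length ≤ 2⁻¹ ^ (n + 1) := by
  classical
  by_cases hex : ∃ s, Least s n
  · obtain ⟨s, hs⟩ := hex
    let F : Finset (List Bool) :=
      ((actr s n (Mst s) (bn n)).2.map (fun a => tb a.2)).toFinset
    have hsub : TSet n ⊆ {σ | σ ∈ F.filter (fun σ => σ.length = s)} := by
      rintro σ ⟨s', e, h1, h2⟩
      have := Least_stage_unique h1 hs
      subst this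
      simp only [Finset.mem_filter, Set.mem_setOf_eq]
      refine ⟨?_, ?_⟩
      · rw [List.mem_toFinset, List.mem_map]
        exact ⟨_, h2, tb_tn σ⟩
      · have h3 := (mem_pop0.1 (actr_sub h2)).1.2
        have h4 := (mem_strs.1 h3).1
        rw [tn_length] at h4
        exact h4
    have hcard : (F.filter (fun σ => σ.length = s)).card * 2 ^ (n + 1) ≤ 2 ^ s := by
      refine le_trans (Nat.mul_le_mul_right _ ?_) (surv_bound (Mst_bound s))
      refine (Finset.card_filter_le _ _).trans ((List.toFinset_card_le _).trans ?_)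
      rw [List.length_map]
    calc ∑' σ : TSet n, (2⁻¹ : ℝ≥0∞) ^ σ.1.length
        ≤ ∑' σ : {σ | σ ∈ F.filter (fun σ => σ.length = s)}, (2⁻¹ : ℝ≥0∞) ^ σ.1.length :=
          ENNReal.tsum_mono_subtype (fun σ : List Bool => (2⁻¹ : ℝ≥0∞) ^ σ.length) hsub
      _ = ∑ σ ∈ F.filter (fun σ => σ.length = s), (2⁻¹ : ℝ≥0∞) ^ σ.length :=
          Finset.tsum_subtype (F.filter (fun σ => σ.length = s))
            (fun σ : List Bool => (2⁻¹ : ℝ≥0∞) ^ σ.length)
      _ = ∑ σ ∈ F.filter (fun σ => σ.length = s), (2⁻¹ : ℝ≥0∞) ^ s := by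
          apply Finset.sum_congr rfl
          intro σ hσ
          rw [(Finset.mem_filter.1 hσ).2]
      _ = (F.filter (fun σ => σ.length = s)).card * (2⁻¹ : ℝ≥0∞) ^ s := by
          rw [Finset.sum_const, nsmul_eq_mul]
      _ ≤ 2⁻¹ ^ (n + 1) := by
          have h1 : ((F.filter (fun σ => σ.length = s)).card : ℝ≥0∞) * 2 ^ (n + 1) ≤ 2 ^ s := by
            exact_mod_cast hcard
          have hk : ∀ m : ℕ, (2 : ℝ≥0∞) ^ m * 2⁻¹ ^ m = 1 := by
            intro m
            rw [← mul_pow, ENNReal.mul_inv_cancel (by norm_num) (by norm_num), one_pow]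
          calc ((F.filter (fun σ => σ.length = s)).card : ℝ≥0∞) * (2⁻¹ : ℝ≥0∞) ^ s
              = (((F.filter (fun σ => σ.length = s)).card : ℝ≥0∞) * 2 ^ (n + 1)) *
                (2⁻¹ ^ (n + 1) * 2⁻¹ ^ s) := by
                rw [mul_assoc, ← mul_assoc ((2 : ℝ≥0∞) ^ (n + 1)), hk, one_mul]
            _ ≤ 2 ^ s * (2⁻¹ ^ (n + 1) * 2⁻¹ ^ s) := by gcongr
            _ = 2⁻¹ ^ (n + 1) := by
                rw [mul_comm ((2⁻¹ : ℝ≥0∞) ^ (n + 1)), ← mul_assoc, hk, one_mul]
  · have : TSet n = ∅ := by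
      ext σ
      simp only [Set.mem_empty_iff_false, iff_false]
      rintro ⟨s, e, h1, -⟩
      exact hex ⟨s, h1⟩
    rw [this]
    simp

theorem USet_weight (k : ℕ) :
    ∑' σ : USet k, (2⁻¹ : ℝ≥0∞) ^ σ.1.length ≤ 2⁻¹ ^ k := by
  rw [USet_eq]
  refine (ENNReal.tsum_iUnion_le_tsum
    (fun σ : List Bool => (2⁻¹ : ℝ≥0∞) ^ σ.length) _).trans ?_
  refine (ENNReal.tsum_le_tsum (fun j => TSet_weight (k + j))).trans ?_
  have h : ∀ j, (2⁻¹ : ℝ≥0∞) ^ (k + j + 1) = 2⁻¹ ^ (k + 1) * 2⁻¹ ^ j := by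
    intro j; rw [← pow_add]; congr 1; ring
  simp only [h]
  rw [ENNReal.tsum_mul_left, ENNReal.tsum_geometric, ENNReal.one_sub_inv_two, inv_inv, pow_succ,
    mul_assoc, ENNReal.inv_mul_cancel (by norm_num) (by norm_num), mul_one]

end Pool.Agent.helper63.Diag
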