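import Pool.Agent.helper63.Diag.Rand5
import Pool.Agent.helper63.Diag.Turing

/-!
# A random oracle computing a diagonal function for `ERand` computes the halting problem
-/

namespace Pool.Agent.helper63.Diag

open Encodable

/-- the oracle of a binary sequence -/
def orc (X : ℕ → Bool) : ℕ → ℕ := fun n => (X n).toNat

theorem res_orc (X : ℕ → Bool) (l : ℕ) : res (orc X) l = tn ((List.range l).map X) := by
  unfold res orc tn
  rw [List.map_map]
  rfl

theorem finite_settle (n : ℕ) : ∃ T, ∀ m < n, (∃ s, kin s m) → kin T m := by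
  induction n with
  | zero => exact ⟨0, fun m hm => absurd hm (by omega)⟩
  | succ n ih =>
    obtain ⟨T, hT⟩ := ih
    by_cases h : ∃ s, kin s n
    · obtain ⟨s, hs⟩ := h
      refine ⟨max T s, fun m hm hk => ?_⟩
      rcases Nat.lt_succ_iff_lt_or_eq.1 hm with h1 | h1
      · exact kin_mono (le_max_left _ _) (hT m h1 hk)
      · subst h1; exact kin_mono (le_max_right _ _) hs
    · refine ⟨T, fun m hm hk => ?_⟩
      rcases Nat.lt_succ_iff_lt_or_eq.1 hm with h1 | h1
      · exact hT m h1 hk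
      · subst h1; exact absurd hk h

theorem vers_settle {T n s : ℕ} (hT : ∀ m < n, (∃ s, kin s m) → kin T m) (hs : T ≤ s) :
    vers s n = vers T n := by
  refine vers_eq hs (fun u h1 _ h3 => ?_)
  obtain ⟨m, hm, h4, h5⟩ := h3
  exact h5 (kin_mono (by omega) (hT m hm ⟨_, h4⟩))

theorem exists_bound_list (P : ℕ → ℕ → Prop) (L : List ℕ) (h : ∀ x ∈ L, ∃ s, ∀ s' ≥ s, P x s') :
    ∃ s, ∀ x ∈ L, ∀ s' ≥ s, P x s' := by
  induction L with
  | nil => exact ⟨0, by simp⟩
  | cons x L ih =>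
    obtain ⟨s, hs⟩ := ih (fun y hy => h y (List.mem_cons_of_mem _ hy))
    obtain ⟨s1, hs1⟩ := h x List.mem_cons_self
    refine ⟨max s s1, fun y hy s' hs' => ?_⟩
    rcases List.mem_cons.1 hy with rfl | hy
    · exact hs1 s' ((le_max_right _ _).trans hs')
    · exact hs y hy s' ((le_max_left _ _).trans hs')

theorem exists_bound_lt (P : ℕ → ℕ → Prop) (n : ℕ) (h : ∀ x < n, ∃ s, ∀ s' ≥ s, P x s') :
    ∃ s, ∀ x < n, ∀ s' ≥ s, P x s' := by
  obtain ⟨s, hs⟩ := exists_bound_list P (List.range n) (fun x hx => h x (List.mem_range.1 hx))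
  exact ⟨s, fun x hx => hs x (List.mem_range.2 hx)⟩

/-- certificates for not being in the halting problem -/
def Cert (T0 k1 e0 : ℕ) (l : List ℕ) (p : ℕ × ℕ) : Prop :=
  (T0 ≤ p.2 ∧ ∀ n' < p.1 + 1, (n' < k1 ∨ kin p.2 n') ∨ cv p.2 (e0, l) (blkL p.2 n')) ∧
    ¬ kin p.2 p.1

theorem prim_Cert (T0 k1 e0 : ℕ) : PrimrecRel (Cert T0 k1 e0) := by
  unfold Cert
  refine PrimrecPred.and (PrimrecPred.and ?_ ?_) (PrimrecPred.not ?_)
  · exact Primrec.nat_le.comp (Primrec.const _) (Primrec.snd.comp Primrec.snd)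
  · refine PRalllt (R := fun (q : List ℕ × (ℕ × ℕ)) (n' : ℕ) =>
      (n' < k1 ∨ kin q.2.2 n') ∨ cv q.2.2 (e0, q.1) (blkL q.2.2 n')) ?_
      (Primrec.succ.comp (Primrec.fst.comp Primrec.snd))
    have hT : Primrec (fun w : (List ℕ × (ℕ × ℕ)) × ℕ => w.1.2.2) :=
      Primrec.snd.comp (Primrec.snd.comp Primrec.fst)
    refine PrimrecPred.or (PrimrecPred.or ?_ ?_) ?_
    · exact Primrec.nat_lt.comp Primrec.snd (Primrec.const _)
    · exact prim_kin.comp hT Primrec.snd
    · exact prim_cv.comp (f := fun w : (List ℕ × (ℕ × ℕ)) × ℕ =>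
        ((w.1.2.2, (e0, w.1.1)), blkL w.1.2.2 w.2))
        (Primrec.pair (Primrec.pair hT (Primrec.pair (Primrec.const e0)
          (Primrec.fst.comp Primrec.fst))) (prim_blkL.comp hT Primrec.snd))
  · exact prim_kin.comp (Primrec.snd.comp Primrec.snd) (Primrec.fst.comp Primrec.snd)

/-- the code of a functional -/
theorem exists_code_rel {D : List ℕ → ℕ × ℕ → Prop} (hD : PrimrecRel D) :
    ∃ e : ℕ, ∀ l a, (∃ s, Nat.Partrec.Code.evaln s (Denumerable.ofNat Nat.Partrec.Code e)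
      (encode (l, a)) = some 1) ↔ D l a := by
  classical
  have h2 : Primrec (fun p : List ℕ × (ℕ × ℕ) => (if D p.1 p.2 then 1 else 0 : ℕ)) :=
    Primrec.ite hD (Primrec.const 1) (Primrec.const 0)
  obtain ⟨c, hc⟩ := Nat.Partrec.Code.exists_code.1 (h2.to_comp.partrec)
  refine ⟨encode c, fun l a => ?_⟩
  rw [Denumerable.ofNat_encode]
  have h3 : (∃ s, Nat.Partrec.Code.evaln s c (encode (l, a)) = some 1) ↔
      1 ∈ c.eval (encode (l, a)) := by
    rw [Nat.Partrec.Code.evaln_complete]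
    exact Iff.rfl
  rw [h3, hc]
  simp only [encodek, Part.coe_some, Part.bind_some, PFun.coe_val, Part.map_some,
    Part.mem_some_iff]
  by_cases h : D l a
  · simp [h]
  · simp [h]

/-- **Main step.** -/
theorem s1_not_K {X : ℕ → ℕ} (hX : ∀ n, X n < 2) {g : ℕ → ℕ}
    (hgX : S1 X (fun p : ℕ × ℕ => g p.1 = p.2)) (hg : ∀ x, ¬ ERand (g x) x)
    {k0 : ℕ} (hk0 : ∀ l, ¬ SurvSet k0 (res X l)) :
    S1 X (fun n : ℕ => ∀ s, ¬ kin s n) := by
  obtain ⟨D, hD, hA⟩ := hgX
  obtain ⟨e0, he0⟩ := exists_code_rel hD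
  have q1 : ∀ s x y, qv s e0 (res X s) x y → y = g x := by
    rintro s x y ⟨k, hk, h⟩
    rw [res_take X (by omega)] at h
    have := (he0 _ _).1 ⟨s, h⟩
    exact ((hA (x, y)).2 ⟨k, this⟩).symm
  have q2 : ∀ x, ∃ s, ∀ s' ≥ s, ∃ y < s', qv s' e0 (res X s') x y := by
    intro x
    obtain ⟨k, hk⟩ := (hA (x, g x)).1 rfl
    obtain ⟨s, hs⟩ := (he0 _ _).2 hk
    refine ⟨max s (max k (g x + 1)), fun s' hs' => ⟨g x, ?_, k, ?_, ?_⟩⟩
    · have := (le_max_right k (g x + 1)).trans ((le_max_right s _).trans hs')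
      omega
    · have := (le_max_left k (g x + 1)).trans ((le_max_right s _).trans hs')
      omega
    · rw [res_take X ((le_max_left k (g x + 1)).trans ((le_max_right s _).trans hs'))]
      exact Nat.Partrec.Code.evaln_mono ((le_max_left _ _).trans hs') hs
  let k1 := max k0 e0
  obtain ⟨T0, hT0⟩ := finite_settle k1
  have hs1 : S1 X (fun n : ℕ => ∃ T : ℕ, Cert T0 k1 e0 (res X T) (n, T)) :=
    S1.ex (A := fun (n : ℕ) (T : ℕ) => Cert T0 k1 e0 (res X T) (n, T))
      (S1.oracle (X := X) (R := Cert T0 k1 e0) (prim_Cert T0 k1 e0) (f := fun p : ℕ × ℕ => p.2)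
        Primrec.snd)
  refine hs1.of_iff (fun n => ⟨?_, ?_⟩)
  · -- a certificate is correct
    rintro ⟨T, ⟨hT, hc⟩, hn⟩ s0 hs0
    have hex : ∃ m, m ≤ n ∧ (∃ s, kin s m) ∧ ¬ kin T m := ⟨n, le_rfl, ⟨s0, hs0⟩, hn⟩
    classical
    let m := Nat.find hex
    obtain ⟨hm1, ⟨s1, hs1'⟩, hm3⟩ := Nat.find_spec hex
    have hmin : ∀ j < m, (∃ s, kin s j) → kin T j := by
      intro j hj hk
      by_contra hcon
      exact Nat.find_min hex hj ⟨by show j ≤ n; have : m ≤ n := hm1; omega, hk, hcon⟩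
    -- the stage at which `m` enters
    have hex2 : ∃ s, kin s m := ⟨s1, hs1'⟩
    obtain ⟨s, hs⟩ : ∃ s, Nat.find hex2 = s + 1 := by
      refine ⟨Nat.find hex2 - 1, ?_⟩
      have : Nat.find hex2 ≠ 0 := by
        intro h0
        have := Nat.find_spec hex2
        rw [h0] at this
        exact not_kin_zero _ this
      omega
    have hk1 : kin (s + 1) m := hs ▸ Nat.find_spec hex2
    have hk2 : ¬ kin s m := Nat.find_min hex2 (by omega)
    have hTs : T ≤ s := by
      by_contra hcon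
      exact hm3 (kin_mono (by omega) hk1)
    have hl : Least s m := by
      refine ⟨⟨hk1, hk2⟩, fun j hj hk => kin_mono hTs (hmin j hj ⟨_, hk⟩)⟩
    have hv : vers s m = vers T m := vers_settle hmin hTs
    have hb : blkL s m = blkL T m := by unfold blkL; rw [hv]
    have hmk : k1 ≤ m := by
      by_contra hcon
      exact hm3 (kin_mono hT (hT0 m (by omega) hex2))
    have hcv : cv T (e0, res X T) (blkL T m) := by
      rcases hc m (by show m < n + 1; have : m ≤ n := hm1; omega) with (h | h) | h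
      · omega
      · exact absurd h hm3
      · exact h
    have hcv' : cv s (e0, res X s) (blkL s m) := by
      rw [hb]
      intro x hx
      obtain ⟨y, hy, k, hk, hq⟩ := hcv x hx
      refine ⟨y, by omega, k, by omega, ?_⟩
      simp only at hq ⊢
      rw [res_take X (by omega)] at hq ⊢
      exact Nat.Partrec.Code.evaln_mono hTs hq
    have hpop : (e0, res X s) ∈ pop0 s m :=
      mem_pop0.2 ⟨⟨(le_max_right k0 e0).trans hmk, res_mem_strs hX⟩, hcv'⟩
    have hsurv := survives hl hpop (fun r hr => by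
      have h1 := (vl_spec (hcv' (xel s m r) (mem_blkL.2 ⟨r, hr, rfl⟩))).2
      have h2 := q1 s _ _ h1
      rw [h2]
      exact hg _) (bn m) le_rfl
    exact hk0 s ⟨(s, m, e0), ⟨hl, (le_max_left k0 e0).trans hmk⟩, hsurv⟩
  · -- existence of certificates
    intro hn
    obtain ⟨T1, hT1⟩ := finite_settle (n + 1)
    have h1 : ∃ s, ∀ n' < n + 1, ∀ s' ≥ s, cv s' (e0, res X s') (blkL T1 n') := by
      apply exists_bound_lt
      intro n' _
      obtain ⟨s, hs⟩ := exists_bound_list (fun x s' => ∃ y < s', qv s' e0 (res X s') x y)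
        (blkL T1 n') (fun x _ => q2 x)
      exact ⟨s, fun s' hs' x hx => hs x hx s' hs'⟩
    obtain ⟨s2, hs2⟩ := h1
    refine ⟨max T0 (max T1 s2), ⟨le_max_left _ _, fun n' hn' => Or.inr ?_⟩, hn _⟩
    have h3 : T1 ≤ max T0 (max T1 s2) := (le_max_left T1 s2).trans (le_max_right _ _)
    have h4 : s2 ≤ max T0 (max T1 s2) := (le_max_right T1 s2).trans (le_max_right _ _)
    have hv : vers (max T0 (max T1 s2)) n' = vers T1 n' := by
      refine vers_settle (fun m hm hk => hT1 m ?_ hk) h3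
      have : n' < n + 1 := hn'
      omega
    have hb : blkL (max T0 (max T1 s2)) n' = blkL T1 n' := by unfold blkL; rw [hv]
    rw [hb]
    exact hs2 n' hn' _ h4

end Pool.Agent.helper63.Diag
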