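import Mathlib.Computability.TuringDegree
import Mathlib.Computability.RE
import Mathlib.Tactic

/-!
# Sets that are `Σ⁰₁` relative to an oracle

`S1 X A` says that `A` is recursively enumerable in the oracle `X : ℕ → ℕ`, in normal form: there
is a primitive recursive relation `D` with `A a ↔ ∃ k, D (X ↾ k) a`.
-/

namespace Pool.Agent.helper63.Diag

open Encodable

/-- The first `k` values of an oracle. -/
def res (X : ℕ → ℕ) (k : ℕ) : List ℕ := (List.range k).map X

@[simp] theorem res_length (X : ℕ → ℕ) (k : ℕ) : (res X k).length = k := by simp [res]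

theorem res_take (X : ℕ → ℕ) {j k : ℕ} (h : j ≤ k) : (res X k).take j = res X j := by
  unfold res
  rw [← List.map_take, List.take_range, Nat.min_eq_left h]

theorem res_getD (X : ℕ → ℕ) {i k : ℕ} (h : i < k) : (res X k).getD i 0 = X i := by
  rw [List.getD_eq_getElem?_getD]
  simp [res, h]

theorem res_congr {X Y : ℕ → ℕ} {k : ℕ} (h : ∀ i < k, X i = Y i) : res X k = res Y k := by
  unfold res
  exact List.map_congr_left (fun i hi => h i (List.mem_range.1 hi))

theorem res_inj {X Y : ℕ → ℕ} {k : ℕ} (h : res X k = res Y k) : ∀ i < k, X i = Y i := by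
  intro i hi
  rw [← res_getD X hi, h, res_getD Y hi]

/-- `A` is recursively enumerable in `X`. -/
def S1 {α : Type} [Primcodable α] (X : ℕ → ℕ) (A : α → Prop) : Prop :=
  ∃ D : List ℕ → α → Prop, PrimrecRel D ∧ ∀ a, A a ↔ ∃ k, D (res X k) a

variable {α β γ : Type} [Primcodable α] [Primcodable β] [Primcodable γ] {X : ℕ → ℕ}

theorem S1.of_iff {A B : α → Prop} (h : S1 X A) (H : ∀ a, A a ↔ B a) : S1 X B := by
  obtain ⟨D, hD, hA⟩ := h
  exact ⟨D, hD, fun a => (H a).symm.trans (hA a)⟩

theorem S1.prim {A : α → Prop} (h : PrimrecPred A) : S1 X A :=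
  ⟨fun _ a => A a, h.comp Primrec.snd, fun a => ⟨fun h => ⟨0, h⟩, fun ⟨_, h⟩ => h⟩⟩

theorem S1.comp {A : β → Prop} (h : S1 X A) {f : α → β} (hf : Primrec f) :
    S1 X (fun a => A (f a)) := by
  obtain ⟨D, hD, hA⟩ := h
  exact ⟨fun l a => D l (f a), hD.comp Primrec.fst (hf.comp Primrec.snd), fun a => hA (f a)⟩

/-- bounded disjunction over lists given by a primitive recursive function -/
theorem PRex {R : α → β → Prop} (hR : PrimrecRel R) {L : α → List β} (hL : Primrec L) :
    PrimrecPred (fun a => ∃ b ∈ L a, R a b) := by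
  have h1 : PrimrecRel (fun (l : List β) (a : α) => ∃ b ∈ l, R a b) :=
    PrimrecRel.exists_mem_list (R := fun b a => R a b) (hR.comp Primrec.snd Primrec.fst)
  exact h1.comp hL Primrec.id

theorem PRall {R : α → β → Prop} (hR : PrimrecRel R) {L : α → List β} (hL : Primrec L) :
    PrimrecPred (fun a => ∀ b ∈ L a, R a b) := by
  have h1 : PrimrecRel (fun (l : List β) (a : α) => ∀ b ∈ l, R a b) :=
    PrimrecRel.forall_mem_list (R := fun b a => R a b) (hR.comp Primrec.snd Primrec.fst)
  exact h1.comp hL Primrec.id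

theorem PRexlt {R : α → ℕ → Prop} (hR : PrimrecRel R) {f : α → ℕ} (hf : Primrec f) :
    PrimrecPred (fun a => ∃ n < f a, R a n) :=
  (PRex hR (Primrec.list_range.comp hf)).of_eq (fun a => by simp)

theorem PRalllt {R : α → ℕ → Prop} (hR : PrimrecRel R) {f : α → ℕ} (hf : Primrec f) :
    PrimrecPred (fun a => ∀ n < f a, R a n) :=
  (PRall hR (Primrec.list_range.comp hf)).of_eq (fun a => by simp)

/-- A monotone normal form. -/
theorem S1.mono {A : α → Prop} (h : S1 X A) :
    ∃ D : List ℕ → α → Prop, PrimrecRel D ∧ (∀ a, A a ↔ ∃ k, D (res X k) a) ∧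
      ∀ a k k', k ≤ k' → D (res X k) a → D (res X k') a := by
  obtain ⟨D, hD, hA⟩ := h
  refine ⟨fun l a => ∃ j < l.length + 1, D (l.take j) a, ?_, ?_, ?_⟩
  · have h1 : PrimrecRel (fun (p : List ℕ × α) (j : ℕ) => D (p.1.take j) p.2) :=
      hD.comp (Primrec.list_take.comp Primrec.snd (Primrec.fst.comp Primrec.fst))
        (Primrec.snd.comp Primrec.fst)
    exact PRexlt h1 (Primrec.succ.comp (Primrec.list_length.comp Primrec.fst))
  · intro a
    rw [hA a]
    constructor
    · rintro ⟨k, hk⟩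
      exact ⟨k, k, by simp, by rwa [res_take X le_rfl]⟩
    · rintro ⟨k, j, hj, hjk⟩
      rw [res_length] at hj
      rw [res_take X (by omega)] at hjk
      exact ⟨j, hjk⟩
  · rintro a k k' hkk ⟨j, hj, h⟩
    rw [res_length] at hj
    rw [res_take X (by omega)] at h
    refine ⟨j, by rw [res_length]; omega, ?_⟩
    rwa [res_take X (by omega)]

theorem S1.and {A B : α → Prop} (hA : S1 X A) (hB : S1 X B) : S1 X (fun a => A a ∧ B a) := by
  obtain ⟨D, hD, hA, mD⟩ := hA.mono
  obtain ⟨D', hD', hB, mD'⟩ := hB.mono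
  refine ⟨fun l a => D l a ∧ D' l a, hD.and hD', fun a => ?_⟩
  beta_reduce
  rw [hA a, hB a]
  constructor
  · rintro ⟨⟨k, hk⟩, ⟨k', hk'⟩⟩
    exact ⟨max k k', mD a _ _ (le_max_left _ _) hk, mD' a _ _ (le_max_right _ _) hk'⟩
  · rintro ⟨k, h1, h2⟩
    exact ⟨⟨k, h1⟩, ⟨k, h2⟩⟩

theorem S1.or {A B : α → Prop} (hA : S1 X A) (hB : S1 X B) : S1 X (fun a => A a ∨ B a) := by
  obtain ⟨D, hD, hA⟩ := hA
  obtain ⟨D', hD', hB⟩ := hB
  refine ⟨fun l a => D l a ∨ D' l a, hD.or hD', fun a => ?_⟩
  beta_reduce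
  rw [hA a, hB a]
  constructor
  · rintro (⟨k, hk⟩ | ⟨k, hk⟩)
    · exact ⟨k, Or.inl hk⟩
    · exact ⟨k, Or.inr hk⟩
  · rintro ⟨k, h | h⟩
    · exact Or.inl ⟨k, h⟩
    · exact Or.inr ⟨k, h⟩

/-- finite nonuniform disjunction -/
theorem S1.orlt {A : ℕ → α → Prop} (H : ℕ) (h : ∀ i < H, S1 X (A i)) :
    S1 X (fun a => ∃ i < H, A i a) := by
  induction H with
  | zero => exact (S1.prim (A := fun _ : α => False) (by
      have : PrimrecPred (fun _ : α => (0 : ℕ) = 1) :=
        Primrec.eq.comp (Primrec.const 0) (Primrec.const 1)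
      exact this.of_eq (fun a => by simp))).of_iff (fun a => by simp)
  | succ H ih =>
    have h1 := ih (fun i hi => h i (by omega))
    have h2 := h H (by omega)
    refine (h1.or h2).of_iff (fun a => ?_)
    constructor
    · rintro (⟨i, hi, h⟩ | h)
      · exact ⟨i, by omega, h⟩
      · exact ⟨H, by omega, h⟩
    · rintro ⟨i, hi, hi2⟩
      rcases Nat.lt_succ_iff_lt_or_eq.1 hi with h' | h'
      · exact Or.inl ⟨i, h', hi2⟩
      · subst h'; exact Or.inr hi2

theorem S1.ex {A : α → β → Prop} (h : S1 X (fun p : α × β => A p.1 p.2)) :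
    S1 X (fun a => ∃ b, A a b) := by
  obtain ⟨D, hD, hA, mD⟩ := h.mono
  refine ⟨fun l a => ∃ b ∈ (List.range (l.length + 1)).filterMap (decode (α := β)), D l (a, b),
    ?_, fun a => ?_⟩
  · have h1 : PrimrecRel (fun (p : List ℕ × α) (b : β) => D p.1 (p.2, b)) :=
      hD.comp (Primrec.fst.comp Primrec.fst)
        (Primrec.pair (Primrec.snd.comp Primrec.fst) Primrec.snd)
    refine PRex h1 ?_
    refine Primrec.listFilterMap ?_ ?_
    · exact Primrec.list_range.comp (Primrec.succ.comp (Primrec.list_length.comp Primrec.fst))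
    · exact (Primrec.decode (α := β)).comp Primrec.snd
  · constructor
    · rintro ⟨b, hb⟩
      obtain ⟨k, hk⟩ := (hA (a, b)).1 hb
      refine ⟨max k (encode b), b, ?_, mD _ _ _ (le_max_left _ _) hk⟩
      rw [List.mem_filterMap]
      refine ⟨encode b, ?_, encodek b⟩
      rw [List.mem_range, res_length]
      exact Nat.lt_succ_of_le (le_max_right _ _)
    · rintro ⟨k, b, -, hb⟩
      exact ⟨b, (hA (a, b)).2 ⟨k, hb⟩⟩

theorem S1.ball {A : α → β → Prop} (h : S1 X (fun p : α × β => A p.1 p.2)) {L : α → List β}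
    (hL : Primrec L) : S1 X (fun a => ∀ b ∈ L a, A a b) := by
  obtain ⟨D, hD, hA, mD⟩ := h.mono
  refine ⟨fun l a => ∀ b ∈ L a, D l (a, b), ?_, fun a => ?_⟩
  · have h1 : PrimrecRel (fun (p : List ℕ × α) (b : β) => D p.1 (p.2, b)) :=
      hD.comp (Primrec.fst.comp Primrec.fst)
        (Primrec.pair (Primrec.snd.comp Primrec.fst) Primrec.snd)
    exact PRall h1 (hL.comp Primrec.snd)
  · constructor
    · intro H
      have : ∀ M : List β, (∀ b ∈ M, A a b) → ∃ k, ∀ b ∈ M, D (res X k) (a, b) := by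
        intro M
        induction M with
        | nil => intro _; exact ⟨0, by simp⟩
        | cons b M ih =>
          intro hM
          obtain ⟨k, hk⟩ := ih (fun b hb => hM b (List.mem_cons_of_mem _ hb))
          obtain ⟨k', hk'⟩ := (hA (a, b)).1 (hM b List.mem_cons_self)
          refine ⟨max k k', fun c hc => ?_⟩
          rcases List.mem_cons.1 hc with rfl | hc
          · exact mD _ _ _ (le_max_right _ _) hk'
          · exact mD _ _ _ (le_max_left _ _) (hk c hc)
      exact this _ H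
    · rintro ⟨k, hk⟩ b hb
      exact (hA (a, b)).2 ⟨k, hk b hb⟩

theorem S1.balllt {A : α → ℕ → Prop} (h : S1 X (fun p : α × ℕ => A p.1 p.2)) {f : α → ℕ}
    (hf : Primrec f) : S1 X (fun a => ∀ n < f a, A a n) :=
  (S1.ball h (Primrec.list_range.comp hf)).of_iff (fun a => by simp)

/-- A relation that is decided by looking at a primitive recursive amount of the oracle. -/
theorem S1.oracle {R : List ℕ → α → Prop} (hR : PrimrecRel R) {f : α → ℕ} (hf : Primrec f) :
    S1 X (fun a => R (res X (f a)) a) := by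
  refine ⟨fun l a => f a ≤ l.length ∧ R (l.take (f a)) a, ?_, fun a => ?_⟩
  · refine PrimrecPred.and ?_ ?_
    · exact Primrec.nat_le.comp (hf.comp Primrec.snd) (Primrec.list_length.comp Primrec.fst)
    · exact hR.comp (Primrec.list_take.comp (hf.comp Primrec.snd) Primrec.fst) Primrec.snd
  · constructor
    · intro h
      exact ⟨f a, by simp, by rwa [res_take X le_rfl]⟩
    · rintro ⟨k, h1, h2⟩
      rw [res_length] at h1
      rwa [res_take X h1] at h2

end Pool.Agent.helper63.Diag
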