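import Pool.Agent.helper63.Diag.Cond

/-!
# Meeting one requirement
-/

namespace Pool.Agent.helper63.Diag

open Encodable

variable {X : ℕ → ℕ} {E : ℕ → ℕ → Prop}

theorem gen_tuple {H n : ℕ} {B : ℕ → List ℕ → Prop} {fl : ℕ → ℕ}
    (hne : ∀ i, ∃ v, i < H → v ∈ cls n (B i))
    (hd : ∀ (l : ℕ) (v : ℕ → ℕ → ℕ), (∀ i < H, v i ∈ cls n (B i)) → ∀ x < l, ∃ y, ∀ i < H,
      ∃ u ∈ cls n (B i), (∀ j < l, u j = v i j) ∧ u y = fl (v i x)) :
    ∃ w : ℕ → ℕ → ℕ, (∀ i < H, w i ∈ cls n (B i)) ∧ ∀ x, ∃ y, ∀ i < H, w i y = fl (w i x) := by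
  classical
  let S := {p : (ℕ → ℕ → ℕ) × ℕ // ∀ i < H, p.1 i ∈ cls n (B i)}
  have step : ∀ (m : ℕ) (s : S), ∃ s' : S, m < s.1.2 → (s.1.2 < s'.1.2 ∧
      (∀ i < H, ∀ j < s.1.2, s'.1.1 i j = s.1.1 i j) ∧
      ∃ y < s'.1.2, ∀ i < H, s'.1.1 i y = fl (s.1.1 i m)) := by
    rintro m ⟨⟨v, l⟩, hv⟩
    by_cases hml : m < l
    · obtain ⟨y, hy⟩ := hd l v hv m hml
      have : ∀ i, ∃ u : ℕ → ℕ, i < H → (u ∈ cls n (B i) ∧ (∀ j < l, u j = v i j) ∧
          u y = fl (v i m)) := by
        intro i
        by_cases hi : i < H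
        · obtain ⟨u, h1, h2, h3⟩ := hy i hi
          exact ⟨u, fun _ => ⟨h1, h2, h3⟩⟩
        · exact ⟨fun _ => 0, fun h => absurd h hi⟩
      choose u hu using this
      refine ⟨⟨(u, max (l + 1) (y + 1)), fun i hi => (hu i hi).1⟩, fun _ => ⟨?_, ?_, y, ?_, ?_⟩⟩
      · exact lt_of_lt_of_le (Nat.lt_succ_self l) (le_max_left _ _)
      · exact fun i hi j hj => (hu i hi).2.1 j hj
      · exact lt_of_lt_of_le (Nat.lt_succ_self y) (le_max_right _ _)
      · exact fun i hi => (hu i hi).2.2
    · exact ⟨⟨(v, l), hv⟩, fun h => absurd h hml⟩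
  choose nxt hnxt using step
  choose v0 hv0 using hne
  let s0 : S := ⟨(v0, 1), fun i hi => hv0 i hi⟩
  let seq : ℕ → S := fun m => Nat.rec s0 (fun m s => nxt m s) m
  have hseq : ∀ m, seq (m + 1) = nxt m (seq m) := fun m => rfl
  have hlen : ∀ m, m < (seq m).1.2 := by
    intro m
    induction m with
    | zero => show 0 < 1; omega
    | succ m ih =>
      have := (hnxt m (seq m) ih).1
      rw [hseq]
      omega
  have hlt : ∀ m, (seq m).1.2 < (seq (m + 1)).1.2 := fun m => (hnxt m (seq m) (hlen m)).1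
  have hmono : ∀ m m', m ≤ m' → (seq m).1.2 ≤ (seq m').1.2 := by
    intro m m' h
    induction h with
    | refl => exact le_rfl
    | step h ih => exact ih.trans (hlt _).le
  have hst : ∀ m m', m ≤ m' → ∀ i < H, ∀ j < (seq m).1.2, (seq m').1.1 i j = (seq m).1.1 i j := by
    intro m m' h
    induction h with
    | refl => intros; rfl
    | step h ih =>
      intro i hi j hj
      rename_i k
      rw [← ih i hi j hj]
      exact (hnxt k (seq k) (hlen k)).2.1 i hi j (lt_of_lt_of_le hj (hmono m k h))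
  have hw : ∀ i < H, ∀ m, ∀ j < (seq m).1.2, (seq j).1.1 i j = (seq m).1.1 i j := by
    intro i hi m j hj
    rcases le_total j m with h | h
    · exact (hst j m h i hi j (hlen j)).symm
    · exact hst m j h i hi j hj
  refine ⟨fun i j => (seq j).1.1 i j, fun i hi => ⟨fun x => ?_, fun k => ?_⟩, fun x => ?_⟩
  · exact ((seq x).2 i hi).1 x
  · have : res (fun j => (seq j).1.1 i j) k = res ((seq k).1.1 i) k :=
      res_congr (fun j hj => hw i hi k j (hj.trans (hlen k)))
    rw [this]
    exact ((seq k).2 i hi).2 k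
  · obtain ⟨y, hy, hy2⟩ := (hnxt x (seq x) (hlen x)).2.2
    refine ⟨y, fun i hi => ?_⟩
    show (seq y).1.1 i y = fl ((seq x).1.1 i x)
    rw [hw i hi (x + 1) y hy]
    exact hy2 i hi

/-- `E` has no total `Σ⁰₁(X)` diagonal multifunction. -/
def NoDg (X : ℕ → ℕ) (E : ℕ → ℕ → Prop) : Prop :=
  ¬ ∃ Dg : ℕ × ℕ → Prop, S1 X Dg ∧ (∀ y, ∃ z, Dg (y, z)) ∧ ∀ y z, Dg (y, z) → ¬ E z y

/-- The requirement for the relation `D` and the bound `h`. -/
def Req (X : ℕ → ℕ) (D : List ℕ → ℕ × ℕ → Prop) (h g : ℕ → ℕ) : Prop :=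
  (∀ e, ∃ m < h e, ∃ k, D (res (join X g) k) (e, m)) →
    ∃ e m, Hlt e m ∧ ∃ k, D (res (join X g) k) (e, m)

/-- The combinatorial heart: if all classes are non-empty there is a tuple whose range is closed
under `fl`, or else `E` has a relatively computable diagonal function. -/
theorem closed_tuple (hE : NoDg X E) (p : Cond X E) {H : ℕ} {B : ℕ → List ℕ → Prop}
    (hB : ∀ i < H, S1 X (B i)) (hsub : ∀ i < H, ∀ v ∈ cls p.n (B i), v ∈ cls p.n p.Bad)
    (hne : ∀ i < H, ∃ v, v ∈ cls p.n (B i)) :
    ∃ w : ℕ → ℕ → ℕ, (∀ i < H, w i ∈ cls p.n (B i)) ∧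
      ∀ x, ∃ y, ∀ i < H, w i y = p.fl (w i x) := by
  apply gen_tuple
  · intro i
    by_cases hi : i < H
    · obtain ⟨v, hv⟩ := hne i hi
      exact ⟨v, fun _ => hv⟩
    · exact ⟨fun _ => 0, fun h => absurd h hi⟩
  · intro l v hv x hx
    by_contra hcon
    push Not at hcon
    apply hE
    let BU : ℕ → ℕ → List ℕ → Prop := fun i y ρ =>
      (B i ρ ∨ ∃ j < l, j < ρ.length ∧ ¬ ρ.getD j 0 = (res (v i) l).getD j 0) ∨
        (y < ρ.length ∧ ¬ ρ.getD y 0 = p.fl (v i x))
    have memBU : ∀ i y u, u ∈ cls p.n (BU i y) ↔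
        (u ∈ cls p.n (B i) ∧ ∀ j < l, u j = v i j) ∧ u y = p.fl (v i x) := by
      intro i y u
      constructor
      · rintro ⟨h1, h2⟩
        refine ⟨⟨⟨h1, fun k hk => h2 k (Or.inl (Or.inl hk))⟩, fun j hj => ?_⟩, ?_⟩
        · by_contra hne
          refine h2 l (Or.inl (Or.inr ⟨j, hj, by rwa [res_length], ?_⟩))
          rwa [res_getD u hj, res_getD (v i) hj]
        · by_contra hne
          refine h2 (y + 1) (Or.inr ⟨by rw [res_length]; omega, ?_⟩)
          rwa [res_getD u (Nat.lt_succ_self y)]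
      · rintro ⟨⟨⟨h1, h2⟩, h3⟩, h4⟩
        refine ⟨h1, fun k hk => ?_⟩
        rcases hk with (hk | ⟨j, hj, hj2, hj3⟩) | ⟨hk1, hk2⟩
        · exact h2 k hk
        · rw [res_length] at hj2
          rw [res_getD u hj2, res_getD (v i) hj] at hj3
          exact hj3 (h3 j hj)
        · rw [res_length] at hk1
          rw [res_getD u hk1] at hk2
          exact hk2 h4
    refine ⟨fun q => ∃ i < H, q.2 = p.y (p.fl (v i x)) ∧ ∀ u, u ∉ cls p.n (BU i q.1), ?_, ?_, ?_⟩
    · refine S1.orlt (A := fun (i : ℕ) (q : ℕ × ℕ) => q.2 = p.y (p.fl (v i x)) ∧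
        ∀ u, u ∉ cls p.n (BU i q.1)) H (fun i hi => ?_)
      refine S1.and (S1.prim (Primrec.eq.comp Primrec.snd (Primrec.const _))) ?_
      refine S1.empty (Bad := fun (q : ℕ × ℕ) (ρ : List ℕ) => BU i q.1 ρ) ?_
      refine S1.or (S1.or ((hB i hi).comp Primrec.snd) (S1.prim ?_)) (S1.prim ?_)
      · refine PRexlt (R := fun (q : (ℕ × ℕ) × List ℕ) (j : ℕ) =>
          j < q.2.length ∧ ¬ q.2.getD j 0 = (res (v i) l).getD j 0) ?_ (Primrec.const l)
        refine PrimrecPred.and ?_ (PrimrecPred.not ?_)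
        · exact Primrec.nat_lt.comp Primrec.snd
            (Primrec.list_length.comp (Primrec.snd.comp Primrec.fst))
        · exact Primrec.eq.comp
            ((Primrec.list_getD 0).comp (Primrec.snd.comp Primrec.fst) Primrec.snd)
            ((Primrec.list_getD 0).comp (Primrec.const _) Primrec.snd)
      · refine PrimrecPred.and ?_ (PrimrecPred.not ?_)
        · exact Primrec.nat_lt.comp (Primrec.fst.comp Primrec.fst)
            (Primrec.list_length.comp Primrec.snd)
        · exact Primrec.eq.comp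
            ((Primrec.list_getD 0).comp Primrec.snd (Primrec.fst.comp Primrec.fst))
            (Primrec.const _)
    · intro y
      obtain ⟨i, hi, h⟩ := hcon y
      refine ⟨_, i, hi, rfl, fun u hu => ?_⟩
      obtain ⟨⟨h1, h2⟩, h3⟩ := (memBU i y u).1 hu
      exact h u h1 h2 h3
    · rintro y z ⟨i, hi, rfl, h⟩ hEzy
      have hvi := hsub i hi (v i) (hv i hi)
      have h1 := p.yc (v i) hvi (p.fl (v i x)) (p.fl_lt _ (hvi.1 x))
      have h2 := p.inv (v i) hvi _ _ hEzy
      exact h (v i) ((memBU i y (v i)).2 ⟨⟨hv i hi, fun _ _ => rfl⟩, by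
        show v i y = _
        rw [← h2, h1]⟩)

theorem Cond.force {H : Set (ℕ → ℕ)} (hP : Pr H X) (hE : NoDg X E) (p : Cond X E)
    {h : ℕ → ℕ} (hh : h ∈ H) {D : List ℕ → ℕ × ℕ → Prop} (hD : PrimrecRel D)
    (hm : ∀ (Y : ℕ → ℕ) a k k', k ≤ k' → D (res Y k) a → D (res Y k') a) :
    ∃ q : Cond X E, (∀ g, Sat q g → Sat p g) ∧ q.σ.take p.σ.length = p.σ ∧
      ∀ g, Sat q g → Req X D h g := by
  classical
  by_cases hc : ∀ e, ∃ i < h e, ∀ v, v ∉ cls p.n (fun ρ => p.Bad ρ ∨ Qk X p.fl p.σ D (e, i) ρ)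
  · -- Case 1
    have hs : S1 X (fun a : ℕ × ℕ =>
        ∀ v, v ∉ cls p.n (fun ρ => p.Bad ρ ∨ Qk X p.fl p.σ D a ρ)) :=
      S1.empty (Bad := fun (a : ℕ × ℕ) (ρ : List ℕ) => p.Bad ρ ∨ Qk X p.fl p.σ D a ρ)
        ((p.s1.comp Primrec.snd).or (s1_Qk p.hfl p.σ hD))
    obtain ⟨e, m, hem, hA⟩ := hP h hh _ hs hc
    obtain ⟨v, hv⟩ := p.ne
    have hnot := hA v
    rw [mem_kill_iff] at hnot
    push Not at hnot
    obtain ⟨τ, hτ, hcp, hDτ⟩ := hnot hv
    refine ⟨p.extend τ ⟨v, hv, hcp⟩, fun g hg => Sat.of_extend hτ hg, hτ, fun g hg _ => ?_⟩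
    refine ⟨e, m, hem, τ.length, ?_⟩
    have h1 : res g τ.length = τ := hg.1
    rw [← jl_res, h1]
    exact hDτ
  · -- Case 2
    push Not at hc
    obtain ⟨e, he⟩ := hc
    let B : ℕ → List ℕ → Prop := fun i ρ => p.Bad ρ ∨ Qk X p.fl p.σ D (e, i) ρ
    have hBmem : ∀ i v, v ∈ cls p.n (B i) → v ∈ cls p.n p.Bad :=
      fun i v hv => (mem_kill_iff.1 hv).1
    have hBs : ∀ i, S1 X (B i) := fun i =>
      p.s1.or ((s1_Qk p.hfl p.σ hD).comp (Primrec.pair (Primrec.const (e, i)) Primrec.id))
    by_cases hH : h e = 0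
    · refine ⟨p, fun _ hg => hg, by simp, fun g _ htot => ?_⟩
      obtain ⟨m, hm0, -⟩ := htot e
      omega
    obtain ⟨w, hw1, hw2⟩ := closed_tuple hE p (H := h e) (B := B) (fun i _ => hBs i)
      (fun i _ v hv => hBmem i v hv) he
    -- the finite set of tuples
    let W : ℕ → List ℕ := fun x => (List.range (h e)).map (fun i => w i x)
    have hWlen : ∀ x, (W x).length = h e := fun x => by simp [W]
    have hWget : ∀ x, ∀ i < h e, (W x).getD i 0 = w i x := by
      intro x i hi
      rw [List.getD_eq_getElem?_getD]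
      simp [W, hi]
    have hWmem : ∀ x, W x ∈ strs p.n (h e) := by
      intro x
      rw [mem_strs]
      refine ⟨hWlen x, fun c hc => ?_⟩
      obtain ⟨i, hi, rfl⟩ := List.mem_map.1 hc
      exact (hw1 i (List.mem_range.1 hi)).1 x
    let L : List (List ℕ) := ((strs p.n (h e)).filter (fun l => decide (∃ x, W x = l))).dedup
    have hL : ∀ l, l ∈ L ↔ ∃ x, W x = l := by
      intro l
      simp only [L, List.mem_dedup, List.mem_filter, decide_eq_true_eq]
      constructor
      · rintro ⟨-, h⟩; exact h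
      · rintro ⟨x, rfl⟩; exact ⟨hWmem x, x, rfl⟩
    have hLnd : L.Nodup := List.nodup_dedup _
    let π : ℕ → ℕ → ℕ := fun i c => (L.getD c []).getD i 0
    have hLget : ∀ c < L.length, ∃ x, W x = L.getD c [] := by
      intro c hc
      apply (hL _).1
      rw [List.getD_eq_getElem?_getD, List.getElem?_eq_getElem hc]
      simp
    have hidx : ∀ l ∈ L, L.idxOf l < L.length ∧ L.getD (L.idxOf l) [] = l := by
      intro l hl
      have h1 := List.idxOf_lt_length_of_mem hl
      refine ⟨h1, ?_⟩
      rw [List.getD_eq_getElem?_getD, List.getElem?_eq_getElem h1]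
      simp
    -- existence of the flipped colour
    have hflex : ∀ c, ∃ c', c < L.length → c' < L.length ∧ ∀ i < h e, π i c' = p.fl (π i c) := by
      intro c
      by_cases hc : c < L.length
      · obtain ⟨x, hx⟩ := hLget c hc
        obtain ⟨y, hy⟩ := hw2 x
        obtain ⟨h1, h2⟩ := hidx (W y) ((hL _).2 ⟨y, rfl⟩)
        refine ⟨L.idxOf (W y), fun _ => ⟨h1, fun i hi => ?_⟩⟩
        simp only [π]
        rw [h2, ← hx, hWget y i hi, hWget x i hi]
        exact hy i hi
      · exact ⟨0, fun h => absurd h hc⟩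
    choose f0 hf0 using hflex
    have hyex : ∀ c, ∃ x, c < L.length → W x = L.getD c [] := by
      intro c
      by_cases hc : c < L.length
      · obtain ⟨x, hx⟩ := hLget c hc
        exact ⟨x, fun _ => hx⟩
      · exact ⟨0, fun h => absurd h hc⟩
    choose y0 hy0 using hyex
    let fl' : ℕ → ℕ := fun c => (res f0 L.length).getD c 0
    have hfl' : ∀ c < L.length, fl' c = f0 c := fun c hc => res_getD f0 hc
    let Bad' : List ℕ → Prop := fun ρ =>
      (∃ i < h e, B i (ρ.map (π i))) ∨
        (∃ c < L.length, y0 c < ρ.length ∧ ¬ ρ.getD (y0 c) 0 = c)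
    have hπlt : ∀ c < L.length, ∀ i < h e, π i c < p.n := by
      intro c hc i hi
      obtain ⟨x, hx⟩ := hLget c hc
      simp only [π]
      rw [← hx, hWget x i hi]
      exact (hw1 i hi).1 x
    have hmap : ∀ (u : ℕ → ℕ) i k, (res u k).map (π i) = res (fun x => π i (u x)) k := by
      intro u i k
      simp [res, List.map_map, Function.comp_def]
    have hproj : ∀ u ∈ cls L.length Bad', ∀ i < h e, (fun x => π i (u x)) ∈ cls p.n (B i) := by
      rintro u ⟨h1, h2⟩ i hi
      refine ⟨fun x => hπlt _ (h1 x) i hi, fun k hk => ?_⟩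
      exact h2 k (Or.inl ⟨i, hi, by rwa [hmap]⟩)
    let p' : Cond X E :=
      { σ := p.σ
        n := L.length
        fl := fl'
        y := y0
        Bad := Bad'
        s1 := by
          refine S1.or ?_ (S1.prim ?_)
          · refine S1.orlt (A := fun (i : ℕ) (ρ : List ℕ) => B i (ρ.map (π i))) (h e)
              (fun i _ => (hBs i).comp ?_)
            refine Primrec.list_map Primrec.id ?_
            have : Primrec (π i) := by
              have h1 : Primrec (fun c : ℕ => L.getD c []) :=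
                (Primrec.list_getD []).comp (Primrec.const L) Primrec.id
              exact (Primrec.list_getD 0).comp h1 (Primrec.const i)
            exact this.comp Primrec.snd
          · refine (PRexlt (R := fun (ρ : List ℕ) (c : ℕ) =>
              (res y0 L.length).getD c 0 < ρ.length ∧
                ¬ ρ.getD ((res y0 L.length).getD c 0) 0 = c) ?_ (Primrec.const L.length)).of_eq ?_
            · have hy : Primrec (fun q : List ℕ × ℕ => (res y0 L.length).getD q.2 0) :=
                (Primrec.list_getD 0).comp (Primrec.const _) Primrec.snd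
              refine PrimrecPred.and ?_ (PrimrecPred.not ?_)
              · exact Primrec.nat_lt.comp hy (Primrec.list_length.comp Primrec.fst)
              · exact Primrec.eq.comp ((Primrec.list_getD 0).comp Primrec.fst hy) Primrec.snd
            · intro ρ
              constructor
              · rintro ⟨c, hc, h1, h2⟩
                rw [res_getD y0 hc] at h1 h2
                exact ⟨c, hc, h1, h2⟩
              · rintro ⟨c, hc, h1, h2⟩
                exact ⟨c, hc, by rw [res_getD y0 hc]; exact ⟨h1, h2⟩⟩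
        hfl := (Primrec.list_getD 0).comp (Primrec.const _) Primrec.id
        fl_lt := fun c hc => by rw [hfl' c hc]; exact (hf0 c hc).1
        fl_ne := fun c hc heq => by
          rw [hfl' c hc] at heq
          have h1 := (hf0 c hc).2 0 (by omega)
          rw [heq] at h1
          exact p.fl_ne _ (hπlt c hc 0 (by omega)) h1.symm
        inv := fun u hu x z hxz => by
          obtain ⟨x1, hx1⟩ := hLget _ (hu.1 x)
          obtain ⟨z1, hz1⟩ := hLget _ (hu.1 z)
          have hxz' : L.getD (u x) [] = L.getD (u z) [] := by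
            rw [← hx1, ← hz1]
            apply List.map_congr_left
            intro i hi
            have hi := List.mem_range.1 hi
            have h1 := p.inv _ (hBmem i _ (hproj u hu i hi)) x z hxz
            simp only [π] at h1
            rw [← hx1, ← hz1, hWget _ i hi, hWget _ i hi] at h1
            exact h1
          have h1 := hu.1 x
          have h2 := hu.1 z
          rw [List.getD_eq_getElem?_getD, List.getD_eq_getElem?_getD,
            List.getElem?_eq_getElem h1, List.getElem?_eq_getElem h2] at hxz'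
          exact (hLnd.getElem_inj_iff).1 (by simpa using hxz')
        yc := fun u hu c hc => by
          by_contra hne
          refine hu.2 (y0 c + 1) (Or.inr ⟨c, hc, by rw [res_length]; omega, ?_⟩)
          rwa [res_getD u (Nat.lt_succ_self _)]
        ne := by
          refine ⟨fun x => L.idxOf (W x), fun x => (hidx _ ((hL _).2 ⟨x, rfl⟩)).1, fun k hk => ?_⟩
          rcases hk with ⟨i, hi, hk⟩ | ⟨c, hc, h1, h2⟩
          · rw [hmap] at hk
            have : (fun x => π i (L.idxOf (W x))) = w i := by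
              funext x
              simp only [π]
              rw [(hidx _ ((hL _).2 ⟨x, rfl⟩)).2, hWget x i hi]
            rw [this] at hk
            exact (hw1 i hi).2 k hk
          · rw [res_length] at h1
            rw [res_getD _ h1, hy0 c hc] at h2
            apply h2
            have h3 := (hidx (L.getD c []) ((hL _).2 ⟨_, hy0 c hc⟩))
            have h4 := h3.1
            have h5 := h3.2
            rw [List.getD_eq_getElem?_getD (l := L) (i := L.idxOf _),
              List.getElem?_eq_getElem h4] at h5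
            have h6 : L.getD c [] = L[c] := by
              rw [List.getD_eq_getElem?_getD, List.getElem?_eq_getElem hc]; rfl
            exact (hLnd.getElem_inj_iff (hi := h4) (hj := hc)).1 (by
              rw [← h6]; simpa using h5) }
    have hflπ : ∀ u ∈ cls L.length Bad', ∀ x, ∀ i < h e,
        π i (fl' (u x)) = p.fl (π i (u x)) := by
      intro u hu x i hi
      rw [hfl' _ (hu.1 x)]
      exact (hf0 _ (hu.1 x)).2 i hi
    refine ⟨p', ?_, ?_, ?_⟩
    · rintro g ⟨h1, u, hu, h2⟩
      refine ⟨h1, _, hBmem 0 _ (hproj u hu 0 (by omega)), fun i hi => ?_⟩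
      show π 0 (u (g i)) = p.fl (π 0 (u i))
      rw [h2 i hi]
      exact hflπ u hu i 0 (by omega)
    · show p.σ.take p.σ.length = p.σ
      simp
    · rintro g ⟨h1, u, hu, h2⟩ htot
      obtain ⟨m, hme, k, hk⟩ := htot e
      exfalso
      have h3 := (mem_kill_iff.1 (hproj u hu m hme)).2 (res g (max k p.σ.length))
        (by rw [res_take g (le_max_right _ _)]; exact h1) ?_
      · apply h3
        rw [res_length, jl_res]
        exact hm _ _ _ _ (le_max_left _ _) hk
      · intro i hi1 hi2
        rw [res_length] at hi2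
        rw [res_getD g hi2]
        show π m (u (g i)) = p.fl (π m (u i))
        rw [h2 i hi1]
        exact hflπ u hu i m hme

end Pool.Agent.helper63.Diag
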